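import Pool.Agent.U963.KN.TwK

/-!
# The closures with tail and head at the same place (closed braids)
-/

set_option autoImplicit false

namespace Pool.Agent.U963.KN

open Finset LaurentPolynomial Pool.Agent.H891R2.Jones Pool.Agent.W639.RB Pool.Agent.Y463.SK Pool.Agent.Y463.MP
open Pool.Agent.TH561 (dl)
open Pool.Agent.U963.AR (V3 run one stp sz s2)
open Pool.Agent.U963.JN (un fPoly_eq)

theorem same_sz {w w' : List (Bool × ℕ)} (h1 : sz w = sz w') (h2 : expo w = expo w') : Same w w' := by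
  intro G _ a b h
  have h4 : sz (w ++ invL w') = 1 := by
    rw [AR.sz_append, h1, AR.sz_inv]
  have h5 : expo (w ++ invL w') = 0 := by
    have e1 : expo (invL w') = - expo w' := by
      have := vN_expo (invL w')
      rw [vN_inv, vN_expo] at this
      exact (Multiplicative.ofAdd.injective this).symm
    rw [expo_append, e1, h2]
    ring
  have h6 := kern _ h4 h5 h
  rw [vN_append, vN_inv] at h6
  exact mul_inv_eq_one.1 h6

theorem expo_one {w : List (Bool × ℕ)} (h1 : sz w = 1) : ∃ k : ℤ, expo w = 6 * k := by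
  have e1 : (nfw w).val mA mB = 1 := by
    rw [val_nfw mA_mB]
    apply Subtype.ext
    rw [coe_vN, h1]
    rfl
  obtain ⟨hi, hP, hj⟩ := nf_central _ e1
  have e2 : (nfw w).val (Multiplicative.ofAdd (1 : ℤ)) (Multiplicative.ofAdd (1 : ℤ)) = Multiplicative.ofAdd (expo w) := by
    rw [val_nfw rfl, vN_expo]
  unfold NF.val at e2
  rw [hi, hP, hj] at e2
  simp only [vS, vP, vR, if_true, Bool.false_eq_true, if_false, mul_one] at e2
  have e3 := congrArg Multiplicative.toAdd e2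
  simp only [toAdd_zpow, toAdd_pow, toAdd_mul, toAdd_ofAdd, toAdd_one, smul_eq_mul, nsmul_eq_mul] at e3
  push_cast at e3
  refine ⟨(nfw w).k, ?_⟩
  omega

theorem expo_sz {w w' : List (Bool × ℕ)} (h1 : sz w = sz w') : ∃ k : ℤ, expo w - expo w' = 6 * k := by
  have h4 : sz (w ++ invL w') = 1 := by
    rw [AR.sz_append, h1, AR.sz_inv]
  obtain ⟨k, hk⟩ := expo_one h4
  refine ⟨k, ?_⟩
  have e1 : expo (invL w') = - expo w' := by
    have := vN_expo (invL w')
    rw [vN_inv, vN_expo] at this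
    exact (Multiplicative.ofAdd.injective this).symm
  rw [expo_append, e1] at hk
  linarith

theorem sz_det (w : List (Bool × ℕ)) : (sz w).det = 1 := by
  rw [← coe_vN]
  exact (vN mA mB w).2

/-- the three standard words -/
def st : Fin 3 → List (Bool × ℕ) := ![[(true, 0), (true, 1)], [(false, 0), (false, 1)], [(true, 0), (false, 1)]]

theorem sz_cons (x : Bool × ℕ) (w : List (Bool × ℕ)) : sz (x :: w) = s2 x * sz w := by simp [sz]

theorem desc {a b c d t : ℤ} (ht : t = 3 ∨ t = 1) (hdet : a * d - b * c = 1) (htr : a + d = t) 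
    (hc : (a - d).natAbs ≤ c.natAbs) (hb : (a - d).natAbs ≤ b.natAbs) : 
    (t = 3 ∧ ((a = 2 ∧ d = 1) ∨ (a = 1 ∧ d = 2)) ∧ ((b = 1 ∧ c = 1) ∨ (b = -1 ∧ c = -1))) ∨ 
    (t = 1 ∧ ((a = 1 ∧ d = 0) ∨ (a = 0 ∧ d = 1)) ∧ ((b = 1 ∧ c = -1) ∨ (b = -1 ∧ c = 1))) := by
  have h1 : (a - d) ^ 2 + 4 * (b * c) = t ^ 2 - 4 := by
    rw [← htr]
    linear_combination -4 * hdet
  have h2 : (a - d) ^ 2 ≤ |b * c| := by
    have e1 : |a - d| ≤ |c| := by
      rw [Int.abs_eq_natAbs, Int.abs_eq_natAbs]; exact_mod_cast hc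
    have e2 : |a - d| ≤ |b| := by
      rw [Int.abs_eq_natAbs, Int.abs_eq_natAbs]; exact_mod_cast hb
    rw [abs_mul, ← sq_abs, pow_two]
    exact mul_le_mul e2 e1 (abs_nonneg _) (abs_nonneg _)
  obtain ⟨D, hD⟩ : ∃ D, D = a - d := ⟨_, rfl⟩
  obtain ⟨q, hq⟩ : ∃ q, q = b * c := ⟨_, rfl⟩
  rw [← hD, ← hq] at h1
  rw [← hD, ← hq] at h2
  have h3 : D = 1 ∨ D = -1 := by
    have h4 : D ^ 2 ≤ 4 := by
      rcases ht with rfl | rfl
      · rcases abs_cases q with ⟨h, _⟩ | ⟨h, _⟩ <;> nlinarith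
      · rcases abs_cases q with ⟨h, _⟩ | ⟨h, _⟩ <;> nlinarith
    have h5 : D ≤ 2 := by nlinarith
    have h6 : -2 ≤ D := by nlinarith
    have h7 : D % 2 = 1 := by
      rcases ht with rfl | rfl <;> omega
    omega
  have h8 : D ^ 2 = 1 := by rcases h3 with rfl | rfl <;> norm_num
  rw [h8] at h1
  rcases ht with rfl | rfl
  · left
    refine ⟨rfl, by omega, ?_⟩
    have h9 : b * c = 1 := by omega
    rcases Int.mul_eq_one_iff_eq_one_or_neg_one.1 h9 with ⟨h, h'⟩ | ⟨h, h'⟩
    · exact Or.inl ⟨h, h'⟩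
    · exact Or.inr ⟨h, h'⟩
  · right
    refine ⟨rfl, by omega, ?_⟩
    have h9 : b * (-c) = 1 := by
      have : b * c = -1 := by omega
      linarith
    rcases Int.mul_eq_one_iff_eq_one_or_neg_one.1 h9 with ⟨h, h'⟩ | ⟨h, h'⟩
    · exact Or.inl ⟨h, by omega⟩
    · exact Or.inr ⟨h, by omega⟩

theorem conj_step (x : Bool × ℕ) {M M' : Matrix (Fin 2) (Fin 2) ℤ} {P : Fin 3 → Prop} (h : s2 x * M' = M * s2 x) 
    (H : ∃ (g : List (Bool × ℕ)) (i : Fin 3), P i ∧ sz g * sz (st i) = M' * sz g) : 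
    ∃ (g : List (Bool × ℕ)) (i : Fin 3), P i ∧ sz g * sz (st i) = M * sz g := by
  obtain ⟨g, i, hi, hg⟩ := H
  refine ⟨x :: g, i, hi, ?_⟩
  rw [sz_cons, mul_assoc, hg, ← mul_assoc, h, mul_assoc]

theorem base_case {a b c d t : ℤ} (h : (t = 3 ∧ ((a = 2 ∧ d = 1) ∨ (a = 1 ∧ d = 2)) ∧ ((b = 1 ∧ c = 1) ∨ (b = -1 ∧ c = -1))) ∨ 
    (t = 1 ∧ ((a = 1 ∧ d = 0) ∨ (a = 0 ∧ d = 1)) ∧ ((b = 1 ∧ c = -1) ∨ (b = -1 ∧ c = 1)))) 
    (hdet : a * d - b * c = 1) : 
    ∃ (g : List (Bool × ℕ)) (i : Fin 3), (t = 3 ↔ i = 2) ∧ sz g * sz (st i) = !![a, b; c, d] * sz g := by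
  rcases h with ⟨rfl, ⟨rfl, rfl⟩ | ⟨rfl, rfl⟩, ⟨rfl, rfl⟩ | ⟨rfl, rfl⟩⟩ | ⟨rfl, ⟨rfl, rfl⟩ | ⟨rfl, rfl⟩, ⟨rfl, rfl⟩ | ⟨rfl, rfl⟩⟩
  · refine ⟨[], 2, by decide, ?_⟩
    refine Matrix.ext fun k l => ?_
    fin_cases k <;> fin_cases l <;> simp [sz, s2, st, Matrix.mul_apply, Fin.sum_univ_two]
  · refine ⟨[(true, 1), (true, 0)], 2, by decide, ?_⟩
    refine Matrix.ext fun k l => ?_
    fin_cases k <;> fin_cases l <;> simp [sz, s2, st, Matrix.mul_apply, Fin.sum_univ_two]
  · refine ⟨[(false, 1)], 2, by decide, ?_⟩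
    refine Matrix.ext fun k l => ?_
    fin_cases k <;> fin_cases l <;> simp [sz, s2, st, Matrix.mul_apply, Fin.sum_univ_two]
  · refine ⟨[(true, 0), (true, 1), (true, 0)], 2, by decide, ?_⟩
    refine Matrix.ext fun k l => ?_
    fin_cases k <;> fin_cases l <;> simp [sz, s2, st, Matrix.mul_apply, Fin.sum_univ_two]
  · refine ⟨[(true, 1)], 0, by decide, ?_⟩
    refine Matrix.ext fun k l => ?_
    fin_cases k <;> fin_cases l <;> simp [sz, s2, st, Matrix.mul_apply, Fin.sum_univ_two]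
  · refine ⟨[(false, 1)], 1, by decide, ?_⟩
    refine Matrix.ext fun k l => ?_
    fin_cases k <;> fin_cases l <;> simp [sz, s2, st, Matrix.mul_apply, Fin.sum_univ_two]
  · refine ⟨[], 0, by decide, ?_⟩
    refine Matrix.ext fun k l => ?_
    fin_cases k <;> fin_cases l <;> simp [sz, s2, st, Matrix.mul_apply, Fin.sum_univ_two]
  · refine ⟨[], 1, by decide, ?_⟩
    refine Matrix.ext fun k l => ?_
    fin_cases k <;> fin_cases l <;> simp [sz, s2, st, Matrix.mul_apply, Fin.sum_univ_two]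

theorem conj_exists {t : ℤ} (ht : t = 3 ∨ t = 1) : ∀ (n : ℕ) (a b c d : ℤ), a * d - b * c = 1 → a + d = t → 
    (a - d).natAbs ≤ n → 
    ∃ (g : List (Bool × ℕ)) (i : Fin 3), (t = 3 ↔ i = 2) ∧ sz g * sz (st i) = !![a, b; c, d] * sz g := by
  intro n
  induction n with
  | zero =>
    intro a b c d hdet htr hn
    exact base_case (desc ht hdet htr (by omega) (by omega)) hdet
  | succ n ih =>
    intro a b c d hdet htr hn
    have hbc : b ≠ 0 ∧ c ≠ 0 := by
      have h1 : (a - d) ^ 2 + 4 * (b * c) = t ^ 2 - 4 := by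
        rw [← htr]
        linear_combination -4 * hdet
      have key : b * c ≠ 0 := by
        intro h0
        rw [h0, mul_zero, add_zero] at h1
        obtain ⟨D, hD⟩ : ∃ D, D = a - d := ⟨_, rfl⟩
        rw [← hD] at h1
        rcases ht with rfl | rfl
        · have h2 : D ≤ 2 := by nlinarith
          have h3 : -2 ≤ D := by nlinarith
          interval_cases D <;> omega
        · nlinarith [sq_nonneg D]
      exact ⟨fun h => key (by rw [h, zero_mul]), fun h => key (by rw [h, mul_zero])⟩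
    obtain ⟨hb0, hc0⟩ := hbc
    by_cases hc : (a - d).natAbs ≤ c.natAbs
    · by_cases hb : (a - d).natAbs ≤ b.natAbs
      · exact base_case (desc ht hdet htr hc hb) hdet
      · by_cases hs : (0 < a - d ∧ 0 < b) ∨ (a - d < 0 ∧ b < 0)
        · -- `U⁻¹ M U`
          refine conj_step (true, 1) (M' := !![a - b, b; a + c - b - d, b + d]) ?_ (ih _ _ _ _ ?_ ?_ ?_)
          · refine Matrix.ext fun k l => ?_
            fin_cases k <;> fin_cases l <;> simp [s2, Matrix.mul_apply, Fin.sum_univ_two] <;> ring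
          · linear_combination hdet
          · linear_combination htr
          · omega
        · refine conj_step (false, 1) (M' := !![a + b, b; c - a - b + d, d - b]) ?_ (ih _ _ _ _ ?_ ?_ ?_)
          · refine Matrix.ext fun k l => ?_
            fin_cases k <;> fin_cases l <;> simp [s2, Matrix.mul_apply, Fin.sum_univ_two] <;> ring
          · linear_combination hdet
          · linear_combination htr
          · omega
    · by_cases hs : (0 < a - d ∧ 0 < c) ∨ (a - d < 0 ∧ c < 0)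
      · -- `T⁻¹ M T`
        refine conj_step (true, 0) (M' := !![a - c, a - c + b - d; c, c + d]) ?_ (ih _ _ _ _ ?_ ?_ ?_)
        · refine Matrix.ext fun k l => ?_
          fin_cases k <;> fin_cases l <;> simp [s2, Matrix.mul_apply, Fin.sum_univ_two] <;> ring
        · linear_combination hdet
        · linear_combination htr
        · omega
      · refine conj_step (false, 0) (M' := !![a + c, b + d - a - c; c, d - c]) ?_ (ih _ _ _ _ ?_ ?_ ?_)
        · refine Matrix.ext fun k l => ?_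
          fin_cases k <;> fin_cases l <;> simp [s2, Matrix.mul_apply, Fin.sum_univ_two] <;> ring
        · linear_combination hdet
        · linear_combination htr
        · omega

end Pool.Agent.U963.KN
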