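import Pool.Agent.U963.KN.Cl

/-!
# The closures with tail and head at the same place (closed braids), second part
-/

set_option autoImplicit false

namespace Pool.Agent.U963.KN

open Finset LaurentPolynomial Pool.Agent.H891R2.Jones Pool.Agent.W639.RB Pool.Agent.Y463.SK Pool.Agent.Y463.MP
open Pool.Agent.TH561 (dl)
open Pool.Agent.U963.AR (V3 run one stp sz s2)
open Pool.Agent.U963.JN (un fPoly_eq)

theorem sol4 {e : ℤ} {v : V3 ℤ[T;T⁻¹]} (h0 : v.a0 = 1) (h : Eqs (sg e * T (-2 * e)) v) (hS : S3 dB 0 v = sg e * T e) : 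
    (e = 0 ∨ e = 2 ∨ e = -2) ∧ 2 + dB * v.a1 + dB * v.a2 + v.a3 + v.a4 = T e + 2 - dB ^ 2 := by
  obtain ⟨h1, h2, h3, h4, h5, t1, t2, t3, t4⟩ := h
  have hth : S3 dB 0 v = T e := by
    have := congrArg th hS
    rw [th_sg] at this
    rw [← this]
    unfold S3
    simp only [map_add, map_mul, map_pow, map_zero, h0, map_one, t1, t2, t3, t4, th_dB]
    ring
  have hs : sg e = 1 := by
    unfold sg at hS ⊢
    split_ifs at hS ⊢ with he
    · rfl
    · exfalso
      rw [hth] at hS
      have : (2 : ℤ[T;T⁻¹]) * T e = 0 := by linear_combination hS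
      exact (mul_ne_zero two_ne (T_ne e)) this
  rw [hs, one_mul] at h1 h2
  unfold S3 at hth
  rw [h0] at hth
  have hth' := congrArg ba hth
  simp only [map_add, map_mul, map_pow, map_zero, map_one, ba_T, ba_dB] at hth'
  have hu : (T e : ℤ[T;T⁻¹]) * T (-e) = 1 := by rw [T_mul]; simp
  have hD : (T (-2 * e) : ℤ[T;T⁻¹]) = T (-e) ^ 2 := by
    rw [T_pow]
    congr 1
    push_cast
    ring
  rw [hD] at h1 h2
  have hd : dB ^ 2 - 2 = (T 2 + T (-2) : ℤ[T;T⁻¹]) := by
    have := dB_sq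
    linear_combination this
  have q1 : T (-e) ^ 2 * (2 - dB ^ 2 + T (-e)) = 2 - dB ^ 2 + T e := by
    linear_combination h1 + h2 + hth - T (-e) ^ 2 * hth'
  have q2 : (T e - T (-e) : ℤ[T;T⁻¹]) * (T e + T (-e) - (T 2 + T (-2))) = 0 := by
    rw [← hd]
    linear_combination (-T e) * q1 + (T (-e) ^ 2 + (2 - dB ^ 2) * T (-e)) * hu
  refine ⟨?_, by linear_combination hth⟩
  rcases mul_eq_zero.1 q2 with h | h
  · left
    have h6 : (T (e + e) : ℤ[T;T⁻¹]) = 1 := by
      rw [← T_mul]
      linear_combination T e * h + hu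
    have := T_eq_one h6
    omega
  · right
    have h7 := congrArg e2 h
    simp only [map_sub, map_add, e2_T, map_zero] at h7
    rw [zpow_neg] at h7
    have hp : (0 : ℚ) < 2 ^ e := by positivity
    have h8 : (2 : ℚ) ^ e * (2 ^ e)⁻¹ = 1 := mul_inv_cancel₀ hp.ne'
    have h9 : ((2 : ℚ) ^ e = 2 ^ (2 : ℤ)) ∨ ((2 : ℚ) ^ e = 2 ^ (-2 : ℤ)) := by
      generalize (2 : ℚ) ^ e = z at *
      generalize z⁻¹ = z' at *
      norm_num at h7
      have h10 : (z - 4) * (4 * z - 1) = 0 := by linear_combination 4 * z * h7 - 4 * h8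
      rcases mul_eq_zero.1 h10 with h | h
      · left; norm_num; linarith
      · right; norm_num; linarith
    rcases h9 with h9 | h9
    · exact Or.inl (zpow_right_injective₀ (by norm_num) (by norm_num) h9)
    · exact Or.inr (zpow_right_injective₀ (by norm_num) (by norm_num) h9)

theorem trace_X (w : List (Bool × ℕ)) : (mw w).trace = 2 + dB * (X w).a1 + dB * (X w).a2 + (X w).a3 + (X w).a4 := by
  rw [← MM_X, Matrix.trace_fin_two]
  have h0 := X_a0 w
  simp only [MM, Matrix.of_apply, Matrix.cons_val', Matrix.cons_val_zero,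
    Matrix.cons_val_one, Matrix.cons_val_fin_one, Matrix.empty_val', h0]
  ring

theorem S3_trace (w : List (Bool × ℕ)) : S3 dB 0 (X w) = dB ^ 2 - 2 + (mw w).trace := by
  rw [trace_X]
  unfold S3
  rw [X_a0]
  ring

theorem tr_eI (w : List (Bool × ℕ)) : eI (mw w).trace = ((sz w 0 0 + sz w 1 1 : ℤ) : ℂ) := by
  have h := mw_sz w
  have a := congrFun (congrFun h 0) 0
  have d := congrFun (congrFun h 1) 1
  rw [Matrix.map_apply] at a d
  rw [Matrix.trace_fin_two, map_add, a, d]
  push_cast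
  rfl

theorem expo_st : expo (st 0) = 2 ∧ expo (st 1) = -2 ∧ expo (st 2) = 0 := by
  refine ⟨?_, ?_, ?_⟩ <;> rfl

/-- normalised letters -/
def nl (w : List (Bool × ℕ)) : List (Bool × ℕ) := w.map fun x => (x.1, if x.2 = 0 then 0 else 1)

theorem vN_nl {G : Type} [Group G] (a b : G) (w : List (Bool × ℕ)) : vN a b (nl w) = vN a b w := by
  unfold vN nl
  rw [List.map_map]
  congr 1
  apply List.map_congr_left
  intro x _
  unfold vl
  by_cases h : x.2 = 0 <;> simp [h]

theorem nl_lt (w : List (Bool × ℕ)) : ∀ x ∈ nl w, x.2 + 1 < 3 := by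
  intro x hx
  obtain ⟨y, _, rfl⟩ := List.mem_map.1 hx
  show (if y.2 = 0 then 0 else 1) + 1 < 3
  split_ifs <;> omega

theorem tr_two (c c' : ℤ[T;T⁻¹]) : (LL dB c 0 * LL dB c' 1).trace = 2 + dB * c + dB * c' + c * c' := by
  show (!![1 + c * dB, c; 0, 1] * !![1, 0; c', 1 + c' * dB] : Matrix (Fin 2) (Fin 2) ℤ[T;T⁻¹]).trace = _
  rw [Matrix.mul_fin_two, Matrix.trace_fin_two_of]
  ring

theorem mw_two (x y : Bool × ℕ) : mw [x, y] = LL dB (lc x) x.2 * LL dB (lc y) y.2 := by simp [mw]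

theorem S3_st (i : Fin 3) : S3 dB 0 (X (st i)) = sg (expo (st i)) * T (expo (st i)) := by
  have h1 : (T 1 : ℤ[T;T⁻¹]) * T (-1) = 1 := by rw [← T_add]; simp
  have h2 : (T 2 : ℤ[T;T⁻¹]) = T 1 ^ 2 := by rw [T_pow]; norm_num
  have h3 : (T (-2) : ℤ[T;T⁻¹]) = T (-1) ^ 2 := by rw [T_pow]; norm_num
  have hd : dB = - T 1 - T (-1) := rfl
  obtain ⟨e0, e1, e2⟩ := expo_st
  rw [S3_trace]
  fin_cases i
  · show dB ^ 2 - 2 + (mw [(true, 0), (true, 1)]).trace = sg (expo (st 0)) * T (expo (st 0))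
    rw [e0, mw_two]
    have : sg 2 = 1 := by unfold sg; rw [if_pos (by decide)]
    rw [this, h2]
    show dB ^ 2 - 2 + (LL dB (T (-1)) 0 * LL dB (T (-1)) 1).trace = _
    rw [tr_two, hd]
    ring
  · show dB ^ 2 - 2 + (mw [(false, 0), (false, 1)]).trace = sg (expo (st 1)) * T (expo (st 1))
    rw [e1, mw_two]
    have : sg (-2) = 1 := by unfold sg; rw [if_pos (by decide)]
    rw [this, h3]
    show dB ^ 2 - 2 + (LL dB (T 1) 0 * LL dB (T 1) 1).trace = _
    rw [tr_two, hd]
    ring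
  · show dB ^ 2 - 2 + (mw [(true, 0), (false, 1)]).trace = sg (expo (st 2)) * T (expo (st 2))
    rw [e2, mw_two]
    have : sg 0 = 1 := by unfold sg; rw [if_pos (by decide)]
    rw [this, T_zero]
    show dB ^ 2 - 2 + (LL dB (T (-1)) 0 * LL dB (T 1) 1).trace = _
    rw [tr_two, hd]
    linear_combination h1

theorem iff4 {w : List (Bool × ℕ)} (hw : ∀ x ∈ w, x.2 + 1 < 3) : 
    S3 dB 0 (X w) = sg (expo w) * T (expo w) ↔ ∃ (i : Fin 3) (g : List (Bool × ℕ)), (∀ x ∈ g, x.2 + 1 < 3) ∧ 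
      Same (w ++ g) (g ++ st i) := by
  constructor
  · intro hS
    have hE := X_eqs w
    rw [De_eq] at hE
    obtain ⟨h1, h2⟩ := sol4 (X_a0 w) hE hS
    have h3 := tr_eI w
    rw [trace_X, h2, map_sub, map_add, map_pow, eI_T, eI_dB, map_ofNat] at h3
    have h4 : (sz w 0 0 + sz w 1 1 = 3 ∧ expo w = 0) ∨ (sz w 0 0 + sz w 1 1 = 1 ∧ (expo w = 2 ∨ expo w = -2)) := by
      rcases h1 with h | h | h
      · left
        refine ⟨?_, h⟩
        rw [h] at h3
        norm_num at h3
        exact_mod_cast h3.symm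
      · right
        refine ⟨?_, Or.inl h⟩
        have hI : Complex.I ^ (2 : ℤ) = -1 := by rw [zpow_ofNat, Complex.I_sq]
        rw [h, hI] at h3
        norm_num at h3
        exact_mod_cast h3.symm
      · right
        refine ⟨?_, Or.inr h⟩
        have hI : Complex.I ^ (-2 : ℤ) = -1 := by rw [zpow_neg, zpow_ofNat, Complex.I_sq]; norm_num
        rw [h, hI] at h3
        norm_num at h3
        exact_mod_cast h3.symm
    have h5 := sz_det w
    rw [Matrix.det_fin_two] at h5
    have h6 : sz w 0 0 + sz w 1 1 = 3 ∨ sz w 0 0 + sz w 1 1 = 1 := by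
      rcases h4 with h | h
      · exact Or.inl h.1
      · exact Or.inr h.1
    obtain ⟨g, i, hi, hg⟩ := conj_exists h6 _ (sz w 0 0) (sz w 0 1) (sz w 1 0) (sz w 1 1) h5 rfl le_rfl
    rw [← Matrix.eta_fin_two (sz w)] at hg
    have h7 : sz (w ++ g) = sz (g ++ st i) := by
      rw [AR.sz_append, AR.sz_append, hg]
    have h8 : expo w = expo (st i) := by
      obtain ⟨k, hk⟩ := expo_sz h7
      rw [expo_append, expo_append] at hk
      obtain ⟨e0, e1, e2⟩ := expo_st
      have h9 : expo (st i) = 2 ∨ expo (st i) = -2 ∨ (expo (st i) = 0 ∧ i = 2) := by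
        fin_cases i
        · exact Or.inl e0
        · exact Or.inr (Or.inl e1)
        · exact Or.inr (Or.inr ⟨e2, rfl⟩)
      have h10 : i = 2 → expo (st i) = 0 := by
        rintro rfl
        exact e2
      rcases h4 with ⟨h, h'⟩ | ⟨h, h'⟩
      · rw [h', h10 (hi.1 h)]
      · have h11 : ¬ i = 2 := fun h12 => by
          have := hi.2 h12
          omega
        rcases h9 with h9 | h9 | h9
        · omega
        · omega
        · exact absurd h9.2 h11
    have h12 := same_sz h7 (by rw [expo_append, expo_append, h8]; ring)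
    refine ⟨i, nl g, nl_lt g, ?_⟩
    intro G _ a b hab
    have := h12 G a b hab
    rw [vN_append, vN_append] at this ⊢
    rw [vN_nl]
    exact this
  · rintro ⟨i, g, hg, h⟩
    have he : expo w = expo (st i) := by
      have := h.expo
      rw [expo_append, expo_append] at this
      linarith
    have hst : ∀ x ∈ st i, x.2 + 1 < 3 := by
      fin_cases i <;> simp [st]
    have ht : (mw w).trace = (mw (st i)).trace := by
      have h1 := h _ _ _ uL_braid
      rw [vN_append, vN_append] at h1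
      have h2 : vN (uL 0) (uL 1) w = vN (uL 0) (uL 1) g * vN (uL 0) (uL 1) (st i) * (vN (uL 0) (uL 1) g)⁻¹ := by
        rw [← h1, mul_inv_cancel_right]
      rw [← coe_uL w hw, ← coe_uL (st i) hst, h2]
      rw [Units.val_mul, Units.val_mul]
      exact Matrix.trace_units_conj _ _
    rw [S3_trace, ht, ← S3_trace, he, S3_st]

end Pool.Agent.U963.KN
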