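import Pool.Agent.U963.KN.Cl2

/-!
# The closures with tail and head at the same place (closed braids), third part
-/

set_option autoImplicit false

namespace Pool.Agent.U963.KN

open Finset LaurentPolynomial Pool.Agent.H891R2.Jones Pool.Agent.W639.RB Pool.Agent.Y463.SK Pool.Agent.Y463.MP
open Pool.Agent.TH561 (dl)
open Pool.Agent.U963.AR (V3 run one stp sz s2)
open Pool.Agent.U963.JN (un fPoly_eq)

theorem up00 {N : ℕ} (a b c d : Fin N) : ![a, b, c, d] ∘ (openClosure 0 0).upper = ![d, b, c] := by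
  funext j
  fin_cases j <;> rfl

theorem v00 : PhiS (by omega) (openClosure 0 0) 1 = dl ^ 2 ∧ PhiS (by omega) (openClosure 0 0) (EZ 3 0) = dl ∧
    PhiS (by omega) (openClosure 0 0) (EZ 3 1) = dl ∧ PhiS (by omega) (openClosure 0 0) (EZ 3 0 * EZ 3 1) = 1 ∧
    PhiS (by omega) (openClosure 0 0) (EZ 3 1 * EZ 3 0) = 1 := by
  refine ⟨PhiS_at _ _ _ fun N hN => ?_, PhiS_at _ _ _ fun N hN => ?_, PhiS_at _ _ _ fun N hN => ?_, 
    PhiS_at _ _ _ fun N hN => ?_, PhiS_at _ _ _ fun N hN => ?_⟩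
  all_goals
    rw [Zg_open]
    simp only [lower_eq, up00, B1, B0, B2, B3, B4, ee0, ee1, ind3, map_one, map_pow, ev_dl', mul_one]
    simp [Finset.sum_ite_eq, Finset.sum_ite_eq']
    try exact Or.inl (by ring)

theorem b00 (w : List (Bool × ℕ)) (hw : ∀ x ∈ w, x.2 + 1 < 3) : 
    (draw (openClosure 0 0) w).close.bracket = S3 dl (io 0) (run (T 1) (T (-1)) dl w (one ℤ[T;T⁻¹])) := by
  obtain ⟨h0, h1, h2, h3, h4⟩ := v00
  rw [bracket_run _ w hw, PhiS_val _ _ h0 h1 h2 h3 h4, S3, map_zero]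
  ring

theorem up11 {N : ℕ} (a b c d : Fin N) : ![a, b, c, d] ∘ (openClosure 1 1).upper = ![a, d, c] := by
  funext j
  fin_cases j <;> rfl

theorem v11 : PhiS (by omega) (openClosure 1 1) 1 = dl ^ 2 ∧ PhiS (by omega) (openClosure 1 1) (EZ 3 0) = dl ∧
    PhiS (by omega) (openClosure 1 1) (EZ 3 1) = dl ∧ PhiS (by omega) (openClosure 1 1) (EZ 3 0 * EZ 3 1) = 1 ∧
    PhiS (by omega) (openClosure 1 1) (EZ 3 1 * EZ 3 0) = 1 := by
  refine ⟨PhiS_at _ _ _ fun N hN => ?_, PhiS_at _ _ _ fun N hN => ?_, PhiS_at _ _ _ fun N hN => ?_, 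
    PhiS_at _ _ _ fun N hN => ?_, PhiS_at _ _ _ fun N hN => ?_⟩
  all_goals
    rw [Zg_open]
    simp only [lower_eq, up11, B1, B0, B2, B3, B4, ee0, ee1, ind3, map_one, map_pow, ev_dl', mul_one]
    simp [Finset.sum_ite_eq, Finset.sum_ite_eq']
    try exact Or.inl (by ring)

theorem b11 (w : List (Bool × ℕ)) (hw : ∀ x ∈ w, x.2 + 1 < 3) : 
    (draw (openClosure 1 1) w).close.bracket = S3 dl (io 0) (run (T 1) (T (-1)) dl w (one ℤ[T;T⁻¹])) := by
  obtain ⟨h0, h1, h2, h3, h4⟩ := v11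
  rw [bracket_run _ w hw, PhiS_val _ _ h0 h1 h2 h3 h4, S3, map_zero]
  ring

theorem up22 {N : ℕ} (a b c d : Fin N) : ![a, b, c, d] ∘ (openClosure 2 2).upper = ![a, b, d] := by
  funext j
  fin_cases j <;> rfl

theorem v22 : PhiS (by omega) (openClosure 2 2) 1 = dl ^ 2 ∧ PhiS (by omega) (openClosure 2 2) (EZ 3 0) = dl ∧
    PhiS (by omega) (openClosure 2 2) (EZ 3 1) = dl ∧ PhiS (by omega) (openClosure 2 2) (EZ 3 0 * EZ 3 1) = 1 ∧
    PhiS (by omega) (openClosure 2 2) (EZ 3 1 * EZ 3 0) = 1 := by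
  refine ⟨PhiS_at _ _ _ fun N hN => ?_, PhiS_at _ _ _ fun N hN => ?_, PhiS_at _ _ _ fun N hN => ?_, 
    PhiS_at _ _ _ fun N hN => ?_, PhiS_at _ _ _ fun N hN => ?_⟩
  all_goals
    rw [Zg_open]
    simp only [lower_eq, up22, B1, B0, B2, B3, B4, ee0, ee1, ind3, map_one, map_pow, ev_dl', mul_one]
    simp [Finset.sum_ite_eq, Finset.sum_ite_eq']
    try exact Or.inl (by ring)

theorem b22 (w : List (Bool × ℕ)) (hw : ∀ x ∈ w, x.2 + 1 < 3) : 
    (draw (openClosure 2 2) w).close.bracket = S3 dl (io 0) (run (T 1) (T (-1)) dl w (one ℤ[T;T⁻¹])) := by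
  obtain ⟨h0, h1, h2, h3, h4⟩ := v22
  rw [bracket_run _ w hw, PhiS_val _ _ h0 h1 h2 h3 h4, S3, map_zero]
  ring

theorem bpp (p : Fin 3) (w : List (Bool × ℕ)) (hw : ∀ x ∈ w, x.2 + 1 < 3) : 
    (draw (openClosure p p) w).close.bracket = S3 dl (io 0) (run (T 1) (T (-1)) dl w (one ℤ[T;T⁻¹])) := by
  fin_cases p
  · exact b00 w hw
  · exact b11 w hw
  · exact b22 w hw

theorem fpp (p : Fin 3) (w : List (Bool × ℕ)) (hw : ∀ x ∈ w, x.2 + 1 < 3) : 
    (draw (openClosure p p) w).close.fPoly = 1 ↔ ∃ (i : Fin 3) (g : List (Bool × ℕ)), (∀ x ∈ g, x.2 + 1 < 3) ∧ 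
      Same (w ++ g) (g ++ st i) := by
  rw [fPoly_eq, writhe_open p p w hw, bpp p w hw, run_X, S3_sc, S3_io, f_one_iff, iff4 hw]

/-- the three standard words for the closed braids -/
def stL : Fin 3 → List (Letter 3) := ![[(true, 0), (true, 1)], [(false, 0), (false, 1)], [(true, 0), (false, 1)]]

theorem stL_eq (i : Fin 3) : (stL i).map (fun x => (x.1, (x.2 : ℕ))) = st i := by
  fin_cases i <;> rfl

theorem exists_lift (g : List (Bool × ℕ)) (hg : ∀ x ∈ g, x.2 + 1 < 3) : 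
    ∃ g' : List (Letter 3), g'.map (fun x => (x.1, (x.2 : ℕ))) = g := by
  induction g with
  | nil => exact ⟨[], rfl⟩
  | cons x g ih =>
    obtain ⟨g', h⟩ := ih (fun y hy => hg y (List.mem_cons_of_mem _ hy))
    have hx := hg x List.mem_cons_self
    refine ⟨(x.1, ⟨x.2, by omega⟩) :: g', ?_⟩
    rw [List.map_cons, h]

theorem DP (p : Fin 3) (w : List (Letter 3)) : (dia (openClosure p p) w).fPoly = 1 ↔ 
    ∃ (i : Fin 3) (g : List (Letter 3)), SameBraid (w ++ g) (g ++ stL i) := by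
  unfold dia
  rw [fpp p _ (toN_lt w)]
  constructor
  · rintro ⟨i, g, hg, h⟩
    obtain ⟨g', rfl⟩ := exists_lift g hg
    refine ⟨i, g', ?_⟩
    intro G _ a b hab
    have := h G a b hab
    rw [← List.map_append, ← stL_eq, ← List.map_append, ← value_eq, ← value_eq] at this
    exact this
  · rintro ⟨i, g, h⟩
    refine ⟨i, g.map (fun x => (x.1, (x.2 : ℕ))), toN_lt g, ?_⟩
    intro G _ a b hab
    rw [← List.map_append, ← stL_eq, ← List.map_append, ← value_eq, ← value_eq]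
    exact h G a b hab

end Pool.Agent.U963.KN
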