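import Pool.Agent.U963.KN.Fin
import Pool.Agent.H297.FT.Knotoid

/-!
# The converse and the normalised bracket
-/

set_option autoImplicit false

namespace Pool.Agent.U963.KN

open Finset LaurentPolynomial Pool.Agent.H891R2.Jones Pool.Agent.W639.RB Pool.Agent.Y463.SK Pool.Agent.Y463.MP
open Pool.Agent.TH561 (dl)
open Pool.Agent.U963.AR (V3 run one stp sz s2)
open Pool.Agent.U963.JN (un fPoly_eq)

/-! ### equal braids have equal coefficients -/

theorem eq_fin_two {R : Type*} {p q r s p' q' r' s' : R} (h1 : p = p') (h2 : q = q') (h3 : r = r') (h4 : s = s') : 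
    !![p, q; r, s] = !![p', q'; r', s'] := by
  rw [h1, h2, h3, h4]

theorem LL_mul (c c' d : ℤ[T;T⁻¹]) (i : ℕ) : LL d c i * LL d c' i = LL d (c + c' + d * c * c') i := by
  rcases i with _ | i
  · show !![1 + c * d, c; 0, 1] * !![1 + c' * d, c'; 0, 1] = _
    rw [Matrix.mul_fin_two]
    exact eq_fin_two (by ring) (by ring) (by ring) (by ring)
  · show !![1, 0; c, 1 + c * d] * !![1, 0; c', 1 + c' * d] = _
    rw [Matrix.mul_fin_two]
    exact eq_fin_two (by ring) (by ring) (by ring) (by ring)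

theorem LL_zero (d : ℤ[T;T⁻¹]) (i : ℕ) : LL d 0 i = 1 := by
  rw [Matrix.one_fin_two]
  rcases i with _ | i
  · exact eq_fin_two (by ring) rfl rfl rfl
  · exact eq_fin_two rfl rfl rfl (by ring)

theorem LL_inv (i : ℕ) : LL dB (T (-1)) i * LL dB (T 1) i = (1 : Matrix (Fin 2) (Fin 2) ℤ[T;T⁻¹]) ∧ 
    LL dB (T 1) i * LL dB (T (-1)) i = (1 : Matrix (Fin 2) (Fin 2) ℤ[T;T⁻¹]) := by
  have h1 : (T 1 : ℤ[T;T⁻¹]) * T (-1) = 1 := by rw [← T_add]; simp
  have hd : dB = - T 1 - T (-1) := rfl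
  constructor
  · rw [LL_mul]
    have : (T (-1) + T 1 + dB * T (-1) * T 1 : ℤ[T;T⁻¹]) = 0 := by
      rw [hd]
      linear_combination (- T 1 - T (-1)) * h1
    rw [this, LL_zero]
  · rw [LL_mul]
    have : (T 1 + T (-1) + dB * T 1 * T (-1) : ℤ[T;T⁻¹]) = 0 := by
      rw [hd]
      linear_combination (- T 1 - T (-1)) * h1
    rw [this, LL_zero]

/-- the unit of a generator -/
noncomputable def uL (i : ℕ) : (Matrix (Fin 2) (Fin 2) ℤ[T;T⁻¹])ˣ := 
  ⟨LL dB (T (-1)) i, LL dB (T 1) i, (LL_inv i).1, (LL_inv i).2⟩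

theorem uL_braid : uL 0 * uL 1 * uL 0 = uL 1 * uL 0 * uL 1 := by
  have h1 : (T 1 : ℤ[T;T⁻¹]) * T (-1) = 1 := by rw [← T_add]; simp
  have hd : dB = - T 1 - T (-1) := rfl
  apply Units.ext
  show LL dB (T (-1)) 0 * LL dB (T (-1)) 1 * LL dB (T (-1)) 0 = LL dB (T (-1)) 1 * LL dB (T (-1)) 0 * LL dB (T (-1)) 1
  have e : (1 + T (-1) * dB + T (-1) ^ 2 : ℤ[T;T⁻¹]) = 0 := by
    rw [hd]
    linear_combination - h1
  show !![1 + T (-1) * dB, T (-1); 0, 1] * !![1, 0; T (-1), 1 + T (-1) * dB] * !![1 + T (-1) * dB, T (-1); 0, 1] = 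
    !![1, 0; T (-1), 1 + T (-1) * dB] * !![1 + T (-1) * dB, T (-1); 0, 1] * !![1, 0; T (-1), 1 + T (-1) * dB]
  generalize (T (-1) : ℤ[T;T⁻¹]) = c at e
  generalize dB = d at e
  rw [Matrix.mul_fin_two, Matrix.mul_fin_two, Matrix.mul_fin_two, Matrix.mul_fin_two]
  refine eq_fin_two ?_ ?_ ?_ ?_
  · linear_combination (c * d) * e
  · linear_combination c * e
  · linear_combination (-c) * e
  · linear_combination (-c * d) * e

theorem coe_uL (w : List (Bool × ℕ)) (hw : ∀ x ∈ w, x.2 + 1 < 3) : 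
    ((vN (uL 0) (uL 1) w : (Matrix (Fin 2) (Fin 2) ℤ[T;T⁻¹])ˣ) : Matrix (Fin 2) (Fin 2) ℤ[T;T⁻¹]) = mw w := by
  induction w with
  | nil => rfl
  | cons x w ih =>
    have e : vN (uL 0) (uL 1) (x :: w) = vl (uL 0) (uL 1) x * vN (uL 0) (uL 1) w := by simp [vN]
    have e2 : mw (x :: w) = LL dB (lc x) x.2 * mw w := by simp [mw]
    rw [e, e2, Units.val_mul, ih (fun y hy => hw y (List.mem_cons_of_mem _ hy))]
    congr 1
    have hx := hw x List.mem_cons_self
    obtain ⟨s, i⟩ := x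
    have hi : i = 0 ∨ i = 1 := by
      simp only at hx
      omega
    rcases hi with rfl | rfl <;> cases s <;> rfl

theorem X_ext {w w' : List (Bool × ℕ)} (h : mw w = mw w') : X w = X w' := by
  rw [← MM_X, ← MM_X] at h
  have a0 := X_a0 w
  have a0' := X_a0 w'
  generalize X w = v at *
  generalize X w' = v' at *
  have a := congrFun (congrFun h 0) 0
  have b := congrFun (congrFun h 0) 1
  have c := congrFun (congrFun h 1) 0
  have d := congrFun (congrFun h 1) 1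
  simp only [MM, Matrix.of_apply, Matrix.cons_val', Matrix.cons_val_zero,
    Matrix.cons_val_one, Matrix.cons_val_fin_one, Matrix.empty_val', a0, a0'] at a b c d
  have h3 : v.a3 = v'.a3 := by
    apply mul_left_cancel₀ dB_sq_ne
    linear_combination dB * b - a
  have h4 : v.a4 = v'.a4 := by
    apply mul_left_cancel₀ dB_sq_ne
    linear_combination dB * c - d
  have h1 : v.a1 = v'.a1 := by linear_combination b - dB * h3
  have h2 : v.a2 = v'.a2 := by linear_combination c - dB * h4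
  have e := mk_eq (v := v) a0 h1 h2 h3 h4
  rw [e, ← mk_eq (v := v') a0' rfl rfl rfl rfl]

theorem Same.X {w w' : List (Bool × ℕ)} (h : Same w w') (hw : ∀ x ∈ w, x.2 + 1 < 3) (hw' : ∀ x ∈ w', x.2 + 1 < 3) : 
    KN.X w = KN.X w' := by
  apply X_ext
  rw [← coe_uL w hw, ← coe_uL w' hw', h _ _ _ uL_braid]

theorem Same.expo {w w' : List (Bool × ℕ)} (h : Same w w') : expo w = expo w' := by
  have := h _ (Multiplicative.ofAdd (1 : ℤ)) (Multiplicative.ofAdd (1 : ℤ)) rfl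
  rw [vN_expo, vN_expo] at this
  exact Multiplicative.ofAdd.injective this

theorem pw_lt {i : ℕ} (hi : i + 1 < 3) (k : ℤ) : ∀ x ∈ pw i k, x.2 + 1 < 3 := by
  intro x hx
  unfold pw at hx
  rw [List.eq_of_mem_replicate hx]
  exact hi

theorem t1_lt (k : ℤ) : ∀ x ∈ t1 k, x.2 + 1 < 3 := by
  intro x hx
  rcases List.mem_append.1 hx with hx | hx
  · exact pw_lt (by norm_num) _ x hx
  · exact pw_lt (by norm_num) _ x hx

theorem t2_lt (s : Bool) (k : ℤ) : ∀ x ∈ t2 s k, x.2 + 1 < 3 := by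
  intro x hx
  rcases List.mem_append.1 hx with hx | hx
  · rcases List.mem_append.1 hx with hx | hx
    · exact pw_lt (by norm_num) _ x hx
    · rw [List.mem_singleton.1 hx]
      norm_num
  · exact pw_lt (by norm_num) _ x hx

theorem iff1 {w : List (Bool × ℕ)} (hw : ∀ x ∈ w, x.2 + 1 < 3) : 
    S1 dB (X w) = sg (expo w) * T (expo w) ↔ ∃ k : ℤ, Same w (t1 k) := by
  refine ⟨main1, ?_⟩
  rintro ⟨k, h⟩
  rw [h.X hw (t1_lt k), h.expo]
  exact S1_t1 k

theorem iff2 {w : List (Bool × ℕ)} (hw : ∀ x ∈ w, x.2 + 1 < 3) : 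
    S2 dB (X w) = sg (expo w) * T (expo w) ↔ ∃ (s : Bool) (k : ℤ), Same w (t2 s k) := by
  refine ⟨main2, ?_⟩
  rintro ⟨s, k, h⟩
  rw [h.X hw (t2_lt s k), h.expo]
  exact S2_t2 s k

/-! ### the normalised bracket -/

theorem run_X (w : List (Bool × ℕ)) : run (T 1) (T (-1)) dl w (one ℤ[T;T⁻¹]) = sc (T (expo w)) ((X w).map io) := by
  have h := run_nrun w (one _) 0
  have e : sc (T 0) ((one ℤ[T;T⁻¹]).map io) = one ℤ[T;T⁻¹] := by
    simp [sc, one, V3.map]
  rw [e, zero_add] at h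
  exact h

theorem f_one_iff (e : ℤ) (S : ℤ[T;T⁻¹]) : un e * (T e * io S) = 1 ↔ S = sg e * T e := by
  have h1 : un e * (T e * io S) = io (sg e * T (-e) * S) := by
    rw [map_mul, map_mul, io_T]
    unfold un sg
    have e1 : (T (-3 * e) : ℤ[T;T⁻¹]) * T e = T (2 * -e) := by
      rw [T_mul]
      congr 1
      ring
    split_ifs
    · rw [map_one]
      linear_combination (io S) * e1
    · rw [map_neg, map_one]
      linear_combination (- io S) * e1
  rw [h1]
  have h2 : sg e * sg e = 1 := by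
    unfold sg
    split_ifs <;> ring
  have h3 : (T (-e) : ℤ[T;T⁻¹]) * T e = 1 := by rw [T_mul]; simp
  constructor
  · intro h
    have h4 : sg e * T (-e) * S = 1 := io_inj (by rw [h, map_one])
    linear_combination sg e * T e * h4 - (S * T (-e) * T e) * h2 - S * h3
  · intro h
    rw [h]
    have h4 : sg e * T (-e) * (sg e * T e) = 1 := by
      linear_combination (T (-e) * T e) * h2 + h3
    rw [h4, map_one]

theorem S1_sc (r d : ℤ[T;T⁻¹]) (v : V3 ℤ[T;T⁻¹]) : S1 d (sc r v) = r * S1 d v := by unfold S1 sc; ring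
theorem S2_sc (r d : ℤ[T;T⁻¹]) (v : V3 ℤ[T;T⁻¹]) : S2 d (sc r v) = r * S2 d v := by unfold S2 sc; ring
theorem S1_io (v : V3 ℤ[T;T⁻¹]) : S1 dl (v.map io) = io (S1 dB v) := by
  unfold S1 V3.map
  simp only [map_add, map_mul, io_dB]
theorem S2_io (v : V3 ℤ[T;T⁻¹]) : S2 dl (v.map io) = io (S2 dB v) := by
  unfold S2 V3.map
  simp only [map_add, map_mul, io_dB]

/-! ### exchange of the generators -/

/-- exchange of the generators -/
def swp (w : List (Bool × ℕ)) : List (Bool × ℕ) := w.map fun x => (x.1, 1 - x.2)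

theorem sw_stp (u u' d : ℤ[T;T⁻¹]) (v : V3 ℤ[T;T⁻¹]) {i : ℕ} (hi : i + 1 < 3) : 
    V3.sw (stp u u' d v i) = stp u u' d (V3.sw v) (1 - i) := by
  have : i = 0 ∨ i = 1 := by omega
  rcases this with rfl | rfl <;> rfl

theorem sw_run (u u' d : ℤ[T;T⁻¹]) (w : List (Bool × ℕ)) : ∀ v : V3 ℤ[T;T⁻¹], (∀ x ∈ w, x.2 + 1 < 3) → 
    V3.sw (run u u' d w v) = run u u' d (swp w) (V3.sw v) := by
  induction w with
  | nil => intro v _; rfl
  | cons x w ih =>
    intro v hw
    have e : swp (x :: w) = (x.1, 1 - x.2) :: swp w := rfl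
    rw [run, ih _ (fun y hy => hw y (List.mem_cons_of_mem _ hy)), e, run]
    congr 1
    have hx := hw x List.mem_cons_self
    split_ifs
    · exact sw_stp _ _ _ _ hx
    · exact sw_stp _ _ _ _ hx

theorem swp_lt (w : List (Bool × ℕ)) : ∀ x ∈ swp w, x.2 + 1 < 3 := by
  intro x hx
  obtain ⟨y, _, rfl⟩ := List.mem_map.1 hx
  show 1 - y.2 + 1 < 3
  omega

theorem expo_swp (w : List (Bool × ℕ)) : expo (swp w) = expo w := by
  unfold expo swp
  rw [List.map_map]
  rfl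

theorem vN_swp {G : Type} [Group G] (a b : G) (w : List (Bool × ℕ)) (hw : ∀ x ∈ w, x.2 + 1 < 3) : 
    vN a b (swp w) = vN b a w := by
  unfold vN swp
  rw [List.map_map]
  congr 1
  apply List.map_congr_left
  intro x hx
  have h := hw x hx
  obtain ⟨s, i⟩ := x
  have hi : i = 0 ∨ i = 1 := by
    simp only at h
    omega
  rcases hi with rfl | rfl <;> simp [vl]

theorem swp_swp (w : List (Bool × ℕ)) (hw : ∀ x ∈ w, x.2 + 1 < 3) : swp (swp w) = w := by
  unfold swp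
  rw [List.map_map]
  conv_rhs => rw [← List.map_id w]
  apply List.map_congr_left
  intro x hx
  have h := hw x hx
  obtain ⟨s, i⟩ := x
  simp only [Function.comp_apply, id, Prod.mk.injEq, true_and] at h ⊢
  omega

theorem Same.swp {w w' : List (Bool × ℕ)} (h : Same w w') (hw : ∀ x ∈ w, x.2 + 1 < 3) (hw' : ∀ x ∈ w', x.2 + 1 < 3) : 
    Same (swp w) (swp w') := by
  intro G _ a b hab
  rw [vN_swp a b w hw, vN_swp a b w' hw']
  exact h G b a hab.symm

/-! ### the open closures -/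

theorem f02 (w : List (Bool × ℕ)) (hw : ∀ x ∈ w, x.2 + 1 < 3) : 
    (draw (openClosure 0 2) w).close.fPoly = 1 ↔ ∃ k : ℤ, Same w (t1 k) := by
  rw [fPoly_eq, writhe_open 0 2 w hw, b02 w hw, run_X, S1_sc, S1_io, f_one_iff, iff1 hw]

theorem f01 (w : List (Bool × ℕ)) (hw : ∀ x ∈ w, x.2 + 1 < 3) : 
    (draw (openClosure 0 1) w).close.fPoly = 1 ↔ ∃ (s : Bool) (k : ℤ), Same w (t2 s k) := by
  rw [fPoly_eq, writhe_open 0 1 w hw, b01 w hw, run_X, S2_sc, S2_io, f_one_iff, iff2 hw]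

theorem f10 (w : List (Bool × ℕ)) (hw : ∀ x ∈ w, x.2 + 1 < 3) : 
    (draw (openClosure 1 0) w).close.fPoly = 1 ↔ ∃ (s : Bool) (k : ℤ), Same w (t2 s k) := by
  rw [fPoly_eq, writhe_open 1 0 w hw, b10 w hw, run_X, S2_sc, S2_io, f_one_iff, iff2 hw]

theorem sw_one : V3.sw (one ℤ[T;T⁻¹]) = one ℤ[T;T⁻¹] := rfl

theorem f20 (w : List (Bool × ℕ)) (hw : ∀ x ∈ w, x.2 + 1 < 3) : 
    (draw (openClosure 2 0) w).close.fPoly = 1 ↔ ∃ k : ℤ, Same w (swp (t1 k)) := by
  rw [fPoly_eq, writhe_open 2 0 w hw, b20 w hw, sw_run _ _ _ w _ hw, sw_one, run_X, S1_sc, S1_io, expo_swp, f_one_iff, 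
    ← expo_swp w, iff1 (swp_lt w)]
  refine exists_congr fun k => ⟨fun h => ?_, fun h => ?_⟩
  · have := h.swp (swp_lt w) (t1_lt k)
    rwa [swp_swp w hw] at this
  · have := h.swp hw (swp_lt _)
    rwa [swp_swp _ (t1_lt k)] at this

theorem f12 (w : List (Bool × ℕ)) (hw : ∀ x ∈ w, x.2 + 1 < 3) : 
    (draw (openClosure 1 2) w).close.fPoly = 1 ↔ ∃ (s : Bool) (k : ℤ), Same w (swp (t2 s k)) := by
  rw [fPoly_eq, writhe_open 1 2 w hw, b12 w hw, sw_run _ _ _ w _ hw, sw_one, run_X, S2_sc, S2_io, expo_swp, f_one_iff, 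
    ← expo_swp w, iff2 (swp_lt w)]
  refine exists_congr fun s => exists_congr fun k => ⟨fun h => ?_, fun h => ?_⟩
  · have := h.swp (swp_lt w) (t2_lt s k)
    rwa [swp_swp w hw] at this
  · have := h.swp hw (swp_lt _)
    rwa [swp_swp _ (t2_lt s k)] at this

theorem f21 (w : List (Bool × ℕ)) (hw : ∀ x ∈ w, x.2 + 1 < 3) : 
    (draw (openClosure 2 1) w).close.fPoly = 1 ↔ ∃ (s : Bool) (k : ℤ), Same w (swp (t2 s k)) := by
  rw [fPoly_eq, writhe_open 2 1 w hw, b21 w hw, sw_run _ _ _ w _ hw, sw_one, run_X, S2_sc, S2_io, expo_swp, f_one_iff, 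
    ← expo_swp w, iff2 (swp_lt w)]
  refine exists_congr fun s => exists_congr fun k => ⟨fun h => ?_, fun h => ?_⟩
  · have := h.swp (swp_lt w) (t2_lt s k)
    rwa [swp_swp w hw] at this
  · have := h.swp hw (swp_lt _)
    rwa [swp_swp _ (t2_lt s k)] at this

end Pool.Agent.U963.KN
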