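import Pool.Agent.Y463.SK.Defs

/-!
# Open closures of braids on three strands
-/

set_option autoImplicit false

namespace Pool.Agent.U963.KN

open Pool.Agent.H891R2.Jones Pool.Agent.W639.RB

/-- The outside of the box of a 3-braid for the open closure of type `(p, q)`: the lower end number `p` of the
box is the tail, the upper end number `q` is the head of a knotoid diagram, and the two other upper ends are
joined to the two other lower ends by arcs which run around the box without crossings, the left one to the
left one and the right one to the right one.  The four marked points are the lower ends `0, 1, 2` and the
head `3`. -/
def openClosure (p q : Fin 3) : Outer 3 where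
  P := Fin 4
  arcs := []
  crossings := []
  lower := Fin.castSucc
  upper := q.insertNth (Fin.last 3) (fun i : Fin 2 => (p.succAbove i).castSucc)
  up := fun _ => true

/-- the value of a braid word `w` on three strands in a group, if `σ_1` is replaced by `a` and `σ_2` by `b`
(the letters `(s, 0)` are `σ_1^{±1}` and the letters `(s, 1)` are `σ_2^{±1}`) -/
def value {G : Type} [Group G] (a b : G) (w : List (Letter 3)) : G :=
  (w.map fun x => if (x.2 : ℕ) = 0 then (if x.1 then a else a⁻¹) else (if x.1 then b else b⁻¹)).prod

/-- two words represent the same element of the braid group on three strands: they have the same value in
every group with two elements `a`, `b` which satisfy `a b a = b a b` -/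
def SameBraid (w w' : List (Letter 3)) : Prop :=
  ∀ (G : Type) [Group G] (a b : G), a * b * a = b * a * b → value a b w = value a b w'

end Pool.Agent.U963.KN
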