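import Pool.Agent.U963.KN.Mat

/-!
# The equations for the coefficients of a braid
-/

set_option autoImplicit false

namespace Pool.Agent.U963.KN

open Finset LaurentPolynomial Pool.Agent.H891R2.Jones Pool.Agent.W639.RB Pool.Agent.Y463.SK Pool.Agent.Y463.MP
open Pool.Agent.U963.AR (V3 run one stp)

theorem dB_sq : dB ^ 2 - 1 = (T 2 + 1 + T (-2) : ℤ[T;T⁻¹]) := by
  unfold dB
  have h : (T 1 : ℤ[T;T⁻¹]) * T (-1) = 1 := by rw [← T_add]; simp
  have h2 : (T 2 : ℤ[T;T⁻¹]) = T 1 ^ 2 := by rw [T_pow]; norm_num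
  have h3 : (T (-2) : ℤ[T;T⁻¹]) = T (-1) ^ 2 := by rw [T_pow]; norm_num
  rw [h2, h3]
  linear_combination 2 * h

/-- `B = 1` -/
noncomputable def e1 : ℤ[T;T⁻¹] →+* ℤ := evu 1

theorem e1_T (n : ℤ) : e1 (T n) = 1 := by
  unfold e1
  rw [evu_T, one_zpow]
  rfl

theorem dB_ne : dB ≠ 0 := by
  intro h
  have := congrArg e1 h
  unfold dB at this
  rw [map_sub, map_neg, e1_T, e1_T, map_zero] at this
  norm_num at this

theorem dB_sq_ne : dB ^ 2 - 1 ≠ 0 := by
  intro h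
  rw [dB_sq] at h
  have := congrArg e1 h
  rw [map_add, map_add, e1_T, e1_T, map_one, map_zero] at this
  norm_num at this

theorem star_mul (w : List (Bool × ℕ)) : MM dB (star (X w)) * mw w = 1 := by
  have h1 := mw_unitary w
  rw [← MM_X, ← JJ_star, MM_X, mul_assoc] at h1
  have h2 : JJ.adjugate * JJ = JJ.det • (1 : Matrix (Fin 2) (Fin 2) ℤ[T;T⁻¹]) := Matrix.adjugate_mul JJ
  have h3 : JJ.det = dB ^ 2 - 1 := by
    rw [Matrix.det_fin_two]
    simp [JJ]
    ring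
  have h4 := congrArg (JJ.adjugate * ·) h1
  simp only [← mul_assoc] at h4
  rw [mul_assoc, h2, h3, smul_mul_assoc, one_mul] at h4
  have h5 : ∀ i j, (MM dB (star (X w)) * mw w) i j = (1 : Matrix (Fin 2) (Fin 2) ℤ[T;T⁻¹]) i j := by
    intro i j
    have h6 := congrFun (congrFun h4 i) j
    rw [Matrix.smul_apply, Matrix.smul_apply, smul_eq_mul, smul_eq_mul] at h6
    exact mul_left_cancel₀ dB_sq_ne h6
  exact Matrix.ext h5

/-- The equations. -/
structure Eqs (D : ℤ[T;T⁻¹]) (v : V3 ℤ[T;T⁻¹]) : Prop where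
  h1 : D * (1 + dB * ba v.a1 + ba v.a4) = 1 + dB * v.a2 + v.a4
  h2 : D * (1 + dB * ba v.a2 + ba v.a3) = 1 + dB * v.a1 + v.a3
  h3 : D * (ba v.a1 + dB * ba v.a4) = -(v.a1 + dB * v.a3)
  h4 : D * (ba v.a2 + dB * ba v.a3) = -(v.a2 + dB * v.a4)
  h5 : (1 + dB * v.a1 + v.a3) * (1 + dB * v.a2 + v.a4) - (v.a1 + dB * v.a3) * (v.a2 + dB * v.a4) = D
  t1 : th v.a1 = - v.a1
  t2 : th v.a2 = - v.a2
  t3 : th v.a3 = v.a3
  t4 : th v.a4 = v.a4


theorem th_lc (x : Bool × ℕ) : th (lc x) = - lc x := by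
  unfold lc
  split_ifs
  · rw [th_T, if_neg (by decide)]; ring
  · rw [th_T, if_neg (by decide)]; ring

/-- parity -/
structure Pty (v : V3 ℤ[T;T⁻¹]) : Prop where
  t0 : th v.a0 = v.a0
  t1 : th v.a1 = - v.a1
  t2 : th v.a2 = - v.a2
  t3 : th v.a3 = v.a3
  t4 : th v.a4 = v.a4

theorem Pty.stp {v : V3 ℤ[T;T⁻¹]} (h : Pty v) (x : Bool × ℕ) : Pty (AR.stp 1 (lc x) dB v x.2) := by
  obtain ⟨t0, t1, t2, t3, t4⟩ := h
  have hl := th_lc x
  have hd := th_dB
  generalize x.2 = i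
  rcases i with _ | i
  · constructor <;> simp only [AR.stp, map_mul, map_add, map_one, t0, t1, t2, t3, t4, hl, hd] <;> ring
  · constructor <;> simp only [AR.stp, map_mul, map_add, map_one, t0, t1, t2, t3, t4, hl, hd] <;> ring

theorem Pty.nrun (w : List (Bool × ℕ)) : ∀ v, Pty v → Pty (nrun w v) := by
  induction w with
  | nil => intro v h; exact h
  | cons x w ih => intro v h; exact ih _ (h.stp x)

theorem X_pty (w : List (Bool × ℕ)) : Pty (X w) := by
  apply Pty.nrun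
  constructor <;> simp [one]

theorem X_eqs (w : List (Bool × ℕ)) : Eqs (De w) (X w) := by
  have h0 := X_a0 w
  have h1 := star_mul w
  have h2 : MM dB (star (X w)) * (mw w * (mw w).adjugate) = (mw w).adjugate := by
    rw [← mul_assoc, h1, one_mul]
  rw [Matrix.mul_adjugate, det_mw, mul_smul_comm, mul_one, ← MM_X, Matrix.adjugate_fin_two] at h2
  have h5 := det_mw w
  rw [← MM_X, Matrix.det_fin_two] at h5
  obtain ⟨t0, t1, t2, t3, t4⟩ := X_pty w
  have a := congrFun (congrFun h2 0) 0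
  have b := congrFun (congrFun h2 0) 1
  have c := congrFun (congrFun h2 1) 0
  have d := congrFun (congrFun h2 1) 1
  simp only [MM, star, h0, map_one, Matrix.smul_apply, smul_eq_mul, Matrix.of_apply, Matrix.cons_val', Matrix.cons_val_zero,
    Matrix.cons_val_one, Matrix.cons_val_fin_one, Matrix.empty_val'] at a b c d h5
  exact ⟨a, d, b, c, h5, t1, t2, t3, t4⟩

end Pool.Agent.U963.KN
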