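import Pool.Agent.U963.KN.SolA

/-!
# The representation of the braid group on three strands is faithful
-/

set_option autoImplicit false

namespace Pool.Agent.U963.KN

open Finset LaurentPolynomial Pool.Agent.H891R2.Jones Pool.Agent.W639.RB Pool.Agent.Y463.SK Pool.Agent.Y463.MP
open Pool.Agent.U963.AR (V3 run one stp sz s2)

/-! ### the normal form -/

section
variable {G : Type} [Group G] (a b : G)

/-- the value of a letter -/
def vl (x : Bool × ℕ) : G := if x.2 = 0 then (if x.1 then a else a⁻¹) else (if x.1 then b else b⁻¹)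

/-- the value of a word -/
def vN (w : List (Bool × ℕ)) : G := (w.map (vl a b)).prod

theorem vN_append (w w' : List (Bool × ℕ)) : vN a b (w ++ w') = vN a b w * vN a b w' := by simp [vN]

theorem vl_inv (x : Bool × ℕ) : vl a b (!x.1, x.2) = (vl a b x)⁻¹ := by
  obtain ⟨s, i⟩ := x
  unfold vl
  cases s <;> by_cases h : i = 0 <;> simp [h]

theorem vN_inv (w : List (Bool × ℕ)) : vN a b (invL w) = (vN a b w)⁻¹ := by
  induction w with
  | nil => simp [vN, invL]
  | cons x w ih =>
    have e1 : invL (x :: w) = invL w ++ [(!x.1, x.2)] := by simp [invL]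
    have e2 : vN a b (x :: w) = vl a b x * vN a b w := by simp [vN]
    have e3 : vN a b [(!x.1, x.2)] = vl a b (!x.1, x.2) := by simp [vN]
    rw [e1, vN_append, ih, e2, e3, vl_inv, mul_inv_rev]

/-- normal forms: `c^k S^i P R^j`, where `c = S² = R³` -/
structure NF where
  k : ℤ
  i : Bool
  P : List Bool
  j : Fin 3

/-- the value of the positive part; the first entry of the list is the last letter -/
def vP : List Bool → G
  | [] => 1
  | x :: P => vP P * (if x then a else b⁻¹)

def vS (i : Bool) : G := if i then a * b * a else 1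

def vR (j : Fin 3) : G := if j = 0 then 1 else if j = 1 then a * b else (a * b)⁻¹

/-- the value -/
def NF.val (n : NF) : G := ((a * b * a) ^ 2) ^ n.k * vS a b n.i * vP a b n.P * vR a b n.j

variable {a b}

theorem S_sq (h : a * b * a = b * a * b) : (a * b * a) ^ 2 = (a * b) ^ 3 := by
  have : (a * b * a) ^ 2 = (a * b * a) * (b * a * b) := by rw [pow_two, ← h]
  rw [this, pow_succ, pow_two]
  simp only [mul_assoc]

theorem S_b (h : a * b * a = b * a * b) : (a * b * a) * b = a * (a * b * a) := by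
  conv_rhs => rw [h]
  simp only [mul_assoc]

theorem c_comm_a (h : a * b * a = b * a * b) : Commute ((a * b * a) ^ 2) a := by
  have h1 : (a * b * a) * a = b * (a * b * a) := by
    conv_lhs => rw [h]
    group
  have h2 : (a * b * a) * b = a * (a * b * a) := by
    conv_rhs => rw [h]
    group
  show (a * b * a) ^ 2 * a = a * (a * b * a) ^ 2
  rw [pow_two, mul_assoc, h1, ← mul_assoc, h2, mul_assoc]

theorem c_comm_b (h : a * b * a = b * a * b) : Commute ((a * b * a) ^ 2) b := by
  have h1 : (a * b * a) * a = b * (a * b * a) := by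
    conv_lhs => rw [h]
    group
  have h2 : (a * b * a) * b = a * (a * b * a) := by
    conv_rhs => rw [h]
    group
  show (a * b * a) ^ 2 * b = b * (a * b * a) ^ 2
  rw [pow_two, mul_assoc, h2, ← mul_assoc, h1, mul_assoc]

end

def mulR (n : NF) : NF := if n.j = 0 then ⟨n.k, n.i, n.P, 1⟩ else if n.j = 1 then ⟨n.k + 1, n.i, n.P, 2⟩ else ⟨n.k, n.i, n.P, 0⟩

def mulS (n : NF) : NF := 
  if n.j = 0 then 
    match n.P with
    | [] => if n.i then ⟨n.k + 1, false, [], 0⟩ else ⟨n.k, true, [], 0⟩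
    | x :: P => if x then ⟨n.k + 1, n.i, P, 2⟩ else ⟨n.k, n.i, P, 1⟩
  else if n.j = 1 then ⟨n.k + 1, n.i, false :: n.P, 0⟩ else ⟨n.k, n.i, true :: n.P, 0⟩

def mulC (n : NF) : NF := ⟨n.k - 1, n.i, n.P, n.j⟩

section
variable {G : Type} [Group G] {a b : G}

theorem c_vP (h : a * b * a = b * a * b) (P : List Bool) : Commute ((a * b * a) ^ 2) (vP a b P) := by
  induction P with
  | nil => exact Commute.one_right _
  | cons x P ih =>
    refine ih.mul_right ?_
    split_ifs
    · exact c_comm_a h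
    · exact (c_comm_b h).inv_right

theorem c_vS (h : a * b * a = b * a * b) (i : Bool) : Commute ((a * b * a) ^ 2) (vS a b i) := by
  unfold vS
  split_ifs
  · exact ((c_comm_a h).mul_right (c_comm_b h)).mul_right (c_comm_a h)
  · exact Commute.one_right _

theorem c_vR (h : a * b * a = b * a * b) (j : Fin 3) : Commute ((a * b * a) ^ 2) (vR a b j) := by
  unfold vR
  split_ifs
  · exact Commute.one_right _
  · exact (c_comm_a h).mul_right (c_comm_b h)
  · exact ((c_comm_a h).mul_right (c_comm_b h)).inv_right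

theorem val_mulC (h : a * b * a = b * a * b) (n : NF) : (mulC n).val a b = n.val a b * ((a * b * a) ^ 2)⁻¹ := by
  have h1 := c_vS h n.i
  have h2 := c_vP h n.P
  have h3 := c_vR h n.j
  have h4 : Commute ((a * b * a) ^ 2)⁻¹ (vS a b n.i * vP a b n.P * vR a b n.j) := ((h1.mul_right h2).mul_right h3).inv_left
  unfold NF.val mulC
  simp only
  have e : ((a * b * a) ^ 2) ^ (n.k - 1) = ((a * b * a) ^ 2) ^ n.k * ((a * b * a) ^ 2)⁻¹ := zpow_sub_one _ _
  rw [e]
  have e2 := h4.eq
  simp only [mul_assoc] at e2 ⊢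
  rw [e2]

theorem val_succ (h : a * b * a = b * a * b) (k : ℤ) (i : Bool) (P : List Bool) (g : G) : 
    ((a * b * a) ^ 2) ^ (k + 1) * vS a b i * vP a b P * g = 
      ((a * b * a) ^ 2) ^ k * vS a b i * vP a b P * ((a * b * a) ^ 2 * g) := by
  have h4 : Commute ((a * b * a) ^ 2) (vS a b i * vP a b P) := (c_vS h i).mul_right (c_vP h P)
  have e : ((a * b * a) ^ 2) ^ (k + 1) = ((a * b * a) ^ 2) ^ k * ((a * b * a) ^ 2) := zpow_add_one _ _
  rw [e]
  generalize (a * b * a) ^ 2 = c at *
  generalize vS a b i = s at *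
  generalize vP a b P = p at *
  calc c ^ k * c * s * p * g = c ^ k * (c * (s * p)) * g := by simp only [mul_assoc]
    _ = c ^ k * ((s * p) * c) * g := by rw [h4.eq]
    _ = c ^ k * s * p * (c * g) := by simp only [mul_assoc]

theorem val_mulR (h : a * b * a = b * a * b) (n : NF) : (mulR n).val a b = n.val a b * (a * b) := by
  have h3 := S_sq h
  obtain ⟨k, i, P, j⟩ := n
  unfold NF.val mulR
  by_cases h0 : j = 0
  · subst h0
    simp [vR]
  · by_cases h1 : j = 1
    · subst h1
      simp only [if_true, one_ne_zero, if_false]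
      rw [val_succ h, mul_assoc _ (vR a b 1)]
      congr 1
      have e1 : vR a b 1 = a * b := by unfold vR; rw [if_neg (by decide), if_pos rfl]
      have e2 : vR a b 2 = (a * b)⁻¹ := by unfold vR; rw [if_neg (by decide), if_neg (by decide)]
      have e3 : ∀ r : G, r ^ 3 * r⁻¹ = r * r := fun r => by rw [← pow_two]; group
      rw [e1, e2, h3, e3]
    · have hj : j = 2 := by omega
      subst hj
      have e2 : vR a b 2 = (a * b)⁻¹ := by unfold vR; rw [if_neg (by decide), if_neg (by decide)]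
      have e0 : vR a b 0 = 1 := by unfold vR; rw [if_pos rfl]
      simp only [if_neg h0, if_neg h1]
      rw [e2, e0]
      group

theorem val_mulS (h : a * b * a = b * a * b) (n : NF) : (mulS n).val a b = n.val a b * (a * b * a) := by
  obtain ⟨k, i, P, j⟩ := n
  have e1 : vR a b 1 = a * b := by unfold vR; rw [if_neg (by decide), if_pos rfl]
  have e2 : vR a b 2 = (a * b)⁻¹ := by unfold vR; rw [if_neg (by decide), if_neg (by decide)]
  have e0 : vR a b 0 = 1 := by unfold vR; rw [if_pos rfl]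
  by_cases h0 : j = 0
  · subst h0
    rcases P with _ | ⟨x, P⟩
    · cases i with
      | true =>
        have e3 : (mulS ⟨k, true, [], 0⟩) = ⟨k + 1, false, [], 0⟩ := rfl
        rw [e3]
        unfold NF.val
        simp only
        rw [zpow_add_one, e0]
        simp only [vS, vP, if_true, Bool.false_eq_true, if_false, mul_one]
        rw [pow_two]
        simp only [mul_assoc]
      | false =>
        have e3 : (mulS ⟨k, false, [], 0⟩) = ⟨k, true, [], 0⟩ := rfl
        rw [e3]
        unfold NF.val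
        simp only [e0, vS, vP, if_true, Bool.false_eq_true, if_false, mul_one]
    · cases x with
      | true =>
        have e3 : (mulS ⟨k, i, true :: P, 0⟩) = ⟨k + 1, i, P, 2⟩ := rfl
        rw [e3]
        unfold NF.val
        simp only
        rw [val_succ h, e0, e2]
        simp only [vP, if_true, mul_one]
        have e4 : (a * b * a) ^ 2 * (a * b)⁻¹ = a * (a * b * a) := by
          have e5 : (a * b * a) * (a * b * a) = (a * (a * b * a)) * (a * b) := by
            rw [← S_b h]
            conv_lhs => rw [show (a * b * a) * (a * b * a) = (a * b * a) * (b * a * b) by rw [← h]]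
            simp only [mul_assoc]
          rw [pow_two, e5]
          group
        rw [e4]
        simp only [mul_assoc]
      | false =>
        have e3 : (mulS ⟨k, i, false :: P, 0⟩) = ⟨k, i, P, 1⟩ := rfl
        rw [e3]
        unfold NF.val
        simp only
        rw [e0, e1]
        simp only [vP, Bool.false_eq_true, if_false, mul_one]
        rw [h]
        group
  · by_cases h1 : j = 1
    · subst h1
      have e3 : (mulS ⟨k, i, P, 1⟩) = ⟨k + 1, i, false :: P, 0⟩ := rfl
      rw [e3]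
      unfold NF.val
      simp only
      rw [e0, e1, mul_one]
      have e4 : vP a b (false :: P) = vP a b P * b⁻¹ := rfl
      rw [e4, ← mul_assoc, val_succ h]
      have e5 : (a * b * a) ^ 2 * b⁻¹ = (a * b) * (a * b * a) := by
        have e6 : (a * b * a) * b⁻¹ = a⁻¹ * (a * b * a) := by
          rw [mul_inv_eq_iff_eq_mul, mul_assoc a⁻¹, S_b h, inv_mul_cancel_left]
        rw [pow_two, mul_assoc, e6]
        group
      rw [e5]
      simp only [mul_assoc]
    · have hj : j = 2 := by omega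
      subst hj
      have e3 : (mulS ⟨k, i, P, 2⟩) = ⟨k, i, true :: P, 0⟩ := rfl
      rw [e3]
      unfold NF.val
      simp only [vP, if_true]
      rw [e0, e2]
      group

end

/-- one letter -/
def stepN (n : NF) (x : Bool × ℕ) : NF := 
  if x.2 = 0 then (if x.1 then mulC (mulS (mulR (mulR n))) else mulC (mulR (mulS n)))
  else (if x.1 then mulC (mulR (mulR (mulS n))) else mulC (mulS (mulR n)))

def nfw (w : List (Bool × ℕ)) : NF := w.foldl stepN ⟨0, false, [], 0⟩

section
variable {G : Type} [Group G] {a b : G}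

theorem val_step (h : a * b * a = b * a * b) (n : NF) (x : Bool × ℕ) : 
    (stepN n x).val a b = n.val a b * vl a b x := by
  have hc := S_sq h
  have k1 : (a * b) * (a * b) * (a * b * a) * ((a * b * a) ^ 2)⁻¹ = a := by
    have : (a * b) * (a * b) = (a * b)⁻¹ * (a * b * a) ^ 2 := by
      rw [hc]
      generalize a * b = r
      rw [← pow_two]
      group
    rw [this, mul_assoc ((a * b)⁻¹), mul_assoc ((a * b)⁻¹)]
    generalize hs : a * b * a = s
    have e : s ^ 2 * s * (s ^ 2)⁻¹ = s := by group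
    rw [e, ← hs]
    group
  have k2 : (a * b * a) * (a * b) * ((a * b * a) ^ 2)⁻¹ = a⁻¹ := by
    have c1 := ((c_comm_a h).mul_right (c_comm_b h)).inv_left.eq
    rw [mul_assoc, ← c1, ← mul_assoc]
    generalize hs : a * b * a = s
    have e : s * (s ^ 2)⁻¹ = s⁻¹ := by group
    rw [e, ← hs]
    group
  have k3 : (a * b) * (a * b * a) * ((a * b * a) ^ 2)⁻¹ = b⁻¹ := by
    rw [mul_assoc]
    have e : (a * b * a) * ((a * b * a) ^ 2)⁻¹ = (a * b * a)⁻¹ := by group
    rw [e, h]
    group
  have k4 : (a * b * a) * (a * b) * (a * b) * ((a * b * a) ^ 2)⁻¹ = b := by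
    have c1 := ((c_comm_a h).mul_right (c_comm_b h)).inv_left.eq
    rw [mul_assoc _ (a * b) ((a * b * a) ^ 2)⁻¹, ← c1, ← mul_assoc, k2]
    group
  unfold stepN vl
  split_ifs
  · rw [val_mulC h, val_mulS h, val_mulR h, val_mulR h]
    have : n.val a b * (a * b) * (a * b) * (a * b * a) * ((a * b * a) ^ 2)⁻¹ = 
        n.val a b * ((a * b) * (a * b) * (a * b * a) * ((a * b * a) ^ 2)⁻¹) := by simp only [mul_assoc]
    rw [this, k1]
  · rw [val_mulC h, val_mulR h, val_mulS h]
    have : n.val a b * (a * b * a) * (a * b) * ((a * b * a) ^ 2)⁻¹ = 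
        n.val a b * ((a * b * a) * (a * b) * ((a * b * a) ^ 2)⁻¹) := by simp only [mul_assoc]
    rw [this, k2]
  · rw [val_mulC h, val_mulR h, val_mulR h, val_mulS h]
    have : n.val a b * (a * b * a) * (a * b) * (a * b) * ((a * b * a) ^ 2)⁻¹ = 
        n.val a b * ((a * b * a) * (a * b) * (a * b) * ((a * b * a) ^ 2)⁻¹) := by simp only [mul_assoc]
    rw [this, k4]
  · rw [val_mulC h, val_mulS h, val_mulR h]
    have : n.val a b * (a * b) * (a * b * a) * ((a * b * a) ^ 2)⁻¹ = 
        n.val a b * ((a * b) * (a * b * a) * ((a * b * a) ^ 2)⁻¹) := by simp only [mul_assoc]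
    rw [this, k3]

theorem val_foldl (h : a * b * a = b * a * b) (w : List (Bool × ℕ)) : ∀ n : NF, 
    (w.foldl stepN n).val a b = n.val a b * vN a b w := by
  induction w with
  | nil => intro n; simp [vN]
  | cons x w ih =>
    intro n
    have e : vN a b (x :: w) = vl a b x * vN a b w := by simp [vN]
    rw [List.foldl_cons, ih, val_step h, e, mul_assoc]

theorem val_nfw (h : a * b * a = b * a * b) (w : List (Bool × ℕ)) : (nfw w).val a b = vN a b w := by
  unfold nfw
  rw [val_foldl h]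
  simp [NF.val, vS, vP, vR]

end

/-! ### the kernel -/

open Matrix in
/-- the matrix of `σ_1` -/
def mA : Matrix.SpecialLinearGroup (Fin 2) ℤ := ⟨!![1, 1; 0, 1], by simp⟩

/-- the matrix of `σ_2` -/
def mB : Matrix.SpecialLinearGroup (Fin 2) ℤ := ⟨!![1, 0; -1, 1], by simp⟩

theorem mA_mB : mA * mB * mA = mB * mA * mB := by
  have e1 : ((mA * mB * mA : Matrix.SpecialLinearGroup (Fin 2) ℤ) : Matrix (Fin 2) (Fin 2) ℤ) = !![0, 1; -1, 0] := by
    rw [Matrix.SpecialLinearGroup.coe_mul, Matrix.SpecialLinearGroup.coe_mul, mA, mB]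
    simp
  have e2 : ((mB * mA * mB : Matrix.SpecialLinearGroup (Fin 2) ℤ) : Matrix (Fin 2) (Fin 2) ℤ) = !![0, 1; -1, 0] := by
    rw [Matrix.SpecialLinearGroup.coe_mul, Matrix.SpecialLinearGroup.coe_mul, mA, mB]
    simp
  exact Subtype.ext (e1.trans e2.symm)

theorem coe_vl (x : Bool × ℕ) : ((vl mA mB x : Matrix.SpecialLinearGroup (Fin 2) ℤ) : Matrix (Fin 2) (Fin 2) ℤ) = s2 x := by
  unfold vl s2
  split_ifs
  · rfl
  · rw [Matrix.SpecialLinearGroup.coe_inv, mA, Matrix.adjugate_fin_two]
    simp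
  · rfl
  · rw [Matrix.SpecialLinearGroup.coe_inv, mB, Matrix.adjugate_fin_two]
    simp

theorem coe_vN (w : List (Bool × ℕ)) : 
    ((vN mA mB w : Matrix.SpecialLinearGroup (Fin 2) ℤ) : Matrix (Fin 2) (Fin 2) ℤ) = sz w := by
  induction w with
  | nil => rfl
  | cons x w ih =>
    have e : vN mA mB (x :: w) = vl mA mB x * vN mA mB w := by simp [vN]
    have e2 : sz (x :: w) = s2 x * sz w := by simp [sz]
    rw [e, Matrix.SpecialLinearGroup.coe_mul, coe_vl, ih, e2]

/-- the matrix of the positive part -/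
theorem pos_part (P : List Bool) : ∃ p q r s : ℤ, 
    ((vP mA mB P : Matrix.SpecialLinearGroup (Fin 2) ℤ) : Matrix (Fin 2) (Fin 2) ℤ) = !![p, q; r, s] ∧ 
    0 ≤ p ∧ 0 ≤ q ∧ 0 ≤ r ∧ 0 ≤ s ∧ 1 ≤ p + r ∧ 1 ≤ q + s ∧ 2 + (P.length : ℤ) ≤ p + q + r + s := by
  induction P with
  | nil => exact ⟨1, 0, 0, 1, by rw [vP, Matrix.SpecialLinearGroup.coe_one, Matrix.one_fin_two], by norm_num⟩
  | cons x P ih =>
    obtain ⟨p, q, r, s, h, h1, h2, h3, h4, h5, h6, h7⟩ := ih
    have hl : ((List.length (x :: P) : ℕ) : ℤ) = P.length + 1 := by push_cast [List.length_cons]; rfl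
    cases x with
    | true =>
      refine ⟨p, p + q, r, r + s, ?_, h1, by linarith, h3, by linarith, h5, by linarith, by rw [hl]; linarith⟩
      have e : vP mA mB (true :: P) = vP mA mB P * mA := rfl
      rw [e, Matrix.SpecialLinearGroup.coe_mul, h, mA]
      simp
    | false =>
      refine ⟨p + q, q, r + s, s, ?_, by linarith, h2, by linarith, h4, by linarith, h6, by rw [hl]; linarith⟩
      have e : vP mA mB (false :: P) = vP mA mB P * mB⁻¹ := rfl
      rw [e, Matrix.SpecialLinearGroup.coe_mul, h, Matrix.SpecialLinearGroup.coe_inv, mB, Matrix.adjugate_fin_two]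
      simp

theorem coe_S : ((mA * mB * mA : Matrix.SpecialLinearGroup (Fin 2) ℤ) : Matrix (Fin 2) (Fin 2) ℤ) = !![0, 1; -1, 0] := by
  rw [Matrix.SpecialLinearGroup.coe_mul, Matrix.SpecialLinearGroup.coe_mul, mA, mB]
  simp

theorem coe_R : ((mA * mB : Matrix.SpecialLinearGroup (Fin 2) ℤ) : Matrix (Fin 2) (Fin 2) ℤ) = !![0, 1; -1, 1] := by
  rw [Matrix.SpecialLinearGroup.coe_mul, mA, mB]
  simp

theorem coe_c (k : ℤ) : ∃ e : ℤ, (e = 1 ∨ e = -1) ∧ 
    ((((mA * mB * mA) ^ 2) ^ k : Matrix.SpecialLinearGroup (Fin 2) ℤ) : Matrix (Fin 2) (Fin 2) ℤ) = !![e, 0; 0, e] := by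
  have h0 : ((((mA * mB * mA) ^ 2) : Matrix.SpecialLinearGroup (Fin 2) ℤ) : Matrix (Fin 2) (Fin 2) ℤ) = !![-1, 0; 0, -1] := by
    rw [pow_two, Matrix.SpecialLinearGroup.coe_mul, coe_S]
    simp
  have hi : (((((mA * mB * mA) ^ 2))⁻¹ : Matrix.SpecialLinearGroup (Fin 2) ℤ) : Matrix (Fin 2) (Fin 2) ℤ) = !![-1, 0; 0, -1] := by
    rw [Matrix.SpecialLinearGroup.coe_inv, h0, Matrix.adjugate_fin_two]
    simp
  induction k using Int.induction_on with
  | zero => exact ⟨1, Or.inl rfl, by rw [zpow_zero, Matrix.SpecialLinearGroup.coe_one, Matrix.one_fin_two]⟩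
  | succ k ih =>
    obtain ⟨e, he, h⟩ := ih
    refine ⟨-e, by rcases he with rfl | rfl <;> simp, ?_⟩
    rw [zpow_add_one, Matrix.SpecialLinearGroup.coe_mul, h, h0]
    simp
  | pred k ih =>
    obtain ⟨e, he, h⟩ := ih
    refine ⟨-e, by rcases he with rfl | rfl <;> simp, ?_⟩
    rw [zpow_sub_one, Matrix.SpecialLinearGroup.coe_mul, h, hi]
    simp

/-- only central elements are mapped to `1` -/
theorem nf_central (n : NF) (h : n.val mA mB = 1) : n.i = false ∧ n.P = [] ∧ n.j = 0 := by
  obtain ⟨k, i, P, j⟩ := n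
  obtain ⟨e, he, hc⟩ := coe_c k
  obtain ⟨p, q, r, s, hP, h1, h2, h3, h4, h5, h6, h7⟩ := pos_part P
  have h' := congrArg (fun M : Matrix.SpecialLinearGroup (Fin 2) ℤ => (M : Matrix (Fin 2) (Fin 2) ℤ)) h
  unfold NF.val at h'
  simp only [Matrix.SpecialLinearGroup.coe_mul, Matrix.SpecialLinearGroup.coe_one] at h'
  rw [hc, hP] at h'
  have hR1 : ((vR mA mB 1 : Matrix.SpecialLinearGroup (Fin 2) ℤ) : Matrix (Fin 2) (Fin 2) ℤ) = !![0, 1; -1, 1] := coe_R
  have hR2 : ((vR mA mB 2 : Matrix.SpecialLinearGroup (Fin 2) ℤ) : Matrix (Fin 2) (Fin 2) ℤ) = !![1, -1; 1, 0] := by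
    show (((mA * mB)⁻¹ : Matrix.SpecialLinearGroup (Fin 2) ℤ) : Matrix (Fin 2) (Fin 2) ℤ) = _
    rw [Matrix.SpecialLinearGroup.coe_inv, coe_R, Matrix.adjugate_fin_two]
    simp
  have hR0 : ((vR mA mB 0 : Matrix.SpecialLinearGroup (Fin 2) ℤ) : Matrix (Fin 2) (Fin 2) ℤ) = !![1, 0; 0, 1] := by
    show ((1 : Matrix.SpecialLinearGroup (Fin 2) ℤ) : Matrix (Fin 2) (Fin 2) ℤ) = _
    rw [Matrix.SpecialLinearGroup.coe_one, Matrix.one_fin_two]
  have hS1 : ((vS mA mB true : Matrix.SpecialLinearGroup (Fin 2) ℤ) : Matrix (Fin 2) (Fin 2) ℤ) = !![0, 1; -1, 0] := coe_S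
  have hS0 : ((vS mA mB false : Matrix.SpecialLinearGroup (Fin 2) ℤ) : Matrix (Fin 2) (Fin 2) ℤ) = !![1, 0; 0, 1] := by
    show ((1 : Matrix.SpecialLinearGroup (Fin 2) ℤ) : Matrix (Fin 2) (Fin 2) ℤ) = _
    rw [Matrix.SpecialLinearGroup.coe_one, Matrix.one_fin_two]
  have hj : j = 0 ∨ j = 1 ∨ j = 2 := by omega
  have key : ∀ S' R' : Matrix (Fin 2) (Fin 2) ℤ, !![e, 0; 0, e] * S' * !![p, q; r, s] * R' = 1 → 
      ∀ x y, (!![e, 0; 0, e] * S' * !![p, q; r, s] * R') x y = (1 : Matrix (Fin 2) (Fin 2) ℤ) x y := by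
    intro S' R' h x y
    rw [h]
  rcases i with _ | _ <;> rcases hj with rfl | rfl | rfl
  · rw [hS0, hR0] at h'
    have a := key _ _ h' 0 0
    have b := key _ _ h' 0 1
    have c := key _ _ h' 1 0
    have d := key _ _ h' 1 1
    simp at a b c d
    refine ⟨rfl, ?_, rfl⟩
    have hl : (P.length : ℤ) ≤ 0 := by
      rcases he with rfl | rfl
      · simp at a b c d
        linarith
      · simp at a b c d
        linarith
    have : P.length = 0 := by omega
    exact List.length_eq_zero_iff.1 this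
  all_goals
    exfalso
    first
      | rw [hS0, hR1] at h'
      | rw [hS0, hR2] at h'
      | rw [hS1, hR0] at h'
      | rw [hS1, hR1] at h'
      | rw [hS1, hR2] at h'
    have a := key _ _ h' 0 0
    have b := key _ _ h' 0 1
    have c := key _ _ h' 1 0
    have d := key _ _ h' 1 1
    rcases he with rfl | rfl <;> simp at a b c d <;> omega

end Pool.Agent.U963.KN
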