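import Pool.Agent.U963.KN.Fai

/-!
# The braids with trivial bracket
-/

set_option autoImplicit false

namespace Pool.Agent.U963.KN

open Finset LaurentPolynomial Pool.Agent.H891R2.Jones Pool.Agent.W639.RB Pool.Agent.Y463.SK Pool.Agent.Y463.MP
open Pool.Agent.TH561 (dl)
open Pool.Agent.U963.AR (V3 run one stp sz s2)
open Pool.Agent.U963.JN (un fPoly_eq)

/-! ### faithfulness -/

theorem vN_expo (w : List (Bool × ℕ)) : 
    vN (Multiplicative.ofAdd (1 : ℤ)) (Multiplicative.ofAdd (1 : ℤ)) w = Multiplicative.ofAdd (expo w) := by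
  induction w with
  | nil => rfl
  | cons x w ih =>
    have e : vN (Multiplicative.ofAdd (1 : ℤ)) (Multiplicative.ofAdd (1 : ℤ)) (x :: w) = 
      vl (Multiplicative.ofAdd (1 : ℤ)) (Multiplicative.ofAdd (1 : ℤ)) x * 
        vN (Multiplicative.ofAdd (1 : ℤ)) (Multiplicative.ofAdd (1 : ℤ)) w := by simp [vN]
    have e2 : expo (x :: w) = (if x.1 then 1 else -1) + expo w := by simp [expo]
    rw [e, ih, e2, ofAdd_add]
    congr 1
    unfold vl
    split_ifs <;> rfl

theorem kern (w : List (Bool × ℕ)) (h1 : sz w = 1) (h2 : expo w = 0) {G : Type} [Group G] {a b : G} 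
    (h : a * b * a = b * a * b) : vN a b w = 1 := by
  have e1 : (nfw w).val mA mB = 1 := by
    rw [val_nfw mA_mB]
    apply Subtype.ext
    rw [coe_vN, h1]
    rfl
  obtain ⟨hi, hP, hj⟩ := nf_central _ e1
  have e2 : (nfw w).val (Multiplicative.ofAdd (1 : ℤ)) (Multiplicative.ofAdd (1 : ℤ)) = 1 := by
    rw [val_nfw rfl, vN_expo, h2]
    rfl
  have hk : (nfw w).k = 0 := by
    unfold NF.val at e2
    rw [hi, hP, hj] at e2
    simp only [vS, vP, vR, if_true, Bool.false_eq_true, if_false, mul_one] at e2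
    have e3 := congrArg Multiplicative.toAdd e2
    simp only [toAdd_zpow, toAdd_pow, toAdd_mul, toAdd_ofAdd, toAdd_one, smul_eq_mul, nsmul_eq_mul] at e3
    push_cast at e3
    omega
  rw [← val_nfw h]
  unfold NF.val
  rw [hi, hP, hj, hk]
  simp [vS, vP, vR]

/-- the form of the matrices at `B = i` -/
noncomputable def ph (M : Matrix (Fin 2) (Fin 2) ℤ) : Matrix (Fin 2) (Fin 2) ℂ := 
  !![(M 0 0 : ℂ), -Complex.I * M 0 1; Complex.I * M 1 0, M 1 1]

theorem ph_mul (M N : Matrix (Fin 2) (Fin 2) ℤ) : ph (M * N) = ph M * ph N := by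
  unfold ph
  refine Matrix.ext fun i j => ?_
  have hI : Complex.I * Complex.I = -1 := Complex.I_mul_I
  fin_cases i <;> fin_cases j <;> simp [Matrix.mul_apply, Fin.sum_univ_two]
  · linear_combination ((M 0 1 : ℂ) * N 1 0) * hI
  · ring
  · ring
  · linear_combination ((M 1 0 : ℂ) * N 0 1) * hI

theorem ph_letter (x : Bool × ℕ) : (LL dB (lc x) x.2).map eI = ph (s2 x) := by
  obtain ⟨s, i⟩ := x
  have hT : eI (T (-1)) = -Complex.I := by rw [eI_T]; simp
  have hT' : eI (T 1) = Complex.I := by rw [eI_T]; simp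
  have hd := eI_dB
  refine Matrix.ext fun k l => ?_
  rcases i with _ | i
  · cases s <;> fin_cases k <;> fin_cases l <;> simp [LL, lc, ph, s2, hT, hT', hd]
  · cases s <;> fin_cases k <;> fin_cases l <;> simp [LL, lc, ph, s2, hT, hT', hd]

theorem mw_sz (w : List (Bool × ℕ)) : (mw w).map eI = ph (sz w) := by
  induction w with
  | nil =>
    refine Matrix.ext fun k l => ?_
    fin_cases k <;> fin_cases l <;> simp [mw, sz, ph]
  | cons x w ih =>
    have e : mw (x :: w) = LL dB (lc x) x.2 * mw w := by simp [mw]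
    have e2 : sz (x :: w) = s2 x * sz w := by simp [sz]
    rw [e, e2, Matrix.map_mul, ph_mul, ih, ph_letter]

theorem ph_inj {M N : Matrix (Fin 2) (Fin 2) ℤ} (h : ph M = ph N) : M = N := by
  have a := congrFun (congrFun h 0) 0
  have b := congrFun (congrFun h 0) 1
  have c := congrFun (congrFun h 1) 0
  have d := congrFun (congrFun h 1) 1
  simp [ph] at a b c d
  refine Matrix.ext fun k l => ?_
  fin_cases k <;> fin_cases l
  · exact a
  · exact b
  · exact c
  · exact d

/-- **Faithfulness.** -/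
theorem faithful {w w' : List (Bool × ℕ)} (h1 : mw w = mw w') (h2 : expo w = expo w') {G : Type} [Group G] {a b : G} 
    (h : a * b * a = b * a * b) : vN a b w = vN a b w' := by
  have h3 : sz w = sz w' := ph_inj (by rw [← mw_sz, ← mw_sz, h1])
  have h4 : sz (w ++ invL w') = 1 := by
    rw [AR.sz_append, h3, AR.sz_inv]
  have h5 : expo (w ++ invL w') = 0 := by
    have e1 : expo (invL w') = - expo w' := by
      have := vN_expo (invL w')
      rw [vN_inv, vN_expo] at this
      exact (Multiplicative.ofAdd.injective this).symm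
    rw [expo_append, e1, h2]
    ring
  have h6 := kern _ h4 h5 h
  rw [vN_append, vN_inv] at h6
  exact mul_inv_eq_one.1 h6

/-! ### the words -/

/-- powers of a generator -/
def pw (i : ℕ) (k : ℤ) : List (Bool × ℕ) := List.replicate k.natAbs (decide (0 ≤ k), i)

theorem stp_stp (c c' d : ℤ[T;T⁻¹]) (v : V3 ℤ[T;T⁻¹]) (i : ℕ) : 
    stp 1 c' d (stp 1 c d v i) i = stp 1 (c + c' + d * c * c') d v i := by
  rcases i with _ | i
  · simp only [stp, V3.mk.injEq]
    refine ⟨?_, ?_, ?_, ?_, ?_⟩ <;> ring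
  · simp only [stp, V3.mk.injEq]
    refine ⟨?_, ?_, ?_, ?_, ?_⟩ <;> ring

theorem stp_zero (d : ℤ[T;T⁻¹]) (v : V3 ℤ[T;T⁻¹]) (i : ℕ) : stp 1 0 d v i = v := by
  rcases i with _ | i <;> simp [stp]

theorem nrun_rep (s : Bool) (i n : ℕ) : ∃ c : ℤ[T;T⁻¹], 1 + dB * c = (1 + dB * lc (s, i)) ^ n ∧ 
    ∀ v, nrun (List.replicate n (s, i)) v = stp 1 c dB v i := by
  induction n with
  | zero => exact ⟨0, by simp, fun v => (stp_zero _ _ _).symm⟩
  | succ n ih =>
    obtain ⟨c, hc, h⟩ := ih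
    refine ⟨lc (s, i) + c + dB * lc (s, i) * c, ?_, fun v => ?_⟩
    · rw [pow_succ, ← hc]
      ring
    · rw [List.replicate_succ, nrun, h, stp_stp]

theorem nrun_pw (i : ℕ) (k : ℤ) : ∃ c : ℤ[T;T⁻¹], 1 + dB * c = sg k * T (-2 * k) ∧ 
    ∀ v, nrun (pw i k) v = stp 1 c dB v i := by
  obtain ⟨c, hc, h⟩ := nrun_rep (decide (0 ≤ k)) i k.natAbs
  refine ⟨c, ?_, h⟩
  rw [hc]
  rcases le_or_gt 0 k with hk | hk
  · have e1 : decide (0 ≤ k) = true := decide_eq_true hk
    rw [e1]
    have e2 : (1 + dB * lc (true, i) : ℤ[T;T⁻¹]) = - T (-2) := by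
      unfold lc dB
      simp only [if_true]
      have h1 : (T 1 : ℤ[T;T⁻¹]) * T (-1) = 1 := by rw [← T_add]; simp
      have h2 : (T (-2) : ℤ[T;T⁻¹]) = T (-1) ^ 2 := by rw [T_pow]; norm_num
      rw [h2]
      linear_combination -h1
    rw [e2, neg_pow, T_pow]
    have h3 : ((k.natAbs : ℕ) : ℤ) = k := Int.natAbs_of_nonneg hk
    congr 1
    · unfold sg
      rw [neg_one_pow_eq_ite]
      congr 1
      rw [Int.natAbs_even]
    · rw [h3]
      congr 1
      ring
  · have e1 : decide (0 ≤ k) = false := decide_eq_false (by omega)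
    rw [e1]
    have e2 : (1 + dB * lc (false, i) : ℤ[T;T⁻¹]) = - T 2 := by
      unfold lc dB
      simp only [Bool.false_eq_true, if_false]
      have h1 : (T 1 : ℤ[T;T⁻¹]) * T (-1) = 1 := by rw [← T_add]; simp
      have h2 : (T 2 : ℤ[T;T⁻¹]) = T 1 ^ 2 := by rw [T_pow]; norm_num
      rw [h2]
      linear_combination -h1
    rw [e2, neg_pow, T_pow]
    have h3 : ((k.natAbs : ℕ) : ℤ) = -k := by omega
    congr 1
    · unfold sg
      rw [neg_one_pow_eq_ite]
      congr 1
      rw [Int.natAbs_even]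
    · rw [h3]
      congr 1
      ring

theorem coeff_unique {c c' u : ℤ[T;T⁻¹]} (h : 1 + dB * c = u) (h' : 1 + dB * c' = u) : c = c' := by
  apply mul_left_cancel₀ dB_ne
  linear_combination h - h'

theorem expo_pw (i : ℕ) (k : ℤ) : expo (pw i k) = k := by
  unfold expo pw
  rw [List.map_replicate, List.sum_replicate]
  rcases le_or_gt 0 k with hk | hk
  · rw [decide_eq_true hk]
    simp
    omega
  · rw [decide_eq_false (by omega)]
    simp
    have := abs_of_neg hk
    omega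

theorem vN_pw {G : Type} [Group G] (a b : G) (i : ℕ) (k : ℤ) : 
    vN a b (pw i k) = (if i = 0 then a else b) ^ k := by
  unfold vN pw
  rw [List.map_replicate, List.prod_replicate]
  rcases le_or_gt 0 k with hk | hk
  · rw [decide_eq_true hk]
    have e : vl a b (true, i) = if i = 0 then a else b := by simp [vl]
    rw [e]
    conv_rhs => rw [← Int.natAbs_of_nonneg hk, zpow_natCast]
  · rw [decide_eq_false (by omega)]
    have e : vl a b (false, i) = (if i = 0 then a else b)⁻¹ := by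
      unfold vl
      by_cases hi : i = 0 <;> simp [hi]
    rw [e, inv_pow]
    have h3 : k = -((k.natAbs : ℕ) : ℤ) := by omega
    conv_rhs => rw [h3, zpow_neg, zpow_natCast]

/-! ### the targets -/

/-- `σ_2^k σ_1^{-k}` -/
def t1 (k : ℤ) : List (Bool × ℕ) := pw 1 k ++ pw 0 (-k)

/-- `σ_1^k σ_2^{±1} σ_1^{-k}` -/
def t2 (s : Bool) (k : ℤ) : List (Bool × ℕ) := pw 0 k ++ [(s, 1)] ++ pw 0 (-k)

theorem sg_neg (k : ℤ) : sg (-k) = sg k := by
  unfold sg
  simp

theorem pair (i : ℕ) (k : ℤ) : ∃ c c' : ℤ[T;T⁻¹], 1 + dB * c = sg k * T (2 * k) ∧ 1 + dB * c' = sg k * T (-2 * k) ∧ 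
    (∀ v, nrun (pw i (-k)) v = stp 1 c dB v i) ∧ (∀ v, nrun (pw i k) v = stp 1 c' dB v i) ∧ c + c' + dB * c * c' = 0 := by
  obtain ⟨c, hc, h⟩ := nrun_pw i (-k)
  obtain ⟨c', hc', h'⟩ := nrun_pw i k
  have e : sg (-k) * T (-2 * -k) = sg k * T (2 * k) := by
    rw [sg_neg]
    congr 2
    ring
  rw [e] at hc
  refine ⟨c, c', hc, hc', h, h', ?_⟩
  have h1 : (sg k * T (2 * k)) * (sg k * T (-2 * k)) = 1 := by
    have h2 : sg k * sg k = 1 := by
      unfold sg
      split_ifs <;> ring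
    have h3 : (T (2 * k) : ℤ[T;T⁻¹]) * T (-2 * k) = 1 := by
      rw [T_mul]
      have : 2 * k + -2 * k = 0 := by ring
      rw [this, T_zero]
    linear_combination (T (2 * k) * T (-2 * k)) * h2 + h3
  rw [← hc, ← hc'] at h1
  apply mul_left_cancel₀ dB_ne
  linear_combination h1

theorem X_t1 (k : ℤ) : ∃ c c' : ℤ[T;T⁻¹], 1 + dB * c = sg k * T (2 * k) ∧ 1 + dB * c' = sg k * T (-2 * k) ∧ 
    c + c' + dB * c * c' = 0 ∧ X (t1 k) = ⟨1, c, c', 0, c' * c⟩ := by
  obtain ⟨c, c', hc, hc', h, _, hcc⟩ := pair 0 k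
  obtain ⟨b, b', hb, hb', _, h', _⟩ := pair 1 k
  refine ⟨c, c', hc, hc', hcc, ?_⟩
  have e : b' = c' := coeff_unique hb' hc'
  unfold X t1
  rw [nrun_append, h', h, e]
  simp only [stp, one, V3.mk.injEq]
  refine ⟨?_, ?_, ?_, ?_, ?_⟩ <;> ring

theorem X_t2 (s : Bool) (k : ℤ) : ∃ c c' : ℤ[T;T⁻¹], 1 + dB * c = sg k * T (2 * k) ∧ 1 + dB * c' = sg k * T (-2 * k) ∧ 
    c + c' + dB * c * c' = 0 ∧ X (t2 s k) = ⟨1, lc (s, 1) * (c' * c), lc (s, 1), lc (s, 1) * c', lc (s, 1) * c⟩ := by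
  obtain ⟨c, c', hc, hc', h, h', hcc⟩ := pair 0 k
  refine ⟨c, c', hc, hc', hcc, ?_⟩
  unfold X t2
  rw [nrun_append, nrun_append, h', h]
  simp only [nrun, stp, one, V3.mk.injEq]
  refine ⟨?_, ?_, ?_, ?_, ?_⟩
  · ring
  · linear_combination hcc
  · ring
  · ring
  · ring

theorem expo_t1 (k : ℤ) : expo (t1 k) = 0 := by
  unfold t1
  rw [expo_append, expo_pw, expo_pw]
  ring

theorem expo_t2 (s : Bool) (k : ℤ) : expo (t2 s k) = if s then 1 else -1 := by
  unfold t2
  rw [expo_append, expo_append, expo_pw, expo_pw]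
  simp [expo]

theorem S1_t1 (k : ℤ) : S1 dB (X (t1 k)) = sg (expo (t1 k)) * T (expo (t1 k)) := by
  obtain ⟨c, c', hc, hc', hcc, h⟩ := X_t1 k
  rw [h, expo_t1, S1]
  unfold sg
  rw [if_pos (by decide)]
  simp only [T_zero]
  linear_combination hcc

theorem S2_t2 (s : Bool) (k : ℤ) : S2 dB (X (t2 s k)) = sg (expo (t2 s k)) * T (expo (t2 s k)) := by
  obtain ⟨c, c', hc, hc', hcc, h⟩ := X_t2 s k
  rw [h, expo_t2, S2]
  have h1 : (T 1 : ℤ[T;T⁻¹]) * T (-1) = 1 := by rw [← T_add]; simp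
  cases s
  · unfold sg lc dB at *
    simp only [Bool.false_eq_true, if_false]
    rw [if_neg (by decide)]
    linear_combination T 1 * hcc
  · unfold sg lc dB at *
    simp only [if_true]
    rw [if_neg (by decide)]
    linear_combination T (-1) * hcc

/-! ### the main equivalences -/

/-- the words have the same value in every group with two elements which satisfy the braid relation -/
def Same (w w' : List (Bool × ℕ)) : Prop := 
  ∀ (G : Type) [Group G] (a b : G), a * b * a = b * a * b → vN a b w = vN a b w'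

theorem same_of {w w' : List (Bool × ℕ)} (h1 : X w = X w') (h2 : expo w = expo w') : Same w w' := 
  fun G _ a b h => faithful (by rw [← MM_X, ← MM_X, h1]) h2 h

theorem main1 {w : List (Bool × ℕ)} (h : S1 dB (X w) = sg (expo w) * T (expo w)) : ∃ k : ℤ, Same w (t1 k) := by
  have hD : De w = sg (expo w) * T (-2 * expo w) := De_eq w
  obtain ⟨he, k, c, c', hc, hc', hX⟩ := sol1 (X_a0 w) (by rw [← hD]; exact X_eqs w) h
  obtain ⟨b, b', hb, hb', _, hX'⟩ := X_t1 k
  refine ⟨k, same_of ?_ (by rw [he, expo_t1])⟩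
  rw [hX, hX', coeff_unique hc hb, coeff_unique hc' hb']

theorem main2 {w : List (Bool × ℕ)} (h : S2 dB (X w) = sg (expo w) * T (expo w)) : 
    ∃ (s : Bool) (k : ℤ), Same w (t2 s k) := by
  have hD : De w = sg (expo w) * T (-2 * expo w) := De_eq w
  obtain ⟨he, k, c, c', hc, hc', hX⟩ := sol2 (X_a0 w) (by rw [← hD]; exact X_eqs w) h
  rcases he with he | he
  · obtain ⟨b, b', hb, hb', _, hX'⟩ := X_t2 true k
    refine ⟨true, k, same_of ?_ (by rw [he, expo_t2]; rfl)⟩
    rw [hX, hX', coeff_unique hc hb, coeff_unique hc' hb', he]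
    rfl
  · obtain ⟨b, b', hb, hb', _, hX'⟩ := X_t2 false k
    refine ⟨false, k, same_of ?_ (by rw [he, expo_t2]; rfl)⟩
    rw [hX, hX', coeff_unique hc hb, coeff_unique hc' hb', he]
    rfl

end Pool.Agent.U963.KN
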