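import Pool.Agent.U963.AR.Loc
import Pool.Agent.U963.KN.Defs

/-!
# The bracket of the open closures
-/

set_option autoImplicit false

namespace Pool.Agent.U963.KN

open Finset LaurentPolynomial Pool.Agent.H891R2.Jones Pool.Agent.W639.RB Pool.Agent.Y463.SK Pool.Agent.Y463.MP
open Pool.Agent.TH561 (dl ee_of KK)
open Pool.Agent.U963.AR (V3 run one wZ wZ_val bracket_draw)

theorem sum_four {N : ℕ} (F : (Fin 4 → Fin N) → ℂ) : 
    ∑ col : Fin 4 → Fin N, F col = ∑ a, ∑ b, ∑ c, ∑ d, F ![a, b, c, d] := by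
  have h : ∀ {n : ℕ} (G : (Fin (n + 1) → Fin N) → ℂ), 
      ∑ col : Fin (n + 1) → Fin N, G col = ∑ a, ∑ col : Fin n → Fin N, G (Matrix.vecCons a col) := by
    intro n G
    rw [← (Fin.consEquiv (fun _ => Fin N)).sum_comp, Fintype.sum_prod_type]
    rfl
  rw [h]
  refine Finset.sum_congr rfl fun a _ => ?_
  rw [h]
  refine Finset.sum_congr rfl fun b _ => ?_
  rw [h]
  refine Finset.sum_congr rfl fun c _ => ?_
  rw [h]
  refine Finset.sum_congr rfl fun d _ => ?_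
  simp only [Finset.univ_unique, Finset.sum_singleton]
  congr

/-- the kernel of the functional -/
theorem Zg_open {N : ℕ} (A : ℂ) (p q : Fin 3) (g : (Fin 3 → Fin N) → ((Fin 3 → Fin N) → ℂ)) : 
    Zg A N (openClosure p q) g = ∑ a, ∑ b, ∑ c, ∑ d, g (![a, b, c, d] ∘ (openClosure p q).lower) 
      (![a, b, c, d] ∘ (openClosure p q).upper) := by
  unfold Zg
  rw [← sum_four (fun col => g (col ∘ (openClosure p q).lower) (col ∘ (openClosure p q).upper))]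
  refine Finset.sum_congr rfl fun col _ => ?_
  have : WW A (openClosure p q).arcs (openClosure p q).crossings col = 1 := by
    simp [WW, openClosure]
  rw [this, one_mul]
  rfl

theorem lower_eq {N : ℕ} (p q : Fin 3) (a b c d : Fin N) : 
    ![a, b, c, d] ∘ (openClosure p q).lower = ![a, b, c] := by
  funext j
  fin_cases j <;> rfl

theorem up02 {N : ℕ} (a b c d : Fin N) : ![a, b, c, d] ∘ (openClosure 0 2).upper = ![b, c, d] := by
  funext j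
  fin_cases j <;> rfl

theorem up20 {N : ℕ} (a b c d : Fin N) : ![a, b, c, d] ∘ (openClosure 2 0).upper = ![d, a, b] := by
  funext j
  fin_cases j <;> rfl

theorem up01 {N : ℕ} (a b c d : Fin N) : ![a, b, c, d] ∘ (openClosure 0 1).upper = ![b, d, c] := by
  funext j
  fin_cases j <;> rfl

theorem up10 {N : ℕ} (a b c d : Fin N) : ![a, b, c, d] ∘ (openClosure 1 0).upper = ![d, a, c] := by
  funext j
  fin_cases j <;> rfl

theorem up12 {N : ℕ} (a b c d : Fin N) : ![a, b, c, d] ∘ (openClosure 1 2).upper = ![a, c, d] := by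
  funext j
  fin_cases j <;> rfl

theorem up21 {N : ℕ} (a b c d : Fin N) : ![a, b, c, d] ∘ (openClosure 2 1).upper = ![a, d, b] := by
  funext j
  fin_cases j <;> rfl

/-! ### the five basis elements -/

section
variable {N : ℕ}

theorem ind3 (a b c a' b' c' : Fin N) : ind (![a, b, c] = ![a', b', c']) = 
    if a = a' then (if b = b' then (if c = c' then (1 : ℂ) else 0) else 0) else 0 := by
  have h : (![a, b, c] = ![a', b', c']) ↔ (a = a' ∧ b = b' ∧ c = c') := by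
    constructor
    · intro h
      exact ⟨congrFun h 0, congrFun h 1, congrFun h 2⟩
    · rintro ⟨rfl, rfl, rfl⟩
      rfl
  unfold ind
  by_cases h1 : a = a'
  · by_cases h2 : b = b'
    · by_cases h3 : c = c'
      · rw [if_pos (h.2 ⟨h1, h2, h3⟩), if_pos h1, if_pos h2, if_pos h3]
      · rw [if_neg (fun h' => h3 (h.1 h').2.2), if_pos h1, if_pos h2, if_neg h3]
    · rw [if_neg (fun h' => h2 (h.1 h').2.1), if_pos h1, if_neg h2]
  · rw [if_neg (fun h' => h1 (h.1 h').1), if_neg h1]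

theorem ee0 (g : (Fin 3 → Fin N) → ((Fin 3 → Fin N) → ℂ)) (a b c : Fin N) (y : Fin 3 → Fin N) : 
    ee 3 N ((Fin 3 → Fin N) → ℂ) 0 g ![a, b, c] y = if a = b then ∑ e, g ![e, e, c] y else 0 := by
  unfold ee
  rw [dif_pos (by norm_num)]
  rw [EE_apply]
  have h : ∀ e, upd ![a, b, c] (⟨0, by norm_num⟩ : Fin 3) ⟨0 + 1, by norm_num⟩ e = ![e, e, c] := by
    intro e
    funext j
    fin_cases j <;> rfl
  simp only [h]
  have h1 : (![a, b, c] (⟨0, by norm_num⟩ : Fin 3) = ![a, b, c] ⟨0 + 1, by norm_num⟩) = (a = b) := rfl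
  by_cases hab : a = b
  · rw [if_pos hab, if_pos (h1 ▸ hab), Finset.sum_apply]
  · rw [if_neg hab, if_neg (h1 ▸ hab)]
    rfl

theorem ee1 (g : (Fin 3 → Fin N) → ((Fin 3 → Fin N) → ℂ)) (a b c : Fin N) (y : Fin 3 → Fin N) : 
    ee 3 N ((Fin 3 → Fin N) → ℂ) 1 g ![a, b, c] y = if b = c then ∑ e, g ![a, e, e] y else 0 := by
  unfold ee
  rw [dif_pos (by norm_num)]
  rw [EE_apply]
  have h : ∀ e, upd ![a, b, c] (⟨1, by norm_num⟩ : Fin 3) ⟨1 + 1, by norm_num⟩ e = ![a, e, e] := by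
    intro e
    funext j
    fin_cases j <;> rfl
  simp only [h]
  have h1 : (![a, b, c] (⟨1, by norm_num⟩ : Fin 3) = ![a, b, c] ⟨1 + 1, by norm_num⟩) = (b = c) := rfl
  by_cases hab : b = c
  · rw [if_pos hab, if_pos (h1 ▸ hab), Finset.sum_apply]
  · rw [if_neg hab, if_neg (h1 ▸ hab)]
    rfl

end

/-- the value of the functional on the element with the coefficients `v` -/
theorem PhiS_val (O : Outer 3) (v : V3 ℤ[T;T⁻¹]) {c0 c1 c2 c3 c4 : ℤ[T;T⁻¹]} 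
    (h0 : PhiS (by omega) O 1 = c0) (h1 : PhiS (by omega) O (EZ 3 0) = c1)
    (h2 : PhiS (by omega) O (EZ 3 1) = c2) (h3 : PhiS (by omega) O (EZ 3 0 * EZ 3 1) = c3)
    (h4 : PhiS (by omega) O (EZ 3 1 * EZ 3 0) = c4) : 
    PhiS (by omega) O (AR.val (EZ 3) v) = c0 * v.a0 + c1 * v.a1 + c2 * v.a2 + c3 * v.a3 + c4 * v.a4 := by
  unfold AR.val
  simp only [map_add, map_smul, smul_eq_mul, h0, h1, h2, h3, h4]
  ring

/-- the value at `N` -/
theorem PhiS_at (O : Outer 3) (b : TLZ 3) (c : ℤ[T;T⁻¹]) 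
    (h : ∀ N (hN : 3 ≤ N), Zg (Ar N) N O ((b.1 ⟨N, hN⟩) (fun x y => ind (x = y))) = (N : ℂ) * ev N hN c) : 
    PhiS (by omega) O b = c := by
  apply ev_unique
  intro N
  rw [PhiS_spec]
  exact h N.1 N.2

theorem ev_dl' (N : ℕ) (hN : 3 ≤ N) : ev N hN dl = (N : ℂ) := Pool.Agent.TH561.ev_dl N hN

section
variable (N : ℕ) (hN : 3 ≤ N) (x y : Fin 3 → Fin N)

theorem B1 (g : (Fin 3 → Fin N) → ((Fin 3 → Fin N) → ℂ)) : 
    (((1 : TLZ 3) : BB 3) ⟨N, hN⟩) g x y = g x y := rfl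

theorem B0 (g : (Fin 3 → Fin N) → ((Fin 3 → Fin N) → ℂ)) : 
    (((EZ 3 0 : TLZ 3) : BB 3) ⟨N, hN⟩) g x y = ee 3 N ((Fin 3 → Fin N) → ℂ) 0 g x y := rfl

theorem B2 (g : (Fin 3 → Fin N) → ((Fin 3 → Fin N) → ℂ)) : 
    (((EZ 3 1 : TLZ 3) : BB 3) ⟨N, hN⟩) g x y = ee 3 N ((Fin 3 → Fin N) → ℂ) 1 g x y := rfl

theorem B3 (g : (Fin 3 → Fin N) → ((Fin 3 → Fin N) → ℂ)) : 
    (((EZ 3 0 * EZ 3 1 : TLZ 3) : BB 3) ⟨N, hN⟩) g x y = 
      ee 3 N ((Fin 3 → Fin N) → ℂ) 0 (ee 3 N ((Fin 3 → Fin N) → ℂ) 1 g) x y := rfl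

theorem B4 (g : (Fin 3 → Fin N) → ((Fin 3 → Fin N) → ℂ)) : 
    (((EZ 3 1 * EZ 3 0 : TLZ 3) : BB 3) ⟨N, hN⟩) g x y = 
      ee 3 N ((Fin 3 → Fin N) → ℂ) 1 (ee 3 N ((Fin 3 → Fin N) → ℂ) 0 g) x y := rfl

end

theorem v02 : PhiS (by omega) (openClosure 0 2) 1 = 1 ∧ PhiS (by omega) (openClosure 0 2) (EZ 3 0) = 1 ∧
    PhiS (by omega) (openClosure 0 2) (EZ 3 1) = 1 ∧ PhiS (by omega) (openClosure 0 2) (EZ 3 0 * EZ 3 1) = 1 ∧
    PhiS (by omega) (openClosure 0 2) (EZ 3 1 * EZ 3 0) = dl := by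
  refine ⟨PhiS_at _ _ _ fun N hN => ?_, PhiS_at _ _ _ fun N hN => ?_, PhiS_at _ _ _ fun N hN => ?_, 
    PhiS_at _ _ _ fun N hN => ?_, PhiS_at _ _ _ fun N hN => ?_⟩
  all_goals
    rw [Zg_open]
    simp only [lower_eq, up02, B1, B0, B2, B3, B4, ee0, ee1, ind3, map_one, ev_dl', mul_one]
    simp [Finset.sum_ite_eq, Finset.sum_ite_eq']

theorem v20 : PhiS (by omega) (openClosure 2 0) 1 = 1 ∧ PhiS (by omega) (openClosure 2 0) (EZ 3 0) = 1 ∧
    PhiS (by omega) (openClosure 2 0) (EZ 3 1) = 1 ∧ PhiS (by omega) (openClosure 2 0) (EZ 3 0 * EZ 3 1) = dl ∧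
    PhiS (by omega) (openClosure 2 0) (EZ 3 1 * EZ 3 0) = 1 := by
  refine ⟨PhiS_at _ _ _ fun N hN => ?_, PhiS_at _ _ _ fun N hN => ?_, PhiS_at _ _ _ fun N hN => ?_, 
    PhiS_at _ _ _ fun N hN => ?_, PhiS_at _ _ _ fun N hN => ?_⟩
  all_goals
    rw [Zg_open]
    simp only [lower_eq, up20, B1, B0, B2, B3, B4, ee0, ee1, ind3, map_one, ev_dl', mul_one]
    simp [Finset.sum_ite_eq, Finset.sum_ite_eq']

theorem v01 : PhiS (by omega) (openClosure 0 1) 1 = dl ∧ PhiS (by omega) (openClosure 0 1) (EZ 3 0) = dl ∧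
    PhiS (by omega) (openClosure 0 1) (EZ 3 1) = 1 ∧ PhiS (by omega) (openClosure 0 1) (EZ 3 0 * EZ 3 1) = 1 ∧
    PhiS (by omega) (openClosure 0 1) (EZ 3 1 * EZ 3 0) = 1 := by
  refine ⟨PhiS_at _ _ _ fun N hN => ?_, PhiS_at _ _ _ fun N hN => ?_, PhiS_at _ _ _ fun N hN => ?_, 
    PhiS_at _ _ _ fun N hN => ?_, PhiS_at _ _ _ fun N hN => ?_⟩
  all_goals
    rw [Zg_open]
    simp only [lower_eq, up01, B1, B0, B2, B3, B4, ee0, ee1, ind3, map_one, ev_dl', mul_one]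
    simp [Finset.sum_ite_eq, Finset.sum_ite_eq']

theorem v10 : PhiS (by omega) (openClosure 1 0) 1 = dl ∧ PhiS (by omega) (openClosure 1 0) (EZ 3 0) = dl ∧
    PhiS (by omega) (openClosure 1 0) (EZ 3 1) = 1 ∧ PhiS (by omega) (openClosure 1 0) (EZ 3 0 * EZ 3 1) = 1 ∧
    PhiS (by omega) (openClosure 1 0) (EZ 3 1 * EZ 3 0) = 1 := by
  refine ⟨PhiS_at _ _ _ fun N hN => ?_, PhiS_at _ _ _ fun N hN => ?_, PhiS_at _ _ _ fun N hN => ?_, 
    PhiS_at _ _ _ fun N hN => ?_, PhiS_at _ _ _ fun N hN => ?_⟩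
  all_goals
    rw [Zg_open]
    simp only [lower_eq, up10, B1, B0, B2, B3, B4, ee0, ee1, ind3, map_one, ev_dl', mul_one]
    simp [Finset.sum_ite_eq, Finset.sum_ite_eq']

theorem v12 : PhiS (by omega) (openClosure 1 2) 1 = dl ∧ PhiS (by omega) (openClosure 1 2) (EZ 3 0) = 1 ∧
    PhiS (by omega) (openClosure 1 2) (EZ 3 1) = dl ∧ PhiS (by omega) (openClosure 1 2) (EZ 3 0 * EZ 3 1) = 1 ∧
    PhiS (by omega) (openClosure 1 2) (EZ 3 1 * EZ 3 0) = 1 := by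
  refine ⟨PhiS_at _ _ _ fun N hN => ?_, PhiS_at _ _ _ fun N hN => ?_, PhiS_at _ _ _ fun N hN => ?_, 
    PhiS_at _ _ _ fun N hN => ?_, PhiS_at _ _ _ fun N hN => ?_⟩
  all_goals
    rw [Zg_open]
    simp only [lower_eq, up12, B1, B0, B2, B3, B4, ee0, ee1, ind3, map_one, ev_dl', mul_one]
    simp [Finset.sum_ite_eq, Finset.sum_ite_eq']

theorem v21 : PhiS (by omega) (openClosure 2 1) 1 = dl ∧ PhiS (by omega) (openClosure 2 1) (EZ 3 0) = 1 ∧
    PhiS (by omega) (openClosure 2 1) (EZ 3 1) = dl ∧ PhiS (by omega) (openClosure 2 1) (EZ 3 0 * EZ 3 1) = 1 ∧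
    PhiS (by omega) (openClosure 2 1) (EZ 3 1 * EZ 3 0) = 1 := by
  refine ⟨PhiS_at _ _ _ fun N hN => ?_, PhiS_at _ _ _ fun N hN => ?_, PhiS_at _ _ _ fun N hN => ?_, 
    PhiS_at _ _ _ fun N hN => ?_, PhiS_at _ _ _ fun N hN => ?_⟩
  all_goals
    rw [Zg_open]
    simp only [lower_eq, up21, B1, B0, B2, B3, B4, ee0, ee1, ind3, map_one, ev_dl', mul_one]
    simp [Finset.sum_ite_eq, Finset.sum_ite_eq']

/-! ### the functionals -/

section
variable {R : Type*} [CommRing R]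

def S1 (d : R) (v : V3 R) : R := v.a0 + v.a1 + v.a2 + v.a3 + d * v.a4
def S2 (d : R) (v : V3 R) : R := d * v.a0 + d * v.a1 + v.a2 + v.a3 + v.a4

/-- exchange of the two generators -/
def V3.sw (v : V3 R) : V3 R := ⟨v.a0, v.a2, v.a1, v.a4, v.a3⟩

end

theorem bracket_run (O : Outer 3) (w : List (Bool × ℕ)) (hw : ∀ x ∈ w, x.2 + 1 < 3) : 
    (draw O w).close.bracket = PhiS (by omega) O (AR.val (EZ 3) (run (T 1) (T (-1)) dl w (one ℤ[T;T⁻¹]))) := by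
  rw [bracket_draw w O hw, wZ_val w hw]

theorem b02 (w : List (Bool × ℕ)) (hw : ∀ x ∈ w, x.2 + 1 < 3) : 
    (draw (openClosure 0 2) w).close.bracket = S1 dl (run (T 1) (T (-1)) dl w (one ℤ[T;T⁻¹])) := by
  obtain ⟨h0, h1, h2, h3, h4⟩ := v02
  rw [bracket_run _ w hw, PhiS_val _ _ h0 h1 h2 h3 h4, S1]
  ring

theorem b20 (w : List (Bool × ℕ)) (hw : ∀ x ∈ w, x.2 + 1 < 3) : 
    (draw (openClosure 2 0) w).close.bracket = S1 dl (V3.sw (run (T 1) (T (-1)) dl w (one ℤ[T;T⁻¹]))) := by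
  obtain ⟨h0, h1, h2, h3, h4⟩ := v20
  rw [bracket_run _ w hw, PhiS_val _ _ h0 h1 h2 h3 h4, S1, V3.sw]
  ring

theorem b01 (w : List (Bool × ℕ)) (hw : ∀ x ∈ w, x.2 + 1 < 3) : 
    (draw (openClosure 0 1) w).close.bracket = S2 dl (run (T 1) (T (-1)) dl w (one ℤ[T;T⁻¹])) := by
  obtain ⟨h0, h1, h2, h3, h4⟩ := v01
  rw [bracket_run _ w hw, PhiS_val _ _ h0 h1 h2 h3 h4, S2]
  ring

theorem b10 (w : List (Bool × ℕ)) (hw : ∀ x ∈ w, x.2 + 1 < 3) : 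
    (draw (openClosure 1 0) w).close.bracket = S2 dl (run (T 1) (T (-1)) dl w (one ℤ[T;T⁻¹])) := by
  obtain ⟨h0, h1, h2, h3, h4⟩ := v10
  rw [bracket_run _ w hw, PhiS_val _ _ h0 h1 h2 h3 h4, S2]
  ring

theorem b12 (w : List (Bool × ℕ)) (hw : ∀ x ∈ w, x.2 + 1 < 3) : 
    (draw (openClosure 1 2) w).close.bracket = S2 dl (V3.sw (run (T 1) (T (-1)) dl w (one ℤ[T;T⁻¹]))) := by
  obtain ⟨h0, h1, h2, h3, h4⟩ := v12
  rw [bracket_run _ w hw, PhiS_val _ _ h0 h1 h2 h3 h4, S2, V3.sw]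
  ring

theorem b21 (w : List (Bool × ℕ)) (hw : ∀ x ∈ w, x.2 + 1 < 3) : 
    (draw (openClosure 2 1) w).close.bracket = S2 dl (V3.sw (run (T 1) (T (-1)) dl w (one ℤ[T;T⁻¹]))) := by
  obtain ⟨h0, h1, h2, h3, h4⟩ := v21
  rw [bracket_run _ w hw, PhiS_val _ _ h0 h1 h2 h3 h4, S2, V3.sw]
  ring

/-! ### the writhe -/

theorem writhe_open (p q : Fin 3) (w : List (Bool × ℕ)) (hw : ∀ x ∈ w, x.2 + 1 < 3) : 
    (draw (openClosure p q) w).close.writhe = expo w := by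
  rw [close_writhe, (draw_up w (openClosure p q) hw (fun _ => rfl)).2]
  have : owr (openClosure p q) = 0 := rfl
  rw [this, zero_add]

end Pool.Agent.U963.KN
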