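import Pool.Agent.U963.KN.Conv

/-!
# The statement for words in the letters of the braid group
-/

set_option autoImplicit false

namespace Pool.Agent.U963.KN

open Finset LaurentPolynomial Pool.Agent.H891R2.Jones Pool.Agent.W639.RB Pool.Agent.Y463.SK Pool.Agent.Y463.MP
open Pool.Agent.H832R3.TW (IsKnotoid)
open Pool.Agent.H297.FT (KGood KGood_push knotoid_iff)

theorem base_knotoid (p q : Fin 3) : IsKnotoid (openClosure p q).close := by
  refine ⟨(p.castSucc : Fin 4), (Fin.last 3 : Fin 4), ?_, ?_⟩
  · show (p.castSucc : Fin 4) ≠ Fin.last 3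
    exact Fin.castSucc_ne_last p
  · intro x
    change Fin 4 at x
    fin_cases p <;> fin_cases q <;> fin_cases x <;> decide

theorem kgood_draw {m : ℕ} (v : Fin m → Bool) (w : List (Bool × ℕ)) : ∀ (O : Outer m), 
    KGood O v → KGood (draw O w) v := by
  induction w with
  | nil => intro O h; exact h
  | cons x w ih =>
    intro O h
    exact ih _ (KGood_push O v x.1 x.2 h)

theorem all_knotoid (p q : Fin 3) (w : List (Letter 3)) : IsKnotoid (dia (openClosure p q) w) := by
  unfold dia
  set w' := w.map (fun x => (x.1, (x.2 : ℕ))) with hw'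
  have hlt : ∀ x ∈ w', x.2 + 1 < 3 := by
    intro x hx
    obtain ⟨y, _, rfl⟩ := List.mem_map.1 hx
    show (y.2 : ℕ) + 1 < 3
    omega
  rw [knotoid_iff]
  have h1 := (knotoid_iff _).1 (base_knotoid p q)
  have h2 : (draw (openClosure p q) w').up = (openClosure p q).up := by
    funext j
    rw [(draw_up w' (openClosure p q) hlt (fun _ => rfl)).1]
    rfl
  rw [h2]
  exact kgood_draw _ w' _ h1

theorem value_eq {G : Type} [Group G] (a b : G) (w : List (Letter 3)) : 
    value a b w = vN a b (w.map (fun x => (x.1, (x.2 : ℕ)))) := by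
  unfold value vN
  rw [List.map_map]
  rfl

theorem toN_lt (w : List (Letter 3)) : ∀ x ∈ w.map (fun x => (x.1, (x.2 : ℕ))), x.2 + 1 < 3 := by
  intro x hx
  obtain ⟨y, _, rfl⟩ := List.mem_map.1 hx
  show (y.2 : ℕ) + 1 < 3
  omega

/-- values of powers -/
theorem value_append {G : Type} [Group G] (a b : G) (w w' : List (Letter 3)) : 
    value a b (w ++ w') = value a b w * value a b w' := by
  simp [value]

theorem value_rep {G : Type} [Group G] (a b : G) (w : List (Letter 3)) (n : ℕ) : 
    value a b (List.replicate n w).flatten = value a b w ^ n := by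
  induction n with
  | zero => simp [value]
  | succ n ih => rw [List.replicate_succ, List.flatten_cons, value_append, ih, pow_succ']

theorem value_one {G : Type} [Group G] (a b : G) (x : Letter 3) : 
    value a b [x] = if (x.2 : ℕ) = 0 then (if x.1 then a else a⁻¹) else (if x.1 then b else b⁻¹) := by
  unfold value
  rw [List.map_cons, List.map_nil, List.prod_cons, List.prod_nil, mul_one]

theorem value_inv {G : Type} [Group G] (a b : G) (w : List (Letter 3)) : 
    value a b (invW w) = (value a b w)⁻¹ := by
  induction w with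
  | nil => simp [value, invW]
  | cons x w ih =>
    have e1 : invW (x :: w) = invW w ++ [(!x.1, x.2)] := by simp [invW]
    have e2 : value a b (x :: w) = value a b [x] * value a b w := by
      rw [← value_append]
      rfl
    rw [e1, value_append, ih, e2, mul_inv_rev, value_one, value_one]
    congr 1
    obtain ⟨s, i⟩ := x
    show (if (i : ℕ) = 0 then (if (!s) = true then a else a⁻¹) else (if (!s) = true then b else b⁻¹)) = 
      (if (i : ℕ) = 0 then (if s = true then a else a⁻¹) else (if s = true then b else b⁻¹))⁻¹
    by_cases h : (i : ℕ) = 0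
    · rw [if_pos h, if_pos h]
      cases s
      · simp
      · simp
    · rw [if_neg h, if_neg h]
      cases s
      · simp
      · simp

theorem value_powW {G : Type} [Group G] (a b : G) (w : List (Letter 3)) (n : ℤ) : 
    value a b (powW w n) = value a b w ^ n := by
  cases n with
  | ofNat n =>
    show value a b (List.replicate n w).flatten = value a b w ^ ((n : ℕ) : ℤ)
    rw [value_rep, zpow_natCast]
  | negSucc n =>
    show value a b (List.replicate (n + 1) (invW w)).flatten = _
    rw [value_rep, value_inv, zpow_negSucc, inv_pow]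

theorem value_s1 {G : Type} [Group G] (a b : G) (s : Bool) : 
    value a b ([(s, 0)] : List (Letter 3)) = if s then a else a⁻¹ := by
  rw [value_one]
  rfl

theorem value_s2 {G : Type} [Group G] (a b : G) (s : Bool) : 
    value a b ([(s, 1)] : List (Letter 3)) = if s then b else b⁻¹ := by
  rw [value_one]
  rfl

theorem Same_iff (w : List (Letter 3)) {u : List (Bool × ℕ)} {u' : List (Letter 3)} 
    (h : ∀ (G : Type) [Group G] (a b : G), vN a b u = value a b u') : 
    Same (w.map (fun x => (x.1, (x.2 : ℕ)))) u ↔ SameBraid w u' := by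
  unfold Same SameBraid
  constructor
  · intro H G _ a b hab
    rw [value_eq, H G a b hab, h]
  · intro H G _ a b hab
    rw [← value_eq, H G a b hab, h]

theorem t1_value (k : ℤ) (G : Type) [Group G] (a b : G) : 
    vN a b (t1 k) = value a b (powW ([(true, 1)] : List (Letter 3)) k ++ powW [(true, 0)] (-k)) := by
  unfold t1
  rw [vN_append, vN_pw, vN_pw, value_append, value_powW, value_powW, value_s1, value_s2]
  simp

theorem t2_value (s : Bool) (k : ℤ) (G : Type) [Group G] (a b : G) : 
    vN a b (t2 s k) = value a b (powW ([(true, 0)] : List (Letter 3)) k ++ [(s, 1)] ++ powW [(true, 0)] (-k)) := by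
  have e : vN a b [(s, 1)] = if s then b else b⁻¹ := by
    unfold vN vl
    cases s <;> simp
  unfold t2
  rw [vN_append, vN_append, vN_pw, vN_pw, value_append, value_append, value_powW, value_powW, value_s1, value_s2, e]
  simp

theorem t1_value' (k : ℤ) (G : Type) [Group G] (a b : G) : 
    vN a b (swp (t1 k)) = value a b (powW ([(true, 0)] : List (Letter 3)) k ++ powW [(true, 1)] (-k)) := by
  rw [vN_swp a b _ (t1_lt k), t1_value, value_append, value_append, value_powW, value_powW, value_powW, value_powW, 
    value_s1, value_s2, value_s1, value_s2]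

theorem t2_value' (s : Bool) (k : ℤ) (G : Type) [Group G] (a b : G) : 
    vN a b (swp (t2 s k)) = value a b (powW ([(true, 1)] : List (Letter 3)) k ++ [(s, 0)] ++ powW [(true, 1)] (-k)) := by
  rw [vN_swp a b _ (t2_lt s k), t2_value, value_append, value_append, value_append, value_append, value_powW, value_powW, 
    value_powW, value_powW, value_s1, value_s2, value_s1, value_s2]

theorem D02 (w : List (Letter 3)) : (dia (openClosure 0 2) w).fPoly = 1 ↔ 
    ∃ k : ℤ, SameBraid w (powW [(true, 1)] k ++ powW [(true, 0)] (-k)) := by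
  unfold dia
  rw [f02 _ (toN_lt w)]
  exact exists_congr fun k => Same_iff w (t1_value k)

theorem D20 (w : List (Letter 3)) : (dia (openClosure 2 0) w).fPoly = 1 ↔ 
    ∃ k : ℤ, SameBraid w (powW [(true, 0)] k ++ powW [(true, 1)] (-k)) := by
  unfold dia
  rw [f20 _ (toN_lt w)]
  exact exists_congr fun k => Same_iff w (t1_value' k)

theorem D01 (w : List (Letter 3)) : (dia (openClosure 0 1) w).fPoly = 1 ↔ 
    ∃ (s : Bool) (k : ℤ), SameBraid w (powW [(true, 0)] k ++ [(s, 1)] ++ powW [(true, 0)] (-k)) := by
  unfold dia
  rw [f01 _ (toN_lt w)]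
  exact exists_congr fun s => exists_congr fun k => Same_iff w (t2_value s k)

theorem D10 (w : List (Letter 3)) : (dia (openClosure 1 0) w).fPoly = 1 ↔ 
    ∃ (s : Bool) (k : ℤ), SameBraid w (powW [(true, 0)] k ++ [(s, 1)] ++ powW [(true, 0)] (-k)) := by
  unfold dia
  rw [f10 _ (toN_lt w)]
  exact exists_congr fun s => exists_congr fun k => Same_iff w (t2_value s k)

theorem D12 (w : List (Letter 3)) : (dia (openClosure 1 2) w).fPoly = 1 ↔ 
    ∃ (s : Bool) (k : ℤ), SameBraid w (powW [(true, 1)] k ++ [(s, 0)] ++ powW [(true, 1)] (-k)) := by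
  unfold dia
  rw [f12 _ (toN_lt w)]
  exact exists_congr fun s => exists_congr fun k => Same_iff w (t2_value' s k)

theorem D21 (w : List (Letter 3)) : (dia (openClosure 2 1) w).fPoly = 1 ↔ 
    ∃ (s : Bool) (k : ℤ), SameBraid w (powW [(true, 1)] k ++ [(s, 0)] ++ powW [(true, 1)] (-k)) := by
  unfold dia
  rw [f21 _ (toN_lt w)]
  exact exists_congr fun s => exists_congr fun k => Same_iff w (t2_value' s k)

end Pool.Agent.U963.KN
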