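import Pool.Agent.U963.KN.Norm

/-!
# The two-dimensional representation is unitary
-/

set_option autoImplicit false

namespace Pool.Agent.U963.KN

open Finset LaurentPolynomial Pool.Agent.H891R2.Jones Pool.Agent.W639.RB Pool.Agent.Y463.SK Pool.Agent.Y463.MP
open Pool.Agent.U963.AR (V3 run one stp)

theorem nrun_append (w w' : List (Bool × ℕ)) : ∀ v, nrun (w ++ w') v = nrun w' (nrun w v) := by
  induction w with
  | nil => intro v; rfl
  | cons x w ih => intro v; exact ih _

theorem stp_a0' (c d : ℤ[T;T⁻¹]) (v : V3 ℤ[T;T⁻¹]) (i : ℕ) : (stp 1 c d v i).a0 = v.a0 := by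
  rw [AR.stp_a0, one_mul]

theorem nrun_a0 (w : List (Bool × ℕ)) : ∀ v, (nrun w v).a0 = v.a0 := by
  induction w with
  | nil => intro v; rfl
  | cons x w ih => intro v; rw [nrun, ih, stp_a0']

/-- the matrix -/
def MM {R : Type*} [CommRing R] (d : R) (v : V3 R) : Matrix (Fin 2) (Fin 2) R := 
  !![v.a0 + d * v.a1 + v.a3, v.a1 + d * v.a3; v.a2 + d * v.a4, v.a0 + d * v.a2 + v.a4]

/-- the matrix of `1 + c e_i` -/
def LL {R : Type*} [CommRing R] (d c : R) (i : ℕ) : Matrix (Fin 2) (Fin 2) R := 
  match i with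
  | 0 => !![1 + c * d, c; 0, 1]
  | _ => !![1, 0; c, 1 + c * d]

theorem MM_stp {R : Type*} [CommRing R] (d c : R) (v : V3 R) (i : ℕ) : 
    MM d (stp 1 c d v i) = MM d v * LL d c i := by
  rcases i with _ | i
  · refine Matrix.ext fun i j => ?_
    fin_cases i <;> fin_cases j <;> simp [MM, stp, LL, Matrix.mul_apply, Fin.sum_univ_two] <;> ring
  · refine Matrix.ext fun i j => ?_
    fin_cases i <;> fin_cases j <;> simp [MM, stp, LL, Matrix.mul_apply, Fin.sum_univ_two] <;> ring

/-- the matrix of a word -/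
noncomputable def mw (w : List (Bool × ℕ)) : Matrix (Fin 2) (Fin 2) ℤ[T;T⁻¹] := 
  (w.map fun x => LL dB (lc x) x.2).prod

theorem MM_nrun (w : List (Bool × ℕ)) : ∀ v, MM dB (nrun w v) = MM dB v * mw w := by
  induction w with
  | nil => intro v; simp [nrun, mw]
  | cons x w ih =>
    intro v
    rw [nrun, ih, MM_stp]
    simp [mw, mul_assoc]

/-- the coefficients of a word -/
noncomputable def X (w : List (Bool × ℕ)) : V3 ℤ[T;T⁻¹] := nrun w (one ℤ[T;T⁻¹])

theorem X_a0 (w : List (Bool × ℕ)) : (X w).a0 = 1 := by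
  unfold X
  rw [nrun_a0]
  rfl

theorem MM_X (w : List (Bool × ℕ)) : MM dB (X w) = mw w := by
  unfold X
  rw [MM_nrun]
  have : MM dB (one ℤ[T;T⁻¹]) = 1 := by
    refine Matrix.ext fun i j => ?_
    fin_cases i <;> fin_cases j <;> simp [MM, one]
  rw [this, one_mul]

theorem lc_mul (x : Bool × ℕ) : lc x * ba (lc x) = 1 := by
  unfold lc
  split_ifs
  · rw [ba_T, ← T_add]; simp
  · rw [ba_T, ← T_add]; simp

theorem lc_add (x : Bool × ℕ) : lc x + ba (lc x) = - dB := by
  unfold lc dB
  split_ifs
  · rw [ba_T]; ring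
  · rw [ba_T]; ring

/-- the form -/
noncomputable def JJ : Matrix (Fin 2) (Fin 2) ℤ[T;T⁻¹] := !![dB, 1; 1, dB]

/-- the adjoint -/
noncomputable def ad (M : Matrix (Fin 2) (Fin 2) ℤ[T;T⁻¹]) : Matrix (Fin 2) (Fin 2) ℤ[T;T⁻¹] := (M.map ba).transpose

theorem ad_mul (M N : Matrix (Fin 2) (Fin 2) ℤ[T;T⁻¹]) : ad (M * N) = ad N * ad M := by
  unfold ad
  rw [Matrix.map_mul, Matrix.transpose_mul]

theorem LL_unitary (x : Bool × ℕ) : ad (LL dB (lc x) x.2) * JJ * LL dB (lc x) x.2 = JJ := by
  have h1 := lc_mul x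
  have h2 := lc_add x
  have h3 := ba_dB
  generalize lc x = c at *
  generalize x.2 = i at *
  unfold ad JJ
  generalize hb : ba c = c' at *
  generalize hd : dB = d at *
  rcases i with _ | i
  · refine Matrix.ext fun i j => ?_
    fin_cases i <;> fin_cases j <;> simp [LL, Matrix.mul_apply, Fin.sum_univ_two, hb, h3]
    · linear_combination d ^ 3 * h1 + d ^ 2 * h2
    · linear_combination d ^ 2 * h1 + d * h2
    · linear_combination d ^ 2 * h1 + d * h2
    · linear_combination d * h1 + h2
  · refine Matrix.ext fun i j => ?_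
    fin_cases i <;> fin_cases j <;> simp [LL, Matrix.mul_apply, Fin.sum_univ_two, hb, h3]
    · linear_combination d * h1 + h2
    · linear_combination d ^ 2 * h1 + d * h2
    · linear_combination d ^ 2 * h1 + d * h2
    · linear_combination d ^ 3 * h1 + d ^ 2 * h2

theorem mw_unitary (w : List (Bool × ℕ)) : ad (mw w) * JJ * mw w = JJ := by
  induction w with
  | nil =>
    have : ad (1 : Matrix (Fin 2) (Fin 2) ℤ[T;T⁻¹]) = 1 := by
      unfold ad
      rw [Matrix.map_one _ (map_zero _) (map_one _), Matrix.transpose_one]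
    simp [mw, this]
  | cons x w ih =>
    have e : mw (x :: w) = LL dB (lc x) x.2 * mw w := by simp [mw]
    rw [e, ad_mul]
    have : ad (mw w) * ad (LL dB (lc x) x.2) * JJ * (LL dB (lc x) x.2 * mw w) = 
        ad (mw w) * (ad (LL dB (lc x) x.2) * JJ * LL dB (lc x) x.2) * mw w := by
      simp only [mul_assoc]
    rw [this, LL_unitary, ih]

/-- the conjugate coefficients -/
noncomputable def star (v : V3 ℤ[T;T⁻¹]) : V3 ℤ[T;T⁻¹] := ⟨ba v.a0, ba v.a1, ba v.a2, ba v.a4, ba v.a3⟩

theorem JJ_star (v : V3 ℤ[T;T⁻¹]) : JJ * MM dB (star v) = ad (MM dB v) * JJ := by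
  have h3 := ba_dB
  unfold ad MM JJ star
  generalize hd : dB = d at *
  refine Matrix.ext fun i j => ?_
  fin_cases i <;> fin_cases j <;> simp [Matrix.mul_apply, Fin.sum_univ_two, h3] <;> ring

/-- the determinant -/
noncomputable def De (w : List (Bool × ℕ)) : ℤ[T;T⁻¹] := (w.map fun x => - (lc x) ^ 2).prod

theorem det_mw (w : List (Bool × ℕ)) : (mw w).det = De w := by
  induction w with
  | nil => simp [mw, De]
  | cons x w ih =>
    have e : mw (x :: w) = LL dB (lc x) x.2 * mw w := by simp [mw]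
    have e' : De (x :: w) = - (lc x) ^ 2 * De w := by simp [De]
    rw [e, e', Matrix.det_mul, ih]
    congr 1
    have h1 := lc_mul x
    have h2 := lc_add x
    generalize x.2 = i
    rcases i with _ | i
    · rw [Matrix.det_fin_two]
      simp [LL]
      linear_combination lc x * h2 - h1
    · rw [Matrix.det_fin_two]
      simp [LL]
      linear_combination lc x * h2 - h1

theorem De_eq (w : List (Bool × ℕ)) : De w = (if Even (expo w) then 1 else -1) * T (-2 * expo w) := by
  induction w with
  | nil => simp [De, expo]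
  | cons x w ih =>
    have e : expo (x :: w) = (if x.1 then 1 else -1) + expo w := by simp [expo]
    have e' : De (x :: w) = - (lc x) ^ 2 * De w := by simp [De]
    rw [e, e', ih]
    cases hx : x.1 with
    | true =>
      simp only [if_true]
      have h1 : Even (1 + expo w) ↔ ¬ Even (expo w) := by
        rw [Int.even_add]
        simp
      have h2 : (lc x) ^ 2 = (T (-2) : ℤ[T;T⁻¹]) := by
        unfold lc
        rw [hx, if_pos rfl, T_pow]
        norm_num
      have h3 : (T (-2 * (1 + expo w)) : ℤ[T;T⁻¹]) = T (-2) * T (-2 * expo w) := by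
        rw [← T_add]
        congr 1
        ring
      rw [h2, h3]
      by_cases h : Even (expo w)
      · rw [if_pos h, if_neg (by rw [h1]; simpa using h)]
        ring
      · rw [if_neg h, if_pos (h1.2 h)]
        ring
    | false =>
      simp only [Bool.false_eq_true, if_false]
      have h1 : Even (-1 + expo w) ↔ ¬ Even (expo w) := by
        rw [Int.even_add]
        simp
      have h2 : (lc x) ^ 2 = (T 2 : ℤ[T;T⁻¹]) := by
        unfold lc
        rw [hx, if_neg (by simp), T_pow]
        norm_num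
      have h3 : (T (-2 * (-1 + expo w)) : ℤ[T;T⁻¹]) = T 2 * T (-2 * expo w) := by
        rw [← T_add]
        congr 1
        ring
      rw [h2, h3]
      by_cases h : Even (expo w)
      · rw [if_pos h, if_neg (by rw [h1]; simpa using h)]
        ring
      · rw [if_neg h, if_pos (h1.2 h)]
        ring

end Pool.Agent.U963.KN
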