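import Pool.Agent.U963.AR.Sharp
import Pool.Agent.U963.KN.Fun

/-!
# The normalised coefficients, with `B = A²`
-/

set_option autoImplicit false

namespace Pool.Agent.U963.KN

open Finset LaurentPolynomial Pool.Agent.H891R2.Jones Pool.Agent.W639.RB Pool.Agent.Y463.SK Pool.Agent.Y463.MP
open Pool.Agent.TH561 (dl)
open Pool.Agent.U963.AR (V3 run one stp)

/-! ### ring homomorphisms -/

/-- evaluation at a unit -/
noncomputable def evu {R : Type*} [CommRing R] (u : Rˣ) : ℤ[T;T⁻¹] →+* R := 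
  LaurentPolynomial.eval₂ (Int.castRingHom R) u

theorem evu_T {R : Type*} [CommRing R] (u : Rˣ) (n : ℤ) : evu u (T n) = ((u ^ n : Rˣ) : R) := by
  unfold evu
  rw [LaurentPolynomial.eval₂_T]

theorem hom_ext {R : Type*} [CommRing R] {f g : ℤ[T;T⁻¹] →+* R} (h : ∀ n : ℤ, f (T n) = g (T n)) : f = g := by
  apply RingHom.ext
  intro x
  induction x using LaurentPolynomial.induction_on' with
  | add p q hp hq => rw [map_add, map_add, hp, hq]
  | C_mul_T n a =>
    rw [map_mul, map_mul, h n]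
    have : (C a : ℤ[T;T⁻¹]) = (a : ℤ[T;T⁻¹]) := by simp
    rw [this, map_intCast, map_intCast]

/-- the unit `T n` -/
noncomputable def tU (n : ℤ) : (ℤ[T;T⁻¹])ˣ := ⟨T n, T (-n), by rw [← T_add]; simp, by rw [← T_add]; simp⟩

theorem tU_zpow (a n : ℤ) : (((tU a) ^ n : (ℤ[T;T⁻¹])ˣ) : ℤ[T;T⁻¹]) = T (a * n) := by
  have key : ∀ (a : ℤ) (n : ℕ), (((tU a) ^ n : (ℤ[T;T⁻¹])ˣ) : ℤ[T;T⁻¹]) = T (a * n) := by
    intro a n
    rw [Units.val_pow_eq_pow_val]
    show (T a : ℤ[T;T⁻¹]) ^ n = _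
    rw [T_pow, mul_comm]
  obtain ⟨n, rfl | rfl⟩ := n.eq_nat_or_neg
  · rw [zpow_natCast, key]
  · rw [zpow_neg, zpow_natCast]
    have h1 : (tU a)⁻¹ = tU (-a) := by
      ext : 1
      rfl
    rw [← inv_pow, h1, key]
    congr 1
    ring

/-- `B ↦ A²` -/
noncomputable def io : ℤ[T;T⁻¹] →+* ℤ[T;T⁻¹] := evu (tU 2)

theorem io_T (n : ℤ) : io (T n) = T (2 * n) := by
  unfold io
  rw [evu_T, tU_zpow]

theorem io_inj : Function.Injective io := by
  rw [injective_iff_map_eq_zero]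
  intro f hf
  by_contra h0
  obtain ⟨φ, h⟩ := AR.sharp f h0
  have h1 : (AR.evc (φ / 2)).comp io = AR.evc φ := by
    apply hom_ext
    intro n
    rw [RingHom.comp_apply, io_T]
    show AR.evc (φ / 2) (T (2 * n)) = AR.evc φ (T n)
    rw [AR.evc_T, AR.evc_T, zpow_mul]
    congr 1
    have : (φ : ℝ) = φ / 2 + φ / 2 := by ring
    have h2 : ((Circle.exp φ : Circle) : ℂ) = (Circle.exp (φ / 2) : Circle) * (Circle.exp (φ / 2) : Circle) := by
      conv_lhs => rw [this, Circle.exp_add]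
      exact Circle.coe_mul _ _
    rw [h2, zpow_ofNat, pow_two]
  rw [← h1, RingHom.comp_apply, hf, map_zero, norm_zero] at h
  linarith

/-- `B ↦ -B` -/
noncomputable def th : ℤ[T;T⁻¹] →+* ℤ[T;T⁻¹] := evu (-(tU 1))

theorem th_T (n : ℤ) : th (T n) = (if Even n then 1 else -1) * T n := by
  unfold th
  rw [evu_T]
  split_ifs with h
  · rw [h.neg_zpow, tU_zpow]; simp
  · rw [(Int.not_even_iff_odd.1 h).neg_zpow, Units.val_neg, tU_zpow]; simp

/-- `B ↦ B⁻¹` -/
noncomputable def ba : ℤ[T;T⁻¹] →+* ℤ[T;T⁻¹] := (LaurentPolynomial.invert (R := ℤ)).toRingEquiv.toRingHom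

theorem ba_T (n : ℤ) : ba (T n) = T (-n) := by
  unfold ba
  simp

theorem ba_ba (x : ℤ[T;T⁻¹]) : ba (ba x) = x := by
  have : ba.comp ba = RingHom.id _ := by
    apply hom_ext
    intro n
    rw [RingHom.comp_apply, ba_T, ba_T, neg_neg]
    rfl
  exact congrArg (fun f : ℤ[T;T⁻¹] →+* ℤ[T;T⁻¹] => f x) this

/-! ### normalised coefficients -/

/-- `d = -B - B⁻¹` -/
noncomputable def dB : ℤ[T;T⁻¹] := -T 1 - T (-1)

theorem ba_dB : ba dB = dB := by
  unfold dB
  rw [map_sub, map_neg, ba_T, ba_T]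
  simp only [neg_neg]
  ring

theorem th_dB : th dB = -dB := by
  unfold dB
  rw [map_sub, map_neg, th_T, th_T, if_neg (by decide), if_neg (by decide)]
  ring

theorem io_dB : io dB = dl := by
  unfold dB
  rw [map_sub, map_neg, io_T, io_T, Pool.Agent.U963.JN.dl_eq, T_pow, T_pow]
  norm_num

/-- the coefficient of a letter -/
noncomputable def lc (x : Bool × ℕ) : ℤ[T;T⁻¹] := if x.1 then T (-1) else T 1

/-- the coefficients of `v w`, the letters being normalised to `1 + B^{∓1} e_i` -/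
noncomputable def nrun : List (Bool × ℕ) → V3 ℤ[T;T⁻¹] → V3 ℤ[T;T⁻¹]
  | [], v => v
  | x :: w, v => nrun w (stp 1 (lc x) dB v x.2)

/-- multiple -/
def sc {R : Type*} [CommRing R] (r : R) (v : V3 R) : V3 R := ⟨r * v.a0, r * v.a1, r * v.a2, r * v.a3, r * v.a4⟩

theorem sc_stp {R : Type*} [CommRing R] (r u u' d : R) (v : V3 R) (i : ℕ) : 
    stp u u' d (sc r v) i = sc r (stp u u' d v i) := by
  unfold stp sc
  split <;> simp only [V3.mk.injEq] <;> refine ⟨?_, ?_, ?_, ?_, ?_⟩ <;> ring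

theorem stp_sc {R : Type*} [CommRing R] (r u u' d : R) (v : V3 R) (i : ℕ) : 
    stp (r * u) (r * u') d v i = sc r (stp u u' d v i) := by
  unfold stp sc
  split <;> simp only [V3.mk.injEq] <;> refine ⟨?_, ?_, ?_, ?_, ?_⟩ <;> ring

theorem sc_sc {R : Type*} [CommRing R] (r s : R) (v : V3 R) : sc r (sc s v) = sc (r * s) v := by
  unfold sc
  simp only [V3.mk.injEq]
  refine ⟨?_, ?_, ?_, ?_, ?_⟩ <;> ring

theorem run_nrun (w : List (Bool × ℕ)) : ∀ (v : V3 ℤ[T;T⁻¹]) (c : ℤ), 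
    run (T 1) (T (-1)) dl w (sc (T c) (v.map io)) = sc (T (c + expo w)) ((nrun w v).map io) := by
  induction w with
  | nil => intro v c; simp [run, nrun, expo]
  | cons x w ih =>
    intro v c
    have e : expo (x :: w) = (if x.1 then 1 else -1) + expo w := by simp [expo]
    rw [run, nrun, e]
    have h2 : (T (-1) : ℤ[T;T⁻¹]) = T 1 * T (-2) := by rw [← T_add]; norm_num
    have h3 : (T 1 : ℤ[T;T⁻¹]) = T (-1) * T 2 := by rw [← T_add]; norm_num
    cases hx : x.1 with
    | true =>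
      simp only [if_true]
      have h1 : stp (T 1) (T (-1)) dl (sc (T c) (v.map io)) x.2 = 
          sc (T (c + 1)) ((stp 1 (lc x) dB v x.2).map io) := by
        rw [sc_stp]
        conv_lhs => rw [h2, show (T 1 : ℤ[T;T⁻¹]) = T 1 * 1 by rw [mul_one]]
        rw [mul_one, show (stp (T 1) (T 1 * T (-2)) dl (v.map io) x.2) = 
          stp (T 1 * 1) (T 1 * T (-2)) dl (v.map io) x.2 by rw [mul_one], stp_sc, sc_sc, AR.map_stp, map_one, io_dB, 
          ← T_add]
        unfold lc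
        rw [hx, if_pos rfl, io_T]
        norm_num
      rw [h1, ih, add_assoc]
    | false =>
      simp only [Bool.false_eq_true, if_false]
      have h1 : stp (T (-1)) (T 1) dl (sc (T c) (v.map io)) x.2 = 
          sc (T (c + -1)) ((stp 1 (lc x) dB v x.2).map io) := by
        rw [sc_stp, show (stp (T (-1)) (T 1) dl (v.map io) x.2) = 
          stp (T (-1) * 1) (T (-1) * T 2) dl (v.map io) x.2 by rw [mul_one, ← h3], stp_sc, sc_sc, AR.map_stp, map_one, io_dB, 
          ← T_add]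
        unfold lc
        rw [hx, if_neg (by simp), io_T]
        norm_num
      rw [h1, ih, add_assoc]

end Pool.Agent.U963.KN
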