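import Pool.Agent.U963.KN.Eqs

/-!
# The solutions of the equations
-/

set_option autoImplicit false

namespace Pool.Agent.U963.KN

open Finset LaurentPolynomial Pool.Agent.H891R2.Jones Pool.Agent.W639.RB Pool.Agent.Y463.SK Pool.Agent.Y463.MP
open Pool.Agent.U963.AR (V3 run one stp)

theorem T_mul (a b : ℤ) : (T a * T b : ℤ[T;T⁻¹]) = T (a + b) := (T_add a b).symm

theorem T_ne (n : ℤ) : (T n : ℤ[T;T⁻¹]) ≠ 0 := by
  intro h
  have := congrArg e1 h
  rw [e1_T, map_zero] at this
  exact one_ne_zero this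

theorem two_ne : (2 : ℤ[T;T⁻¹]) ≠ 0 := by
  intro h
  have := congrArg e1 h
  rw [map_ofNat, map_zero] at this
  norm_num at this

/-- `B = 2` -/
noncomputable def e2 : ℤ[T;T⁻¹] →+* ℚ := evu (Units.mk0 2 (by norm_num))

theorem e2_T (n : ℤ) : e2 (T n) = 2 ^ n := by
  unfold e2
  rw [evu_T]
  simp

theorem T_eq_one {n : ℤ} (h : (T n : ℤ[T;T⁻¹]) = 1) : n = 0 := by
  have := congrArg e2 h
  rw [e2_T, map_one] at this
  exact (zpow_eq_one_iff_right₀ (by norm_num) (by norm_num)).1 this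

/-- `B = i` -/
noncomputable def eI : ℤ[T;T⁻¹] →+* ℂ := evu (Units.mk0 Complex.I Complex.I_ne_zero)

theorem eI_T (n : ℤ) : eI (T n) = Complex.I ^ n := by
  unfold eI
  rw [evu_T]
  simp

theorem eI_dB : eI dB = 0 := by
  unfold dB
  rw [map_sub, map_neg, eI_T, eI_T]
  simp

/-- units of norm one -/
theorem unit_form {x : ℤ[T;T⁻¹]} (h : x * ba x = 1) : ∃ n : ℤ, x = T n ∨ x = - T n := by
  obtain ⟨n, P, hP⟩ := LaurentPolynomial.exists_T_pow x
  obtain ⟨m, Q, hQ⟩ := LaurentPolynomial.exists_T_pow (ba x)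
  have h1 : Polynomial.toLaurent (P * Q) = Polynomial.toLaurent (Polynomial.X ^ (n + m)) := by
    rw [map_mul, hP, hQ, Polynomial.toLaurent_X_pow]
    have : x * T n * (ba x * T m) = (x * ba x) * (T n * T m) := by ring
    rw [this, h, one_mul, T_mul]
    push_cast
    rfl
  have h2 := Polynomial.toLaurent_injective h1
  have h3 : P ∣ Polynomial.X ^ (n + m) := ⟨Q, h2.symm⟩
  obtain ⟨i, _, hi⟩ := (dvd_prime_pow Polynomial.prime_X _).1 h3
  obtain ⟨v, hv⟩ := hi.symm
  have h4 : IsUnit (v : Polynomial ℤ) := v.isUnit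
  obtain ⟨r, hr, hr'⟩ := Polynomial.isUnit_iff.1 h4
  have h5 : x * T n = T i * LaurentPolynomial.C r := by
    rw [← hP, ← hv, ← hr', map_mul, Polynomial.toLaurent_X_pow, Polynomial.toLaurent_C]
  have h6 : x = T (i - n) * LaurentPolynomial.C r := by
    have h7 : x = x * T n * T (-n) := by
      rw [mul_assoc, T_mul]
      simp
    rw [h7, h5, mul_right_comm, T_mul]
    rfl
  refine ⟨i - n, ?_⟩
  rcases Int.isUnit_iff.1 hr with rfl | rfl
  · left
    rw [h6]
    simp
  · right
    rw [h6]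
    simp

/-- the units which occur -/
theorem unit_form' {c : ℤ[T;T⁻¹]} (h : (1 + dB * c) * ba (1 + dB * c) = 1) (ht : th c = - c) : 
    ∃ k : ℤ, 1 + dB * c = (if Even k then 1 else -1) * T (2 * k) := by
  obtain ⟨n, hn⟩ := unit_form h
  have h1 : th (1 + dB * c) = 1 + dB * c := by
    rw [map_add, map_mul, map_one, ht, th_dB]
    ring
  have h2 : Even n := by
    by_contra hno
    rcases hn with hn | hn
    · rw [hn, th_T, if_neg hno] at h1
      have : (2 : ℤ[T;T⁻¹]) * T n = 0 := by linear_combination -h1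
      exact (mul_ne_zero two_ne (T_ne n)) this
    · rw [hn, map_neg, th_T, if_neg hno] at h1
      have : (2 : ℤ[T;T⁻¹]) * T n = 0 := by linear_combination h1
      exact (mul_ne_zero two_ne (T_ne n)) this
  obtain ⟨k, rfl⟩ := h2
  have h3 : eI (1 + dB * c) = 1 := by
    rw [map_add, map_mul, map_one, eI_dB, zero_mul, add_zero]
  have h4 : Complex.I ^ (k + k) = (if Even k then 1 else -1 : ℂ) := by
    rw [← two_mul, zpow_mul]
    have : Complex.I ^ (2 : ℤ) = -1 := by
      rw [zpow_ofNat, Complex.I_sq]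
    rw [this]
    split_ifs with hk
    · exact hk.neg_one_zpow
    · exact (Int.not_even_iff_odd.1 hk).neg_one_zpow
  refine ⟨k, ?_⟩
  rw [two_mul]
  rcases hn with hn | hn
  · rw [hn, eI_T, h4] at h3
    split_ifs at h3 with hk
    · rw [if_pos hk, one_mul, hn]
    · norm_num at h3
  · rw [hn, map_neg, eI_T, h4] at h3
    split_ifs at h3 with hk
    · norm_num at h3
    · rw [if_neg hk, hn]
      ring

end Pool.Agent.U963.KN
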