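import Pool.Agent.U963.KN.Sol

/-!
# The solutions for the two functionals
-/

set_option autoImplicit false

namespace Pool.Agent.U963.KN

open Finset LaurentPolynomial Pool.Agent.H891R2.Jones Pool.Agent.W639.RB Pool.Agent.Y463.SK Pool.Agent.Y463.MP
open Pool.Agent.U963.AR (V3 run one stp)

/-- the sign `(-1)^e` -/
noncomputable def sg (e : ℤ) : ℤ[T;T⁻¹] := if Even e then 1 else -1

theorem e1_ba (x : ℤ[T;T⁻¹]) : e1 (ba x) = e1 x := by
  have : e1.comp ba = e1 := by
    apply hom_ext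
    intro n
    rw [RingHom.comp_apply, ba_T, e1_T, e1_T]
  exact congrArg (fun f : ℤ[T;T⁻¹] →+* ℤ => f x) this

theorem e1_dB : e1 dB = -2 := by
  unfold dB
  rw [map_sub, map_neg, e1_T, e1_T]
  norm_num

theorem norm_one {c c' : ℤ[T;T⁻¹]} (hc : ba c = c') (h : c + c' + dB * c * c' = 0) : 
    (1 + dB * c) * ba (1 + dB * c) = 1 := by
  rw [map_add, map_mul, map_one, ba_dB, hc]
  linear_combination dB * h

theorem mk_eq {v : V3 ℤ[T;T⁻¹]} {a b c d e : ℤ[T;T⁻¹]} (h0 : v.a0 = a) (h1 : v.a1 = b) (h2 : v.a2 = c) 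
    (h3 : v.a3 = d) (h4 : v.a4 = e) : v = ⟨a, b, c, d, e⟩ := by
  cases v
  simp only at h0 h1 h2 h3 h4
  subst h0 h1 h2 h3 h4
  rfl

/-- the first functional -/
theorem sol1 {e : ℤ} {v : V3 ℤ[T;T⁻¹]} (h0 : v.a0 = 1) (h : Eqs (sg e * T (-2 * e)) v) (hS : S1 dB v = sg e * T e) : 
    e = 0 ∧ ∃ k : ℤ, ∃ c c' : ℤ[T;T⁻¹], 1 + dB * c = sg k * T (2 * k) ∧ 1 + dB * c' = sg k * T (-2 * k) ∧
      v = ⟨1, c, c', 0, c' * c⟩ := by
  obtain ⟨h1, h2, h3, h4, h5, t1, t2, t3, t4⟩ := h
  have hth : 1 - v.a1 - v.a2 + v.a3 - dB * v.a4 = T e := by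
    have := congrArg th hS
    unfold S1 at this
    simp only [map_add, map_mul, h0, map_one, t1, t2, t3, t4, th_dB, th_T] at this
    have e1' : th (sg e) * ((if Even e then 1 else -1) * T e) = T e := by
      unfold sg
      split_ifs <;> simp
    rw [e1'] at this
    linear_combination this
  unfold S1 at hS
  rw [h0] at hS
  by_cases he : Even e
  · have hs : sg e = 1 := by unfold sg; rw [if_pos he]
    rw [hs, one_mul] at hS h1 h2 h3 h4 h5
    have q1 : 1 + v.a3 = T e := by
      apply mul_left_cancel₀ two_ne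
      linear_combination hS + hth
    have q2 : v.a1 + v.a2 + dB * v.a4 = 0 := by
      apply mul_left_cancel₀ two_ne
      linear_combination hS - hth
    have q1' : 1 + ba v.a3 = T (-e) := by
      have := congrArg ba q1
      rwa [map_add, map_one, ba_T] at this
    have q2' : ba v.a1 + ba v.a2 + dB * ba v.a4 = 0 := by
      have := congrArg ba q2
      rwa [map_add, map_add, map_mul, ba_dB, map_zero] at this
    have hu : (T e : ℤ[T;T⁻¹]) * T (-e) = 1 := by rw [T_mul]; simp
    have hD : (T (-2 * e) : ℤ[T;T⁻¹]) = T (-e) ^ 2 := by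
      rw [T_pow]
      congr 1
      push_cast
      ring
    rw [hD] at h1 h2 h3 h4 h5
    -- `u'^2 d (u' - 1) = - d (u - 1)`
    have q3 : dB * (T (-e) ^ 2 * (T (-e) - 1) + (T e - 1)) = 0 := by
      linear_combination h3 + h4 - dB * T (-e) ^ 2 * q1' - dB * q1 - q2 - T (-e) ^ 2 * q2'
    have q4 : (T (-e) : ℤ[T;T⁻¹]) ^ 2 * (T (-e) - 1) + (T e - 1) = 0 := by
      rcases mul_eq_zero.1 q3 with h | h
      · exact absurd h dB_ne
      · exact h
    have q5 : ((T e : ℤ[T;T⁻¹]) - 1) * (T (3 * e) - 1) = 0 := by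
      have e3 : (T (3 * e) : ℤ[T;T⁻¹]) = T e ^ 3 := by
        rw [T_pow]; norm_num
      rw [e3]
      linear_combination T e ^ 3 * q4 - ((T e ^ 2 * T (-e) ^ 2 + T e * T (-e) + 1) - T e * (T e * T (-e) + 1)) * hu
    have he0 : e = 0 := by
      rcases mul_eq_zero.1 q5 with h | h
      · exact T_eq_one (sub_eq_zero.1 h)
      · have := T_eq_one (sub_eq_zero.1 h)
        omega
    subst he0
    refine ⟨rfl, ?_⟩
    simp only [neg_zero, T_zero, one_pow, one_mul] at h1 h2 h3 h4 h5 q1 q1' 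
    have a3 : v.a3 = 0 := by linear_combination q1
    have b3 : ba v.a3 = 0 := by linear_combination q1'
    have g1 : v.a2 = ba v.a1 := by
      have h6 := congrArg ba h3
      simp only [map_add, map_mul, map_neg, ba_ba, ba_dB] at h6
      linear_combination q2 - h6 + dB * b3
    have g2 : dB * v.a4 = - v.a1 - ba v.a1 := by linear_combination q2 - g1
    have h5' : (1 + dB * v.a1) * (1 + dB * ba v.a1 + v.a4) + v.a1 ^ 2 = 1 := by
      linear_combination h5 - ((1 + dB * v.a2 + v.a4) - dB * (v.a2 + dB * v.a4)) * a3 - (1 + dB * v.a1) * dB * g1 + 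
        v.a1 * q2
    have g3 : (dB ^ 2 - 1) * (v.a1 + ba v.a1 + dB * v.a1 * ba v.a1) = 0 := by
      linear_combination dB * h5' - (1 + dB * v.a1) * g2
    have g4 : v.a1 + ba v.a1 + dB * v.a1 * ba v.a1 = 0 := by
      rcases mul_eq_zero.1 g3 with h | h
      · exact absurd h dB_sq_ne
      · exact h
    have g5 := norm_one rfl g4
    obtain ⟨k, hk⟩ := unit_form' g5 t1
    refine ⟨k, v.a1, ba v.a1, hk, ?_, ?_⟩
    · have := congrArg ba hk
      rw [map_add, map_mul, map_one, ba_dB, map_mul, ba_T] at this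
      rw [this]
      congr 1
      · unfold sg
        split_ifs <;> simp
      · congr 1
        ring
    · have g6 : v.a4 = ba v.a1 * v.a1 := by
        apply mul_left_cancel₀ dB_ne
        linear_combination g2 - g4
      exact mk_eq h0 rfl g1 a3 g6
  · exfalso
    have hs : sg e = -1 := by unfold sg; rw [if_neg he]
    rw [hs] at hS h1 h2 h3 h4 h5
    have k1 := congrArg e1 h1
    have k2 := congrArg e1 hS
    have k3 := congrArg e1 hth
    have k4 := congrArg e1 h3
    simp only [map_add, map_mul, map_neg, map_one, e1_T, e1_ba, e1_dB, map_sub, h0] at k1 k2 k3 k4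
    omega

/-- the exponents -/
theorem exps {e : ℤ} (h : (T 2 + T (-2) : ℤ[T;T⁻¹]) * (T e + T (-e)) = (T 1 + T (-1)) * (T (2 * e) + T (-2 * e))) : 
    e = 1 ∨ e = -1 := by
  have h1 := congrArg e2 h
  simp only [map_mul, map_add, e2_T] at h1
  have hp : (0 : ℚ) < 2 ^ e := by positivity
  have h2 : (2 : ℚ) ^ (-e) = (2 ^ e)⁻¹ := zpow_neg _ _
  have h3 : (2 : ℚ) ^ (2 * e) = (2 ^ e) ^ 2 := by
    rw [mul_comm, zpow_mul]
    norm_cast
  have h4 : (2 : ℚ) ^ (-2 * e) = ((2 ^ e)⁻¹) ^ 2 := by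
    rw [show (-2 * e) = (-e) * 2 by ring, zpow_mul, h2]
    norm_cast
  rw [h2, h3, h4] at h1
  have h5 : (2 : ℚ) ^ e * (2 ^ e)⁻¹ = 1 := mul_inv_cancel₀ hp.ne'
  have hq : (0 : ℚ) < (2 ^ e)⁻¹ := by positivity
  have h6 : ((2 : ℚ) ^ e = 2) ∨ ((2 : ℚ) ^ e = 2 ^ (-1 : ℤ)) := by
    generalize (2 : ℚ) ^ e = z at *
    generalize z⁻¹ = z' at *
    norm_num at h1
    have h7 : (2 * (z + z') - 5) * (5 * (z + z') + 4) = 0 := by linear_combination (-4) * h1 + 20 * h5
    have h8 : 2 * (z + z') - 5 = 0 := by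
      rcases mul_eq_zero.1 h7 with h | h
      · exact h
      · nlinarith
    have h9 : (z - 2) * (2 * z - 1) = 0 := by linear_combination z * h8 - 2 * h5
    rcases mul_eq_zero.1 h9 with h | h
    · left; linarith
    · right; norm_num; linarith
  rcases h6 with h6 | h6
  · left
    have : (2 : ℚ) ^ e = 2 ^ (1 : ℤ) := by rw [h6]; norm_num
    exact zpow_right_injective₀ (by norm_num) (by norm_num) this
  · right
    exact zpow_right_injective₀ (by norm_num) (by norm_num) h6

/-- the second functional -/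
theorem sol2 {e : ℤ} {v : V3 ℤ[T;T⁻¹]} (h0 : v.a0 = 1) (h : Eqs (sg e * T (-2 * e)) v) (hS : S2 dB v = sg e * T e) : 
    (e = 1 ∨ e = -1) ∧ ∃ k : ℤ, ∃ c c' : ℤ[T;T⁻¹], 1 + dB * c = sg k * T (2 * k) ∧ 1 + dB * c' = sg k * T (-2 * k) ∧
      v = ⟨1, T (-e) * (c' * c), T (-e), T (-e) * c', T (-e) * c⟩ := by
  obtain ⟨h1, h2, h3, h4, h5, t1, t2, t3, t4⟩ := h
  have hth : - dB + dB * v.a1 - v.a2 + v.a3 + v.a4 = T e := by
    have := congrArg th hS
    unfold S2 at this
    simp only [map_add, map_mul, h0, map_one, t1, t2, t3, t4, th_dB, th_T] at this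
    have e1' : th (sg e) * ((if Even e then 1 else -1) * T e) = T e := by
      unfold sg
      split_ifs <;> simp
    rw [e1'] at this
    linear_combination this
  unfold S2 at hS
  rw [h0] at hS
  have hu : (T e : ℤ[T;T⁻¹]) * T (-e) = 1 := by rw [T_mul]; simp
  have hD : (T (-2 * e) : ℤ[T;T⁻¹]) = T (-e) ^ 2 := by
    rw [T_pow]
    congr 1
    push_cast
    ring
  by_cases he : Even e
  · exfalso
    have hs : sg e = 1 := by unfold sg; rw [if_pos he]
    rw [hs, one_mul] at hS h1 h2 h3 h4 h5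
    have k2 := congrArg e1 hS
    have k3 := congrArg e1 hth
    have k1 := congrArg e1 h2
    have k4 := congrArg e1 h4
    have k5 := congrArg e1 h1
    simp only [map_add, map_mul, map_neg, map_one, e1_T, e1_ba, e1_dB] at k1 k2 k3 k4 k5
    omega
  · have hs : sg e = -1 := by unfold sg; rw [if_neg he]
    rw [hs] at hS h1 h2 h3 h4 h5
    rw [hD] at h1 h2 h3 h4 h5
    have q1 : dB * v.a1 + v.a3 + v.a4 = 0 := by
      apply mul_left_cancel₀ two_ne
      linear_combination hS + hth
    have q2 : v.a2 = - T e - dB := by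
      apply mul_left_cancel₀ two_ne
      linear_combination hS - hth
    have q1' : dB * ba v.a1 + ba v.a3 + ba v.a4 = 0 := by
      have := congrArg ba q1
      rwa [map_add, map_add, map_mul, ba_dB, map_zero] at this
    have q2' : ba v.a2 = - T (-e) - dB := by
      have := congrArg ba q2
      rwa [map_sub, map_neg, ba_T, ba_dB] at this
    have r1 : - T (-e) ^ 2 * (1 - ba v.a3) = 1 - dB * T e - dB ^ 2 + v.a4 := by
      linear_combination h1 + dB * q2 + T (-e) ^ 2 * q1'
    have r2 : - T (-e) ^ 2 * (1 - dB * T (-e) - dB ^ 2 + ba v.a3) = 1 - v.a4 := by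
      linear_combination h2 + dB * T (-e) ^ 2 * q2' + q1
    have hee : e = 1 ∨ e = -1 := by
      apply exps
      have hd : dB ^ 2 - 2 = (T 2 + T (-2) : ℤ[T;T⁻¹]) := by
        have := dB_sq
        linear_combination this
      have hd' : - dB = (T 1 + T (-1) : ℤ[T;T⁻¹]) := by unfold dB; ring
      have h2e : (T (2 * e) : ℤ[T;T⁻¹]) = T e ^ 2 := by
        rw [T_pow]; norm_num
      rw [← hd, ← hd', hD, h2e]
      linear_combination T e * (r1 + r2) + (2 * T (-e) - dB * T (-e) ^ 2 - dB ^ 2 * T (-e)) * hu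
    refine ⟨hee, ?_⟩
    have hb : dB = - T e - T (-e) := by
      unfold dB
      rcases hee with rfl | rfl
      · rfl
      · rw [neg_neg]; ring
    have q3 : v.a2 = T (-e) := by rw [q2, hb]; ring
    have e5 : dB * T (-e) = -1 - T (-e) ^ 2 := by
      rw [hb]
      linear_combination -hu
    have e6 : 1 - dB * T (-e) - dB ^ 2 = - T e ^ 2 := by
      rw [hb]
      linear_combination -hu
    have s1 : v.a4 = T (-e) ^ 2 * ba v.a3 := by
      linear_combination r2 + T (-e) ^ 2 * e6 - (T e * T (-e) + 1) * hu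
    have s2 : v.a3 = T (-e) ^ 2 * ba v.a4 := by
      have h6 := congrArg ba s1
      simp only [map_mul, map_pow, ba_T, ba_ba, neg_neg] at h6
      rw [h6]
      linear_combination (-(T e * T (-e) + 1) * v.a3) * hu
    have w1 : 1 + dB * v.a1 + v.a3 = 1 - v.a4 := by linear_combination q1
    have w2 : 1 + dB * v.a2 + v.a4 = v.a4 - T (-e) ^ 2 := by
      rw [q3]
      linear_combination e5
    have w3 : dB * (v.a1 + dB * v.a3) = - v.a4 + (dB ^ 2 - 1) * v.a3 := by linear_combination q1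
    have w4 : v.a2 + dB * v.a4 = T (-e) + dB * v.a4 := by rw [q3]
    have h5' : dB * ((1 - v.a4) * (v.a4 - T (-e) ^ 2)) - (- v.a4 + (dB ^ 2 - 1) * v.a3) * (T (-e) + dB * v.a4) = 
        - dB * T (-e) ^ 2 := by
      linear_combination dB * h5 - dB * (1 + dB * v.a2 + v.a4) * w1 - dB * (1 - v.a4) * w2 + (v.a2 + dB * v.a4) * w3 + 
        (- v.a4 + (dB ^ 2 - 1) * v.a3) * w4
    have s6 : (dB ^ 2 - 1) * (T (-e) * v.a4 + v.a3 * (T (-e) + dB * v.a4)) = 0 := by
      linear_combination - h5' + v.a4 * dB * e5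
    have s7 : T (-e) * v.a4 + v.a3 * (T (-e) + dB * v.a4) = 0 := by
      rcases mul_eq_zero.1 s6 with h | h
      · exact absurd h dB_sq_ne
      · exact h
    obtain ⟨c, hc⟩ : ∃ c, c = T e * v.a4 := ⟨_, rfl⟩
    have c4 : v.a4 = T (-e) * c := by
      rw [hc]
      linear_combination (- v.a4) * hu
    have cb : ba c = T (-e) * ba v.a4 := by rw [hc, map_mul, ba_T]
    have c3 : v.a3 = T (-e) * ba c := by
      rw [cb, s2]
      ring
    have s8 : c + ba c + dB * c * ba c = 0 := by
      rw [c3, c4] at s7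
      have hu2 : (T e : ℤ[T;T⁻¹]) ^ 2 * T (-e) ^ 2 = 1 := by
        linear_combination (T e * T (-e) + 1) * hu
      linear_combination T e ^ 2 * s7 - (c + ba c + dB * c * ba c) * hu2
    have tc : th c = - c := by
      rw [hc, map_mul, t4, th_T, if_neg he]
      ring
    obtain ⟨k, hk⟩ := unit_form' (norm_one rfl s8) tc
    refine ⟨k, c, ba c, hk, ?_, ?_⟩
    · have := congrArg ba hk
      rw [map_add, map_mul, map_one, ba_dB, map_mul, ba_T] at this
      rw [this]
      congr 1
      · unfold sg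
        split_ifs <;> simp
      · congr 1
        ring
    · have g6 : v.a1 = T (-e) * (ba c * c) := by
        apply mul_left_cancel₀ dB_ne
        linear_combination q1 - c3 - c4 - T (-e) * s8
      exact mk_eq h0 g6 q3 c3 c4

end Pool.Agent.U963.KN
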