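import Pool.Agent.U963.KN.SolA
import Pool.Agent.U963.AR.Sharp

/-!
# The solutions for the functional of the closures with crossings between the closing arcs
-/

set_option autoImplicit false

namespace Pool.Agent.U963.KN

open Finset LaurentPolynomial Pool.Agent.H891R2.Jones Pool.Agent.W639.RB Pool.Agent.Y463.SK Pool.Agent.Y463.MP
open Pool.Agent.U963.AR (V3 run one stp)

/-- units -/
theorem unit_form2 {x y : ℤ[T;T⁻¹]} {m : ℤ} (h : x * y = T m) : ∃ n : ℤ, x = T n ∨ x = - T n := by
  obtain ⟨n, P, hP⟩ := LaurentPolynomial.exists_T_pow x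
  obtain ⟨q, Q, hQ⟩ := LaurentPolynomial.exists_T_pow (y * T (-m))
  have h1 : Polynomial.toLaurent (P * Q) = Polynomial.toLaurent (Polynomial.X ^ (n + q)) := by
    rw [map_mul, hP, hQ, Polynomial.toLaurent_X_pow]
    have : x * T n * (y * T (-m) * T q) = (x * y) * T (-m) * (T n * T q) := by ring
    rw [this, h, T_mul, T_mul, add_neg_cancel, T_zero, one_mul]
    push_cast
    rfl
  have h2 := Polynomial.toLaurent_injective h1
  have h3 : P ∣ Polynomial.X ^ (n + q) := ⟨Q, h2.symm⟩
  obtain ⟨i, _, hi⟩ := (dvd_prime_pow Polynomial.prime_X _).1 h3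
  obtain ⟨v, hv⟩ := hi.symm
  have h4 : IsUnit (v : Polynomial ℤ) := v.isUnit
  obtain ⟨r, hr, hr'⟩ := Polynomial.isUnit_iff.1 h4
  have h5 : x * T n = T i * LaurentPolynomial.C r := by
    rw [← hP, ← hv, ← hr', map_mul, Polynomial.toLaurent_X_pow, Polynomial.toLaurent_C]
  have h6 : x = T (i - n) * LaurentPolynomial.C r := by
    have h7 : x = x * T n * T (-n) := by
      rw [mul_assoc, T_mul]
      simp
    rw [h7, h5, mul_right_comm, T_mul]
    rfl
  refine ⟨i - n, ?_⟩
  rcases Int.isUnit_iff.1 hr with rfl | rfl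
  · left
    rw [h6]
    simp
  · right
    rw [h6]
    simp

/-- the functional -/
def S3 {R : Type*} [CommRing R] (d c : R) (v : V3 R) : R := 
  (d ^ 2 * v.a0 + d * v.a1 + d * v.a2 + v.a3 + v.a4) + c * (d * v.a0 + v.a1 + v.a2 + v.a3 + v.a4)

theorem pow_cases {j k : ℤ} (h : (5 / 2 : ℚ) * 2 ^ j = 21 / 4 - 2 ^ (-2 * k)) : (k = 1 ∨ k = -1) ∧ j = k := by
  have mono : ∀ {a b : ℤ}, a ≤ b → (2 : ℚ) ^ a ≤ 2 ^ b := fun h => zpow_le_zpow_right₀ (by norm_num) h
  have inj : ∀ {a b : ℤ}, (2 : ℚ) ^ a = 2 ^ b → a = b := fun h => zpow_right_injective₀ (by norm_num) (by norm_num) h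
  have p1 : (0 : ℚ) < 2 ^ j := by positivity
  have p2 : (0 : ℚ) < 2 ^ (-2 * k) := by positivity
  have hj : j ≤ 1 := by
    by_contra hc
    have := mono (show (2 : ℤ) ≤ j by omega)
    norm_num at this
    linarith
  have hk : -2 * k ≤ 2 := by
    by_contra hc
    have := mono (show (3 : ℤ) ≤ -2 * k by omega)
    norm_num at this
    norm_num at h
    linarith
  rcases eq_or_lt_of_le hj with rfl | hj
  · have h2 : (2 : ℚ) ^ (-2 * k) = 2 ^ (-2 : ℤ) := by
      norm_num at h ⊢
      linarith
    have := inj h2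
    exact ⟨Or.inl (by omega), by omega⟩
  · have h3 := mono (show j ≤ 0 by omega)
    rw [zpow_zero] at h3
    have h4 : 1 < -2 * k := by
      by_contra hc
      have := mono (show -2 * k ≤ 1 by omega)
      rw [zpow_one] at this
      linarith
    have h5 : k = -1 := by omega
    subst h5
    have h6 : (2 : ℚ) ^ j = 2 ^ (-1 : ℤ) := by
      norm_num at h ⊢
      linarith
    exact ⟨Or.inr rfl, inj h6⟩

theorem evc_ba (φ : ℝ) (x : ℤ[T;T⁻¹]) : AR.evc φ (ba x) = (starRingEnd ℂ) (AR.evc φ x) := by
  have : (AR.evc φ).comp ba = (starRingEnd ℂ).comp (AR.evc φ) := by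
    apply hom_ext
    intro n
    rw [RingHom.comp_apply, RingHom.comp_apply, ba_T, AR.evc_T, AR.evc_T, map_zpow₀, zpow_neg, ← inv_zpow]
    congr 1
    exact (Circle.coe_inv_eq_conj (Circle.exp φ)).symm ▸ (Circle.coe_inv _).symm
  exact congrArg (fun f : ℤ[T;T⁻¹] →+* ℂ => f x) this

/-- the integrality -/
theorem zero_one {x y : ℤ[T;T⁻¹]} (hx : ba x = x) (h : x * (1 - x) = y * ba y) : y = 0 ∧ (x = 0 ∨ x = 1) := by
  have hy : y = 0 := by
    by_contra hc
    obtain ⟨φ, hφ⟩ := AR.sharp y hc
    have h1 := congrArg (AR.evc φ) h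
    rw [map_mul, map_mul, map_sub, map_one, evc_ba, Complex.mul_conj] at h1
    have h2 := congrArg (AR.evc φ) hx
    rw [evc_ba] at h2
    obtain ⟨r, hr⟩ := Complex.conj_eq_iff_real.1 h2
    rw [hr] at h1
    have h3 : r * (1 - r) = Complex.normSq (AR.evc φ y) := by exact_mod_cast h1
    have h4 : 1 ≤ Complex.normSq (AR.evc φ y) := by
      rw [Complex.normSq_eq_norm_sq]
      nlinarith
    nlinarith [sq_nonneg (r - 1 / 2)]
  refine ⟨hy, ?_⟩
  rw [hy, zero_mul] at h
  rcases mul_eq_zero.1 h with h | h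
  · exact Or.inl h
  · exact Or.inr (sub_eq_zero.1 h).symm

theorem th_sg (m : ℤ) : th (sg m * T m) = T m := by
  have : th (sg m) = sg m := by
    unfold sg
    split_ifs <;> simp
  rw [map_mul, this, th_T, ← mul_assoc]
  have h : sg m * (if Even m then 1 else -1) = 1 := by
    unfold sg
    split_ifs <;> ring
  rw [h, one_mul]

/-- the factor of the closing arcs -/
theorem twist_unit {k j m : ℤ} {c s : ℤ[T;T⁻¹]} (hc : 1 + dB * c = sg k * T (-2 * k)) (h : (dB + c) * s = T m) : 
    (k = 1 ∨ k = -1) ∧ dB + c = - T k := by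
  obtain ⟨j, hj⟩ := unit_form2 h
  have hce := congrArg e1 hc
  have hje : e1 (dB + c) = 1 ∨ e1 (dB + c) = -1 := by
    rcases hj with hj | hj
    · left; rw [hj, e1_T]
    · right; rw [hj, map_neg, e1_T]
  rw [map_add, e1_dB] at hje
  simp only [map_add, map_mul, map_one, e1_dB, e1_T] at hce
  have hsg : sg k = -1 := by
    unfold sg at hce ⊢
    split_ifs at hce ⊢ with hk
    · exfalso
      rw [map_one] at hce
      omega
    · rfl
  have hc1 : e1 c = 1 := by
    rw [hsg, map_neg, map_one] at hce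
    omega
  have hj' : dB + c = - T j := by
    rcases hj with hj | hj
    · exfalso
      have := congrArg e1 hj
      rw [map_add, e1_dB, e1_T, hc1] at this
      omega
    · exact hj
  rw [hsg] at hc
  have h2 := congrArg e2 (show (T 1 + T (-1)) * T j = (T 2 + 1 + T (-2) : ℤ[T;T⁻¹]) - T (-2 * k) by
    have hd' : - dB = (T 1 + T (-1) : ℤ[T;T⁻¹]) := by unfold dB; ring
    rw [← hd', ← dB_sq]
    linear_combination (-dB) * hj' + hc)
  simp only [map_mul, map_add, map_sub, map_one, e2_T] at h2
  have h3 := pow_cases (j := j) (k := k) (by norm_num at h2 ⊢; linarith)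
  refine ⟨h3.1, ?_⟩
  rw [hj', h3.2]

/-- the third functional -/
theorem sol3 {e k : ℤ} (hk : k ≠ 0) {c : ℤ[T;T⁻¹]} (hc : 1 + dB * c = sg k * T (-2 * k)) {v : V3 ℤ[T;T⁻¹]} (h0 : v.a0 = 1) 
    (h : Eqs (sg e * T (-2 * e)) v) (hS : S3 dB c v = sg (k + e) * T (k + e)) : 
    (k = 1 ∨ k = -1) ∧ (e = 1 ∨ e = -1) ∧ (v = ⟨1, T (-e), 0, 0, 0⟩ ∨ v = ⟨1, 0, T (-e), 0, 0⟩) := by
  obtain ⟨h1, h2, h3, h4, h5, t1, t2, t3, t4⟩ := h
  have hcth : th c = - c := by
    have h6 := congrArg th hc
    have h7 : th (sg k * T (-2 * k)) = sg k * T (-2 * k) := by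
      have : th (sg k) = sg k := by
        unfold sg
        split_ifs <;> simp
      rw [map_mul, this, th_T, if_pos (by rw [Int.even_mul]; left; decide), one_mul]
    rw [h7, map_add, map_mul, map_one, th_dB] at h6
    apply mul_left_cancel₀ dB_ne
    linear_combination hc - h6
  have hth : dB ^ 2 + dB * v.a1 + dB * v.a2 + v.a3 + v.a4 + c * (dB + v.a1 + v.a2) - c * (v.a3 + v.a4) = T (k + e) := by
    have := congrArg th hS
    rw [th_sg] at this
    unfold S3 at this
    simp only [map_add, map_mul, map_pow, h0, map_one, t1, t2, t3, t4, th_dB, hcth] at this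
    linear_combination this
  unfold S3 at hS
  rw [h0] at hS
  by_cases hm : Even (k + e)
  · have hs : sg (k + e) = 1 := by unfold sg; rw [if_pos hm]
    rw [hs, one_mul] at hS
    have P1 : (dB + c) * (dB + v.a1 + v.a2) + (v.a3 + v.a4) = T (k + e) := by
      apply mul_left_cancel₀ two_ne
      linear_combination hS + hth
    have P2 : c * (v.a3 + v.a4) = 0 := by
      apply mul_left_cancel₀ two_ne
      linear_combination hS - hth
    have hc0 : c ≠ 0 := by
      intro hc0
      rw [hc0, mul_zero, add_zero] at hc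
      unfold sg at hc
      split_ifs at hc
      · rw [one_mul] at hc
        have := T_eq_one hc.symm
        omega
      · have := congrArg e1 hc
        simp [e1_T] at this
    have P3 : v.a3 + v.a4 = 0 := by
      rcases mul_eq_zero.1 P2 with h | h
      · exact absurd h hc0
      · exact h
    rw [P3, add_zero] at P1
    obtain ⟨hk1, hck⟩ := twist_unit (j := 0) hc P1
    refine ⟨hk1, ?_⟩
    have hke : (T (-k) : ℤ[T;T⁻¹]) * T (k + e) = T e := by
      rw [T_mul]
      congr 1
      ring
    have hkk : (T (-k) : ℤ[T;T⁻¹]) * T k = 1 := by rw [T_mul]; simp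
    have q2 : v.a1 + v.a2 = - T e - dB := by
      rw [hck] at P1
      linear_combination (- T (-k)) * P1 - hke - (dB + v.a1 + v.a2) * hkk
    have heo : ¬ Even e := by
      rw [Int.even_add] at hm
      rcases hk1 with rfl | rfl
      · intro he
        exact absurd (hm.2 he) (by decide)
      · intro he
        exact absurd (hm.2 he) (by decide)
    have hse : sg e = -1 := by unfold sg; rw [if_neg heo]
    rw [hse] at h1 h2 h3 h4 h5
    have hu : (T e : ℤ[T;T⁻¹]) * T (-e) = 1 := by rw [T_mul]; simp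
    have hD : (T (-2 * e) : ℤ[T;T⁻¹]) = T (-e) ^ 2 := by
      rw [T_pow]
      congr 1
      push_cast
      ring
    rw [hD] at h1 h2 h3 h4 h5
    have q2' : ba v.a1 + ba v.a2 = - T (-e) - dB := by
      have := congrArg ba q2
      rwa [map_add, map_sub, map_neg, ba_T, ba_dB] at this
    have P3' : ba v.a3 + ba v.a4 = 0 := by
      have := congrArg ba P3
      rwa [map_add, map_zero] at this
    have hee : e = 1 ∨ e = -1 := by
      apply exps
      have hd : dB ^ 2 - 2 = (T 2 + T (-2) : ℤ[T;T⁻¹]) := by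
        have := dB_sq
        linear_combination this
      have hd' : - dB = (T 1 + T (-1) : ℤ[T;T⁻¹]) := by unfold dB; ring
      have h2e : (T (2 * e) : ℤ[T;T⁻¹]) = T e ^ 2 := by
        rw [T_pow]; norm_num
      have q5 : - T (-e) ^ 2 * (2 - dB ^ 2 - dB * T (-e)) = 2 - dB ^ 2 - dB * T e := by
        linear_combination h1 + h2 + dB * q2 + P3 + dB * T (-e) ^ 2 * q2' + T (-e) ^ 2 * P3'
      rw [← hd, ← hd', hD, h2e]
      linear_combination T e * q5 - (dB ^ 2 * T (-e) - 2 * T (-e) + dB * T (-e) ^ 2) * hu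
    refine ⟨hee, ?_⟩
    have hb : dB = - T e - T (-e) := by
      unfold dB
      rcases hee with rfl | rfl
      · rfl
      · rw [neg_neg]; ring
    have e5 : dB * T (-e) = -1 - T (-e) ^ 2 := by
      rw [hb]
      linear_combination -hu
    have a2 : v.a2 = T (-e) - v.a1 := by
      linear_combination q2 - hb
    have b2 : ba v.a2 = T e - ba v.a1 := by
      linear_combination q2' - hb
    have a4 : v.a4 = - v.a3 := by linear_combination P3
    have b4 : ba v.a4 = - ba v.a3 := by linear_combination P3'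
    have h1' : T (-e) ^ 2 * (dB * ba v.a1 - ba v.a3) = dB * v.a1 + v.a3 := by
      linear_combination -h1 - T (-e) ^ 2 * b4 - a4 - dB * a2 - e5
    have h3' : T (-e) ^ 2 * (ba v.a1 - dB * ba v.a3) = v.a1 + dB * v.a3 := by
      linear_combination -h3 - T (-e) ^ 2 * dB * b4
    have g1 : (dB ^ 2 - 1) * (v.a3 + T (-e) ^ 2 * ba v.a3) = 0 := by
      linear_combination -dB * h3' + h1'
    have g2 : v.a3 + T (-e) ^ 2 * ba v.a3 = 0 := by
      rcases mul_eq_zero.1 g1 with h | h
      · exact absurd h dB_sq_ne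
      · exact h
    have g4 : T (-e) ^ 2 * ba v.a1 = v.a1 := by
      apply mul_left_cancel₀ dB_ne
      linear_combination h1' + g2
    rw [a2, a4] at h5
    have g5 : (dB ^ 2 - 1) * (v.a1 * (T (-e) - v.a1) + v.a3 ^ 2) = 0 := by
      linear_combination h5 - e5
    have g6 : v.a1 * (T (-e) - v.a1) + v.a3 ^ 2 = 0 := by
      rcases mul_eq_zero.1 g5 with h | h
      · exact absurd h dB_sq_ne
      · exact h
    have g7 : ba (T e * v.a1) = T e * v.a1 := by
      rw [map_mul, ba_T]
      linear_combination T e * g4 - T (-e) * ba v.a1 * hu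
    have g8 : (T e * v.a1) * (1 - T e * v.a1) = (T e * v.a3) * ba (T e * v.a3) := by
      rw [map_mul, ba_T]
      linear_combination T e ^ 2 * g6 - T e * v.a1 * hu - T e ^ 2 * v.a3 * g2 + T e * T (-e) * v.a3 * ba v.a3 * hu
    obtain ⟨g9, g10⟩ := zero_one g7 g8
    have a3 : v.a3 = 0 := (mul_eq_zero.1 g9).resolve_left (T_ne e)
    have a4' : v.a4 = 0 := by rw [a4, a3, neg_zero]
    rcases g10 with g10 | g10
    · right
      have a1 : v.a1 = 0 := (mul_eq_zero.1 g10).resolve_left (T_ne e)
      exact mk_eq h0 a1 (by rw [a2, a1, sub_zero]) a3 a4'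
    · left
      have a1 : v.a1 = T (-e) := by linear_combination T (-e) * g10 - v.a1 * hu
      exact mk_eq h0 a1 (by rw [a2, a1, sub_self]) a3 a4'
  · exfalso
    have hs : sg (k + e) = -1 := by unfold sg; rw [if_neg hm]
    rw [hs] at hS
    have P1 : (dB + c) * (dB + v.a1 + v.a2) + (v.a3 + v.a4) = 0 := by
      apply mul_left_cancel₀ two_ne
      linear_combination hS + hth
    have P2 : c * (v.a3 + v.a4) = - T (k + e) := by
      apply mul_left_cancel₀ two_ne
      linear_combination hS - hth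
    have k1 := congrArg e1 P1
    have k2 := congrArg e1 P2
    have k3 := congrArg e1 hc
    have k4 := congrArg e1 h1
    simp only [map_add, map_mul, map_neg, map_one, map_zero, e1_T, e1_ba, e1_dB, mul_one] at k1 k2 k3 k4
    have hsk : e1 (sg k) = if Even k then 1 else -1 := by
      unfold sg
      split_ifs <;> simp
    have hse : e1 (sg e) = if Even e then 1 else -1 := by
      unfold sg
      split_ifs <;> simp
    rw [hsk] at k3
    rw [hse] at k4
    have hc1 : e1 c = 0 ∨ e1 c = 1 := by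
      split_ifs at k3
      · left; omega
      · right; omega
    rcases hc1 with hc1 | hc1
    · rw [hc1] at k2
      omega
    · rw [hc1] at k1 k2 k3
      have hko : ¬ Even k := by
        intro hk'
        rw [if_pos hk'] at k3
        omega
      have hee : Even e := by
        by_contra heo
        exact hm ((Int.not_even_iff_odd.1 hko).add_odd (Int.not_even_iff_odd.1 heo))
      rw [if_pos hee] at k4
      omega

end Pool.Agent.U963.KN
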