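import Pool.Agent.U963.KN.Defs

/-!
# Open closures of braids on three strands with crossings between the closing arcs
-/

set_option autoImplicit false

namespace Pool.Agent.U963.KN

open Pool.Agent.H891R2.Jones Pool.Agent.W639.RB

/-- The outside of a box of three strands made from the outside `O` of a box of two strands: the two strands
of `O` become the left and the right strand, and between them there is an open strand: the tail of a knotoid
diagram (marked point `inr false`) is the middle lower end, and its head (marked point `inr true`) the
middle upper end of the box. -/
def openUp (O : Outer 2) : Outer 3 where
  P := O.P ⊕ Bool
  arcs := O.arcs.map (Prod.map .inl .inl)
  crossings := O.crossings.map (Crossing.map .inl)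
  lower := ![.inl (O.lower 0), .inr false, .inl (O.lower 1)]
  upper := ![.inl (O.upper 0), .inr true, .inl (O.upper 1)]
  up := fun _ => true

/-- The outside of the box of a 3-braid for the open closure with tail and head at the middle ends of the box, where
the two closing arcs, which join the left and right upper ends to the left and right lower ends, cross each
other `|k|` times; all these crossings have the sign of `k`. -/
def twistedClosure (k : ℤ) : Outer 3 :=
  openUp (draw (braidClosure 2) (List.replicate k.natAbs (decide (0 ≤ k), 0)))

end Pool.Agent.U963.KN
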