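import Pool.Agent.U963.KN.Twi
import Pool.Agent.U963.KN.Last

/-!
# The diagrams with crossings between the closing arcs
-/

set_option autoImplicit false

namespace Pool.Agent.U963.KN

open Finset LaurentPolynomial Pool.Agent.H891R2.Jones Pool.Agent.W639.RB Pool.Agent.Y463.SK Pool.Agent.Y463.MP
open Pool.Agent.TH561 (dl)
open Pool.Agent.H832R3.TW (IsKnotoid)
open Pool.Agent.H297.FT (KGood KGood_push knotoid_iff)
open Pool.Agent.U963.AR (V3 run one stp)
open Pool.Agent.U963.JN (un fPoly_eq)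

theorem good_draw {m : ℕ} (v : Fin m → Bool) (w : List (Bool × ℕ)) : ∀ (O : Outer m), 
    Good O v → Good (draw O w) v := by
  induction w with
  | nil => intro O h; exact h
  | cons x w ih =>
    intro O h
    exact ih _ (Good_push O v x.1 x.2 h)

theorem sum_inl {P : Type} [DecidableEq P] (l : List (P × P)) (x : P) : 
    ((l.map (Prod.map (Sum.inl : P → P ⊕ Bool) (Sum.inl : P → P ⊕ Bool))).map (fun z : (P ⊕ Bool) × (P ⊕ Bool) => if z.1 = Sum.inl x then (1 : ℕ) else 0)).sum = 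
      (l.map (fun z : P × P => if z.1 = x then (1 : ℕ) else 0)).sum := by
  rw [List.map_map]
  congr 2
  funext z
  simp

theorem sum_inr {P : Type} [DecidableEq P] (l : List (P × P)) (b : Bool) : 
    ((l.map (Prod.map (Sum.inl : P → P ⊕ Bool) (Sum.inl : P → P ⊕ Bool))).map (fun z : (P ⊕ Bool) × (P ⊕ Bool) => if z.1 = Sum.inr b then (1 : ℕ) else 0)).sum = 0 := by
  rw [List.map_map]
  apply List.sum_eq_zero
  intro n hn
  rw [List.mem_map] at hn
  obtain ⟨z, _, rfl⟩ := hn
  simp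

theorem csum_inl {P : Type} [DecidableEq P] (l : List (Crossing P)) (x : P) : 
    ((l.map (Crossing.map (Sum.inl : P → P ⊕ Bool))).map (cst (Sum.inl x))).sum = (l.map (cst x)).sum := by
  rw [List.map_map]
  congr 2
  funext c
  simp only [Function.comp_apply, cst, Crossing.map]
  congr 1
  · split_ifs <;> simp_all
  · split_ifs <;> simp_all

theorem csum_inr {P : Type} [DecidableEq P] (l : List (Crossing P)) (b : Bool) : 
    ((l.map (Crossing.map (Sum.inl : P → P ⊕ Bool))).map (cst (Sum.inr b))).sum = 0 := by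
  rw [List.map_map]
  apply List.sum_eq_zero
  intro n hn
  rw [List.mem_map] at hn
  obtain ⟨⟨a, b, c, d, u, o⟩, _, rfl⟩ := hn
  cases u <;> cases o <;> simp [cst, Crossing.map]

theorem aux_open {P : Type} [DecidableEq P] (arcs : List (P × P)) (cr : List (Crossing P)) (l0 l1 : P) (b : Bool)
    (H : ∀ z, (arcs.map (fun y : P × P => if y.1 = z then (1 : ℕ) else 0)).sum + (cr.map (cst z)).sum + 
      ((if l0 = z then 1 else 0) + (if l1 = z then 1 else 0)) = 1) (x : P ⊕ Bool) : 
    ((arcs.map (Prod.map (Sum.inl : P → P ⊕ Bool) (Sum.inl : P → P ⊕ Bool))).map 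
      (fun z : (P ⊕ Bool) × (P ⊕ Bool) => if z.1 = x then (1 : ℕ) else 0)).sum + 
    ((cr.map (Crossing.map (Sum.inl : P → P ⊕ Bool))).map (cst x)).sum + 
    ((if Sum.inl l0 = x then 1 else 0) + (if Sum.inr b = x then 1 else 0) + (if Sum.inl l1 = x then 1 else 0)) = 
      if x = Sum.inr (!b) then 0 else 1 := by
  rcases x with x | y
  · rw [sum_inl, csum_inl, if_neg (show ¬ ((Sum.inl x : P ⊕ Bool) = Sum.inr (!b)) by simp), 
      if_neg (show ¬ ((Sum.inr b : P ⊕ Bool) = Sum.inl x) by simp), add_zero]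
    simp only [Sum.inl.injEq]
    exact H x
  · rw [sum_inr, csum_inr, if_neg (show ¬ ((Sum.inl l0 : P ⊕ Bool) = Sum.inr y) by simp), 
      if_neg (show ¬ ((Sum.inl l1 : P ⊕ Bool) = Sum.inr y) by simp)]
    cases b <;> cases y <;> simp

theorem Sst_openUp (O : Outer 2) (hu : ∀ j, O.up j = true) (h : ∀ x, Sst O (fun _ => true) x = 1) (x : O.P ⊕ Bool) : 
    Sst (openUp O) (fun _ => true) x = if x = Sum.inr true then 0 else 1 := by
  have H := aux_open O.arcs O.crossings (O.lower 0) (O.lower 1) false (by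
    intro z
    have hz := h z
    unfold Sst at hz
    rw [Fin.sum_univ_two, Fin.sum_univ_two, hu, hu] at hz
    simp only [true_and, not_true_eq_false, false_and, if_false, add_zero] at hz
    exact hz) x
  refine Eq.trans ?_ H
  show ((O.arcs.map (Prod.map (Sum.inl : O.P → O.P ⊕ Bool) (Sum.inl : O.P → O.P ⊕ Bool))).map 
      (fun z : (O.P ⊕ Bool) × (O.P ⊕ Bool) => if z.1 = x then (1 : ℕ) else 0)).sum + 
    ((O.crossings.map (Crossing.map (Sum.inl : O.P → O.P ⊕ Bool))).map (cst x)).sum + 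
    (∑ j : Fin 3, if (true = true ∧ (![Sum.inl (O.lower 0), Sum.inr false, Sum.inl (O.lower 1)] : Fin 3 → O.P ⊕ Bool) j = x) then 1 else 0) + 
    (∑ j : Fin 3, if (¬ (true = true) ∧ (![Sum.inl (O.upper 0), Sum.inr true, Sum.inl (O.upper 1)] : Fin 3 → O.P ⊕ Bool) j = x) then 1 else 0) = _
  rw [Fin.sum_univ_three, Fin.sum_univ_three]
  simp only [true_and, not_true_eq_false, false_and, if_false, add_zero]
  rfl

theorem Sst_rev_openUp (O : Outer 2) (hu : ∀ j, O.up j = true) (h : ∀ x : O.P, Sst O.rev (fun _ => false) x = 1) (x : O.P ⊕ Bool) : 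
    Sst (openUp O).rev (fun _ => false) x = if x = Sum.inr false then 0 else 1 := by
  have H := aux_open (O.arcs.map Prod.swap) (O.crossings.map Crossing.rev) (O.upper 0) (O.upper 1) true (by
    intro z
    have hz : ((O.arcs.map Prod.swap).map (fun y : O.P × O.P => if y.1 = z then (1 : ℕ) else 0)).sum + 
      ((O.crossings.map Crossing.rev).map (cst z)).sum + 
      (∑ j : Fin 2, if ((!(O.up j)) = true ∧ O.lower j = z) then 1 else 0) + 
      (∑ j : Fin 2, if (¬ (false = true) ∧ O.upper j = z) then 1 else 0) = 1 := h z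
    rw [Fin.sum_univ_two, Fin.sum_univ_two, hu, hu] at hz
    simp only [Bool.not_true, Bool.false_eq_true, not_false_eq_true, true_and, false_and, if_false, add_zero] at hz
    exact hz) x
  refine Eq.trans ?_ H
  have ea : (openUp O).rev.arcs = (O.arcs.map Prod.swap).map (Prod.map Sum.inl Sum.inl) := by
    unfold openUp Outer.rev
    dsimp only
    rw [List.map_map, List.map_map]
    rfl
  have ec : (openUp O).rev.crossings = (O.crossings.map Crossing.rev).map (Crossing.map Sum.inl) := by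
    unfold openUp Outer.rev
    dsimp only
    rw [List.map_map, List.map_map]
    rfl
  unfold Sst
  rw [ea, ec]
  show (((O.arcs.map Prod.swap).map (Prod.map (Sum.inl : O.P → O.P ⊕ Bool) (Sum.inl : O.P → O.P ⊕ Bool))).map 
      (fun z : (O.P ⊕ Bool) × (O.P ⊕ Bool) => if z.1 = x then (1 : ℕ) else 0)).sum + 
    (((O.crossings.map Crossing.rev).map (Crossing.map (Sum.inl : O.P → O.P ⊕ Bool))).map (cst x)).sum + 
    (∑ j : Fin 3, if ((!true) = true ∧ (![Sum.inl (O.lower 0), Sum.inr false, Sum.inl (O.lower 1)] : Fin 3 → O.P ⊕ Bool) j = x) then 1 else 0) + 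
    (∑ j : Fin 3, if (¬ (false = true) ∧ (![Sum.inl (O.upper 0), Sum.inr true, Sum.inl (O.upper 1)] : Fin 3 → O.P ⊕ Bool) j = x) then 1 else 0) = _
  rw [Fin.sum_univ_three, Fin.sum_univ_three]
  simp only [Bool.not_true, Bool.false_eq_true, not_false_eq_true, true_and, false_and, if_false, add_zero]
  rfl

theorem good_cl : Good (braidClosure 2) (fun _ => true) := by
  constructor
  · intro x
    change Fin 2 at x
    fin_cases x <;> rfl
  · intro x
    change Fin 2 at x
    fin_cases x <;> rfl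

theorem rep_lt (k : ℤ) : ∀ x ∈ List.replicate k.natAbs (decide (0 ≤ k), 0), x.2 + 1 < 2 := by
  intro x hx
  rw [List.eq_of_mem_replicate hx]
  norm_num

theorem kgood_tw (k : ℤ) : KGood (twistedClosure k) (fun _ => true) := by
  have hg := good_draw _ (List.replicate k.natAbs (decide (0 ≤ k), 0)) _ good_cl
  have hu := (draw_up (List.replicate k.natAbs (decide (0 ≤ k), 0)) (braidClosure 2) (rep_lt k) (fun _ => rfl)).1
  exact ⟨Sum.inr false, Sum.inr true, fun h => absurd (Sum.inr.inj h) (by decide), Sst_openUp _ hu hg.1, Sst_rev_openUp _ hu hg.2⟩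

theorem tw_knotoid (k : ℤ) (w : List (Letter 3)) : IsKnotoid (dia (twistedClosure k) w) := by
  unfold dia
  rw [knotoid_iff]
  have h2 : (draw (twistedClosure k) (w.map (fun x => (x.1, (x.2 : ℕ))))).up = fun _ => true := by
    funext j
    exact (draw_up _ (twistedClosure k) (toN_lt w) (fun _ => rfl)).1 j
  rw [h2]
  exact kgood_draw _ _ _ (kgood_tw k)

theorem writhe_tw (k : ℤ) (w : List (Bool × ℕ)) (hw : ∀ x ∈ w, x.2 + 1 < 3) : 
    (draw (twistedClosure k) w).close.writhe = k + expo w := by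
  rw [close_writhe, (draw_up w (twistedClosure k) hw (fun _ => rfl)).2]
  congr 1
  have h1 : owr (twistedClosure k) = owr (draw (braidClosure 2) (List.replicate k.natAbs (decide (0 ≤ k), 0))) := by
    unfold owr twistedClosure openUp
    dsimp only
    rw [List.map_map]
    rfl
  rw [h1, (draw_up _ (braidClosure 2) (rep_lt k) (fun _ => rfl)).2]
  have h2 : owr (braidClosure 2) = 0 := rfl
  have h3 := expo_pw 0 k
  unfold pw at h3
  rw [h2, h3, zero_add]

theorem b_tw (k : ℤ) {c : ℤ[T;T⁻¹]} 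
    (hc : ∀ (N : ℕ) (hN : 3 ≤ N) (g : (Fin 3 → Fin N) → ((Fin 3 → Fin N) → ℂ)), 
      Zg (Ar N) N (twistedClosure k) g = ev N hN (T k) * ((∑ a, ∑ d, ∑ p, ∑ q, g ![p, a, q] ![p, d, q]) + 
        ev N hN (io c) * ∑ a, ∑ d, ∑ p, ∑ e, g ![e, a, e] ![p, d, p])) (w : List (Bool × ℕ)) (hw : ∀ x ∈ w, x.2 + 1 < 3) : 
    (draw (twistedClosure k) w).close.bracket = T k * S3 dl (io c) (run (T 1) (T (-1)) dl w (one ℤ[T;T⁻¹])) := by
  obtain ⟨h0, h1, h2, h3, h4⟩ := PhiS_tw k hc
  rw [bracket_run _ w hw, PhiS_val _ _ h0 h1 h2 h3 h4, S3]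
  ring

theorem S3_sc (r d c : ℤ[T;T⁻¹]) (v : V3 ℤ[T;T⁻¹]) : S3 d c (sc r v) = r * S3 d c v := by unfold S3 sc; ring
theorem S3_io (c : ℤ[T;T⁻¹]) (v : V3 ℤ[T;T⁻¹]) : S3 dl (io c) (v.map io) = io (S3 dB c v) := by
  unfold S3 V3.map
  simp only [map_add, map_mul, map_pow, io_dB]

theorem X_letter (s : Bool) : X [(s, 0)] = ⟨1, T (-(if s then 1 else -1)), 0, 0, 0⟩ ∧ 
    X [(s, 1)] = ⟨1, 0, T (-(if s then 1 else -1)), 0, 0⟩ := by
  constructor <;> cases s <;> simp [X, nrun, AR.stp, one, lc]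

theorem expo_letter (s : Bool) (i : ℕ) : expo [(s, i)] = if s then 1 else -1 := by
  simp [expo]

theorem iff3 {k : ℤ} (hk : k ≠ 0) {c : ℤ[T;T⁻¹]} (hc : 1 + dB * c = sg k * T (-2 * k)) {w : List (Bool × ℕ)} 
    (hw : ∀ x ∈ w, x.2 + 1 < 3) : 
    S3 dB c (X w) = sg (k + expo w) * T (k + expo w) ↔ (k = 1 ∨ k = -1) ∧ ∃ (s : Bool) (i : Fin 2), Same w [(s, (i : ℕ))] := by
  constructor
  · intro hS
    have hE := X_eqs w
    rw [De_eq] at hE
    obtain ⟨h1, h2, h3⟩ := sol3 hk hc (X_a0 w) hE hS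
    refine ⟨h1, ?_⟩
    obtain ⟨s, hs⟩ : ∃ s : Bool, expo w = if s then 1 else -1 := by
      rcases h2 with h | h
      · exact ⟨true, h⟩
      · exact ⟨false, h⟩
    refine ⟨s, ?_⟩
    rcases h3 with h3 | h3
    · refine ⟨0, same_of ?_ (by rw [hs, expo_letter])⟩
      rw [h3, hs]
      exact (X_letter s).1.symm
    · refine ⟨1, same_of ?_ (by rw [hs, expo_letter])⟩
      rw [h3, hs]
      exact (X_letter s).2.symm
  · rintro ⟨hk1, s, i, h⟩
    have hlt : ∀ x ∈ [(s, (i : ℕ))], x.2 + 1 < 3 := by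
      intro x hx
      rw [List.mem_singleton.1 hx]
      show (i : ℕ) + 1 < 3
      omega
    rw [h.X hw hlt, h.expo, expo_letter]
    have hck : dB + c = - T k := by
      apply mul_left_cancel₀ dB_ne
      have h1 := dB_sq
      have hd : dB = - T 1 - T (-1) := rfl
      have e0 : (T 1 : ℤ[T;T⁻¹]) * T (-1) = 1 := by rw [T_mul]; simp
      have e1' : (T 2 : ℤ[T;T⁻¹]) = T 1 ^ 2 := by rw [T_pow]; norm_num
      have e2' : (T (-2) : ℤ[T;T⁻¹]) = T (-1) ^ 2 := by rw [T_pow]; norm_num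
      rcases hk1 with rfl | rfl
      · have hs1 : sg 1 = -1 := by unfold sg; rw [if_neg (by decide)]
        rw [hs1, show (-2 * 1 : ℤ) = -2 by norm_num] at hc
        rw [e2'] at hc h1
        rw [e1'] at h1
        linear_combination hc + h1 + T 1 * hd - e0
      · have hs1 : sg (-1) = -1 := by unfold sg; rw [if_neg (by decide)]
        rw [hs1, show (-2 * -1 : ℤ) = 2 by norm_num] at hc
        rw [e1'] at hc
        rw [e1', e2'] at h1
        linear_combination hc + h1 + T (-1) * hd - e0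
    have hb : ∀ s : Bool, dB + T (-(if s then 1 else -1)) = - T (if s then 1 else -1) := by
      intro s
      unfold dB
      cases s
      · show - T 1 - T (-1) + T 1 = (- T (-1) : ℤ[T;T⁻¹])
        ring
      · show - T 1 - T (-1) + T (-1) = (- T 1 : ℤ[T;T⁻¹])
        ring
    have hS : S3 dB c (X [(s, (i : ℕ))]) = (dB + c) * (dB + T (-(if s then 1 else -1))) := by
      fin_cases i
      · show S3 dB c (X [(s, 0)]) = _
        rw [(X_letter s).1]
        unfold S3
        ring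
      · show S3 dB c (X [(s, 1)]) = _
        rw [(X_letter s).2]
        unfold S3
        ring
    have hev : Even (k + if s then 1 else -1) := by
      rcases hk1 with rfl | rfl <;> cases s <;> decide
    have hs1 : sg (k + if s then 1 else -1) = 1 := by unfold sg; rw [if_pos hev]
    rw [hS, hck, hb, hs1, neg_mul_neg, T_mul, one_mul]

theorem fT {k : ℤ} (hk : k ≠ 0) (w : List (Bool × ℕ)) (hw : ∀ x ∈ w, x.2 + 1 < 3) : 
    (draw (twistedClosure k) w).close.fPoly = 1 ↔ (k = 1 ∨ k = -1) ∧ ∃ (s : Bool) (i : Fin 2), Same w [(s, (i : ℕ))] := by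
  obtain ⟨c, hc, h⟩ := Zg_tw k
  rw [fPoly_eq, writhe_tw k w hw, b_tw k h w hw, run_X, S3_sc, S3_io, ← mul_assoc (T k), T_mul, f_one_iff, iff3 hk hc hw]

theorem DT {k : ℤ} (hk : k ≠ 0) (w : List (Letter 3)) : 
    (dia (twistedClosure k) w).fPoly = 1 ↔ (k = 1 ∨ k = -1) ∧ ∃ x : Letter 3, SameBraid w [x] := by
  unfold dia
  rw [fT hk _ (toN_lt w)]
  refine and_congr_right fun _ => ?_
  constructor
  · rintro ⟨s, i, h⟩
    refine ⟨(s, i), (Same_iff w ?_).1 h⟩
    intro G _ a b
    rw [value_eq]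
    rfl
  · rintro ⟨⟨s, i⟩, h⟩
    refine ⟨s, i, (Same_iff w ?_).2 h⟩
    intro G _ a b
    rw [value_eq]
    rfl

end Pool.Agent.U963.KN
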