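import Pool.Agent.U963.KN.TwDefs
import Pool.Agent.U963.KN.SolB
import Pool.Agent.U963.KN.Conv

/-!
# The bracket of the closures with crossings between the closing arcs
-/

set_option autoImplicit false

namespace Pool.Agent.U963.KN

open Finset LaurentPolynomial Pool.Agent.H891R2.Jones Pool.Agent.W639.RB Pool.Agent.Y463.SK Pool.Agent.Y463.MP
open Pool.Agent.TH561 (dl ee_of KK)
open Pool.Agent.U963.AR (V3 run one stp wZ wZ_val bracket_draw)

theorem WW_map {P : Type} {N : ℕ} (A : ℂ) (arcs : List (P × P)) (crossings : List (Crossing P)) (col : P ⊕ Bool → Fin N) : 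
    WW A (arcs.map (Prod.map Sum.inl Sum.inl)) (crossings.map (Crossing.map Sum.inl)) col = 
      WW A arcs crossings (col ∘ Sum.inl) := by
  unfold WW
  rw [List.map_map, List.map_map]
  rfl

theorem sum_bool {N : ℕ} (F : (Bool → Fin N) → ℂ) : ∑ x, F x = ∑ a, ∑ d, F (fun b => if b then d else a) := by
  rw [← (Equiv.boolArrowEquivProd (Fin N)).symm.sum_comp, Fintype.sum_prod_type]
  refine Finset.sum_congr rfl fun a _ => Finset.sum_congr rfl fun d _ => ?_
  congr 1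

theorem Zg_openUp {N : ℕ} (A : ℂ) (O : Outer 2) (g : (Fin 3 → Fin N) → ((Fin 3 → Fin N) → ℂ)) : 
    Zg A N (openUp O) g = ∑ a, ∑ d, Zg A N O (fun x y => g ![x 0, a, x 1] ![y 0, d, y 1]) := by
  have e : Zg A N (openUp O) g = ∑ u : O.P → Fin N, ∑ x : Bool → Fin N, WW A O.arcs O.crossings u * 
      g ![u (O.lower 0), x false, u (O.lower 1)] ![u (O.upper 0), x true, u (O.upper 1)] := by
    unfold Zg
    show (∑ col : O.P ⊕ Bool → Fin N, WW A (O.arcs.map (Prod.map Sum.inl Sum.inl)) (O.crossings.map (Crossing.map Sum.inl)) col * 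
      g (col ∘ (openUp O).lower) (col ∘ (openUp O).upper)) = _
    rw [← (Equiv.sumArrowEquivProdArrow O.P Bool (Fin N)).symm.sum_comp, Fintype.sum_prod_type]
    refine Finset.sum_congr rfl fun u _ => Finset.sum_congr rfl fun x _ => ?_
    rw [WW_map]
    congr 1
    have e1 : ((Equiv.sumArrowEquivProdArrow O.P Bool (Fin N)).symm (u, x)) ∘ (openUp O).lower = 
        ![u (O.lower 0), x false, u (O.lower 1)] := by
      funext j
      fin_cases j <;> rfl
    have e2 : ((Equiv.sumArrowEquivProdArrow O.P Bool (Fin N)).symm (u, x)) ∘ (openUp O).upper = 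
        ![u (O.upper 0), x true, u (O.upper 1)] := by
      funext j
      fin_cases j <;> rfl
    rw [e1, e2]
  rw [e, Finset.sum_comm, sum_bool]
  rfl

theorem lt_eq (N : ℕ) (hN : 3 ≤ N) (s : Bool) : lt (Ar N) 2 N (s, 0) = ev N hN (T (if s then 1 else -1)) • 
    (1 + ev N hN (io (lc (s, 0))) • ee 2 N ((Fin 2 → Fin N) → ℂ) 0) := by
  have h1 : ev N hN (T 1) * ev N hN (T (2 * -1)) = (Ar N)⁻¹ := by
    rw [← map_mul, T_mul, ← ev_Tm1 N hN]
    rfl
  have h2 : ev N hN (T (-1)) * ev N hN (T (2 * 1)) = Ar N := by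
    rw [← map_mul, T_mul, ← ev_T1 N hN]
    rfl
  cases s
  · show Pool.Agent.H891R2.Jones.sg (Ar N)⁻¹ _ 0 = ev N hN (T (-1)) • (1 + ev N hN (io (T 1)) • _)
    unfold Pool.Agent.H891R2.Jones.sg
    rw [io_T, smul_add, smul_smul, h2, ev_Tm1, inv_inv]
  · show Pool.Agent.H891R2.Jones.sg (Ar N) _ 0 = ev N hN (T 1) • (1 + ev N hN (io (T (-1))) • _)
    unfold Pool.Agent.H891R2.Jones.sg
    rw [io_T, smul_add, smul_smul, h1, ev_T1]

theorem rho_rep (s : Bool) (n : ℕ) : ∃ c : ℤ[T;T⁻¹], 1 + dB * c = (1 + dB * lc (s, 0)) ^ n ∧ 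
    ∀ (N : ℕ) (hN : 3 ≤ N), rho (Ar N) 2 N (List.replicate n (s, 0)) = 
      ev N hN (T (n * (if s then 1 else -1))) • (1 + ev N hN (io c) • ee 2 N ((Fin 2 → Fin N) → ℂ) 0) := by
  induction n with
  | zero =>
    refine ⟨0, by ring, fun N hN => ?_⟩
    simp [rho]
  | succ n ih =>
    obtain ⟨c, hc, h⟩ := ih
    refine ⟨lc (s, 0) + c + dB * lc (s, 0) * c, by rw [pow_succ, ← hc]; ring, fun N hN => ?_⟩
    have e1 : rho (Ar N) 2 N (List.replicate (n + 1) (s, 0)) = lt (Ar N) 2 N (s, 0) * rho (Ar N) 2 N (List.replicate n (s, 0)) := by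
      rw [List.replicate_succ]
      simp [rho]
    rw [e1, h N hN, lt_eq N hN, smul_mul_smul_comm, ← map_mul, T_mul]
    have e2 := (isTL_ee (W := (Fin 2 → Fin N) → ℂ) 2 N).sq 0 (by norm_num)
    have e3 : ev N hN (io dB) = (N : ℂ) := by rw [io_dB, ev_dl']
    generalize ee 2 N ((Fin 2 → Fin N) → ℂ) 0 = E at e2
    have e4 : ((if s then 1 else -1 : ℤ) + (n : ℤ) * (if s then 1 else -1)) = ((n + 1 : ℕ) : ℤ) * (if s then 1 else -1) := by
      push_cast
      ring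
    rw [e4]
    congr 1
    simp only [map_add, map_mul, e3]
    rw [mul_add, add_mul, add_mul, one_mul, one_mul, mul_one, smul_mul_smul_comm, e2, smul_smul, add_smul, add_smul]
    rw [mul_comm (ev N hN (io (lc (s, 0))) * ev N hN (io c)) (N : ℂ), ← mul_assoc, add_assoc, add_assoc]

theorem sum_two {N : ℕ} (F : (Fin 2 → Fin N) → ℂ) : ∑ x, F x = ∑ p, ∑ q, F ![p, q] := by
  have h : ∀ {n : ℕ} (G : (Fin (n + 1) → Fin N) → ℂ), 
      ∑ col : Fin (n + 1) → Fin N, G col = ∑ a, ∑ col : Fin n → Fin N, G (Matrix.vecCons a col) := by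
    intro n G
    rw [← (Fin.consEquiv (fun _ => Fin N)).sum_comp, Fintype.sum_prod_type]
    rfl
  rw [h]
  refine Finset.sum_congr rfl fun a _ => ?_
  rw [h]
  refine Finset.sum_congr rfl fun b _ => ?_
  simp only [Finset.univ_unique, Finset.sum_singleton]
  congr

theorem Zg_cl {N : ℕ} (A : ℂ) (h : (Fin 2 → Fin N) → ((Fin 2 → Fin N) → ℂ)) : 
    Zg A N (braidClosure 2) h = ∑ p, ∑ q, h ![p, q] ![p, q] := by
  rw [← sum_two (fun x => h x x)]
  unfold Zg
  refine Finset.sum_congr rfl fun col _ => ?_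
  have : WW A (braidClosure 2).arcs (braidClosure 2).crossings col = 1 := by
    simp [WW, braidClosure]
  rw [this, one_mul]
  rfl

theorem ee2 {N : ℕ} (h : (Fin 2 → Fin N) → ((Fin 2 → Fin N) → ℂ)) (p q : Fin N) (y : Fin 2 → Fin N) : 
    ee 2 N ((Fin 2 → Fin N) → ℂ) 0 h ![p, q] y = if p = q then ∑ e, h ![e, e] y else 0 := by
  unfold ee
  rw [dif_pos (by norm_num)]
  rw [EE_apply]
  have h' : ∀ e, upd ![p, q] (⟨0, by norm_num⟩ : Fin 2) ⟨0 + 1, by norm_num⟩ e = ![e, e] := by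
    intro e
    funext j
    fin_cases j <;> rfl
  simp only [h']
  have h1 : (![p, q] (⟨0, by norm_num⟩ : Fin 2) = ![p, q] ⟨0 + 1, by norm_num⟩) = (p = q) := rfl
  by_cases hab : p = q
  · rw [if_pos hab, if_pos (h1 ▸ hab), Finset.sum_apply]
  · rw [if_neg hab, if_neg (h1 ▸ hab)]
    rfl

theorem pow_lc (k : ℤ) : (1 + dB * lc (decide (0 ≤ k), 0)) ^ k.natAbs = sg k * T (-2 * k) := by
  obtain ⟨c1, h1, g1⟩ := nrun_rep (decide (0 ≤ k)) 0 k.natAbs
  obtain ⟨c2, h2, g2⟩ := nrun_pw 0 k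
  have e := congrArg V3.a1 ((g1 (one _)).symm.trans (g2 (one _)))
  have h3 : c1 = c2 := by simpa [stp, one] using e
  rw [← h1, ← h2, h3]

theorem Zg_tw (k : ℤ) : ∃ c : ℤ[T;T⁻¹], 1 + dB * c = sg k * T (-2 * k) ∧ 
    ∀ (N : ℕ) (hN : 3 ≤ N) (g : (Fin 3 → Fin N) → ((Fin 3 → Fin N) → ℂ)), 
      Zg (Ar N) N (twistedClosure k) g = ev N hN (T k) * ((∑ a, ∑ d, ∑ p, ∑ q, g ![p, a, q] ![p, d, q]) + 
        ev N hN (io c) * ∑ a, ∑ d, ∑ p, ∑ e, g ![e, a, e] ![p, d, p]) := by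
  obtain ⟨c, hc, h⟩ := rho_rep (decide (0 ≤ k)) k.natAbs
  refine ⟨c, ?_, fun N hN g => ?_⟩
  · rw [hc, pow_lc]
  · unfold twistedClosure
    rw [Zg_openUp]
    have e1 : ∀ a d, Zg (Ar N) N (draw (braidClosure 2) (List.replicate k.natAbs (decide (0 ≤ k), 0))) 
        (fun x y => g ![x 0, a, x 1] ![y 0, d, y 1]) = ev N hN (T k) * ((∑ p, ∑ q, g ![p, a, q] ![p, d, q]) + 
        ev N hN (io c) * ∑ p, ∑ e, g ![e, a, e] ![p, d, p]) := by
      intro a d
      rw [Zg_draw _ _ (by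
        intro x hx
        rw [List.eq_of_mem_replicate hx]
        norm_num), h N hN, LinearMap.smul_apply, Zg_smul, LinearMap.add_apply, Zg_add, LinearMap.smul_apply, Zg_smul, 
        Zg_cl, Zg_cl]
      have e2 : (k.natAbs : ℤ) * (if decide (0 ≤ k) = true then 1 else -1) = k := by
        by_cases hk : 0 ≤ k
        · rw [if_pos (decide_eq_true hk)]; omega
        · rw [if_neg (by simpa using hk)]; omega
      rw [e2]
      congr 2
      congr 1
      refine Finset.sum_congr rfl fun p _ => ?_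
      simp only [ee2]
      rw [Finset.sum_ite_eq Finset.univ p, if_pos (Finset.mem_univ _)]
      rfl
    simp only [e1]
    simp only [← Finset.mul_sum, Finset.sum_add_distrib]

theorem PhiS_tw (k : ℤ) {c : ℤ[T;T⁻¹]} 
    (hc : ∀ (N : ℕ) (hN : 3 ≤ N) (g : (Fin 3 → Fin N) → ((Fin 3 → Fin N) → ℂ)), 
      Zg (Ar N) N (twistedClosure k) g = ev N hN (T k) * ((∑ a, ∑ d, ∑ p, ∑ q, g ![p, a, q] ![p, d, q]) + 
        ev N hN (io c) * ∑ a, ∑ d, ∑ p, ∑ e, g ![e, a, e] ![p, d, p])) : 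
    PhiS (by omega) (twistedClosure k) 1 = T k * (dl ^ 2 + io c * dl) ∧ 
    PhiS (by omega) (twistedClosure k) (EZ 3 0) = T k * (dl + io c) ∧
    PhiS (by omega) (twistedClosure k) (EZ 3 1) = T k * (dl + io c) ∧ 
    PhiS (by omega) (twistedClosure k) (EZ 3 0 * EZ 3 1) = T k * (1 + io c) ∧
    PhiS (by omega) (twistedClosure k) (EZ 3 1 * EZ 3 0) = T k * (1 + io c) := by
  refine ⟨PhiS_at _ _ _ fun N hN => ?_, PhiS_at _ _ _ fun N hN => ?_, PhiS_at _ _ _ fun N hN => ?_, 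
    PhiS_at _ _ _ fun N hN => ?_, PhiS_at _ _ _ fun N hN => ?_⟩
  all_goals
    rw [hc N hN]
    simp only [B1, B0, B2, B3, B4, ee0, ee1, ind3, map_one, map_mul, map_add, map_pow, ev_dl']
    rw [mul_left_comm]
    congr 1
    simp [Finset.sum_ite_eq, Finset.sum_ite_eq']
    try ring

end Pool.Agent.U963.KN
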